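import Pool.Agent.V7H50.FS.Rows

/-!
The choice of the rows.
-/

set_option autoImplicit false

open MvPolynomial Pool.Agent.TH145.GH
open Pool.Agent.V7H76.MP (MH mdeg DualE dF_Ev)

namespace Pool.Agent.V7H50.FS

variable {K : Type} [Field K] {n R : ℕ} {A Y : Type}

/-- The position vectors and the vertical vector fields. -/
noncomputable def vt (E : Y → Derivation ℤ K K) (p : Matrix (Fin R) (Fin (n + 1)) K) :
    (Fin R × Fin R) ⊕ Y → Fin R × Fin (n + 1) → K
  | Sum.inl s => vG (Matrix.single s.1 s.2 1) p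
  | Sum.inr ξ => dv (E ξ) p

/-- The choice of the rows. -/
theorem exists_rows [CharZero K] [Fintype A] [Fintype Y] {F : A → MvPolynomial (Fin (n + 1)) K}
    {d : A → ℕ} {D : A → (Fin (n + 1) →₀ ℕ) → Derivation ℤ K K} {E : Y → Derivation ℤ K K}
    {ε : A → (Fin (n + 1) →₀ ℕ) → ℕ} (hD : DualE (g1 n) F (dg1 d) D ε)
    (hE : ∀ ξ a u, E ξ ((F a).coeff u) = 0) {p : Matrix (Fin R) (Fin (n + 1)) K}
    {e : Fin R → Fin (n + 1)} (hp : p.submatrix id e = 1) (hC : ∀ a, sub p (F a) = 0)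
    (hs0 : LinearIndependent K (vt E p)) :
    ∃ (τ U : Type) (_ : Fintype τ) (_ : Fintype U) (t : τ → Ti n R A)
      (κ : U → Fin R × Fin (n + 1)),
      LinearIndependent K (row d D E t (fun u => Pi.single (κ u) 1) p e) ∧
      Fintype.card (Ri R d Y τ U) = R * (n + 1) ∧
      ∀ i, tv d D p i ∈ Submodule.span K (Set.range (wv d D E t p)) := by
  classical
  obtain ⟨v, hv⟩ : ∃ v, v = row d D E (fun i : Ti n R A => i)
    (fun s : Fin R × Fin (n + 1) => Pi.single s (1 : K)) p e := ⟨_, rfl⟩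
  obtain ⟨f0, hf0⟩ : ∃ f0 : (Fin R × Fin R) ⊕ Y → Ri R d Y (Ti n R A) (Fin R × Fin (n + 1)),
    f0 = Sum.elim Sum.inl (fun ξ => Sum.inr (Sum.inr (Sum.inl ξ))) := ⟨_, rfl⟩
  obtain ⟨f1, hf1⟩ : ∃ f1 : (Fin R × Fin R) ⊕ (Y ⊕ Ti n R A) →
      Ri R d Y (Ti n R A) (Fin R × Fin (n + 1)),
    f1 = Sum.elim Sum.inl (Sum.elim (fun ξ => Sum.inr (Sum.inr (Sum.inl ξ)))
      fun t => Sum.inr (Sum.inr (Sum.inr (Sum.inl t)))) := ⟨_, rfl⟩
  have hs0' : LinearIndepOn K v (f0 '' Set.univ) := by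
    refine LinearIndepOn.image_of_comp _ _ ?_
    rw [linearIndepOn_univ_iff]
    have h1 : v ∘ f0 = vt E p := by
      funext i
      rcases i with s | ξ <;> rw [hf0, hv] <;> rfl
    rw [h1]
    exact hs0
  obtain ⟨b0, hb0, hs0b, hspan0, hb0i⟩ := exists_linearIndepOn_extension hs0'
    (t := Set.range f1) (by
      rintro _ ⟨(s | ξ), -, rfl⟩
      · exact ⟨Sum.inl s, by rw [hf0, hf1]; rfl⟩
      · exact ⟨Sum.inr (Sum.inl ξ), by rw [hf0, hf1]; rfl⟩)
  -- the functionals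
  have hΦw : ∀ z ∈ Submodule.span K (v '' b0), ∀ b, Ph (F b) p z = 0 := by
    intro z hz b
    have h1 : Submodule.span K (v '' b0) ≤ LinearMap.ker (Ph (F b) p) := by
      rw [Submodule.span_le]
      rintro _ ⟨o, ho, rfl⟩
      rw [SetLike.mem_coe, LinearMap.mem_ker]
      obtain ⟨o, rfl⟩ := hb0 ho
      rcases o with s | ξ | t
      · rw [hf1, hv]
        exact Ph_vG _ (hC b)
      · rw [hf1, hv]
        exact Ph_vert (hE ξ b) (hC b)
      · rw [hf1, hv]
        exact Ph_tv hD b (hC b) t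
    exact h1 hz
  obtain ⟨fC, hfC⟩ : ∃ fC : Bi R d → Ri R d Y (Ti n R A) (Fin R × Fin (n + 1)),
    ∀ x, fC x = Sum.inr (Sum.inl x) := ⟨_, fun _ => rfl⟩
  have hΦC : ∀ (x : Bi R d) (b : A), Ph (F b) p (v (fC x)) =
      - if x.1 = b then monomial x.2.1 1 else 0 := by
    rintro ⟨a, J⟩ b
    rw [hfC, hv]
    simp only [row]
    rw [Ph_dv hD p (by rw [degree_mapDomain, J.2]) (hC b), sub_base hp]
  have hΦsum : ∀ (r : Bi R d → K) (b : A), Ph (F b) p (∑ x, r x • v (fC x)) =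
      - ∑ J : Ex R (d b), monomial J.1 (r ⟨b, J⟩) := by
    intro r b
    rw [map_sum, Fintype.sum_sigma, Finset.sum_eq_single b]
    · rw [← Finset.sum_neg_distrib]
      refine Finset.sum_congr rfl fun J _ => ?_
      rw [map_smul, hΦC]
      dsimp only
      rw [if_pos rfl, smul_neg, smul_monomial, smul_eq_mul, mul_one]
    · intro a _ hab
      refine Finset.sum_eq_zero fun J _ => ?_
      rw [map_smul, hΦC]
      dsimp only
      rw [if_neg hab, neg_zero, smul_zero]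
    · intro h; exact absurd (Finset.mem_univ b) h
  have hker : ∀ (r : Bi R d → K), (∀ b, Ph (F b) p (∑ x, r x • v (fC x)) = 0) →
      ∀ x, r x = 0 := by
    rintro r h ⟨b, J⟩
    have h1 := h b
    rw [hΦsum, neg_eq_zero] at h1
    have h2 := congrArg (coeff J.1) h1
    rw [coeff_sum, coeff_zero, Finset.sum_eq_single J] at h2
    · rwa [coeff_monomial, if_pos rfl] at h2
    · intro J' _ hJ'
      rw [coeff_monomial, if_neg fun h => hJ' (Subtype.ext h)]
    · intro h; exact absurd (Finset.mem_univ J) h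
  have hCind : LinearIndepOn K v (fC '' Set.univ) := by
    refine LinearIndepOn.image_of_comp _ _ ?_
    rw [linearIndepOn_univ_iff, Fintype.linearIndependent_iff]
    intro r hr
    refine hker r fun b => ?_
    have h1 : ∑ x, r x • v (fC x) = 0 := hr
    rw [h1, map_zero]
  have hdisj : Disjoint (Submodule.span K (v '' b0))
      (Submodule.span K (v '' (fC '' Set.univ))) := by
    rw [Submodule.disjoint_def]
    intro z hz1 hz2
    have h2 : v '' (fC '' Set.univ) = Set.range fun x : Bi R d => v (fC x) := by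
      rw [Set.image_univ, ← Set.range_comp]
      rfl
    rw [h2, Submodule.mem_span_range_iff_exists_fun] at hz2
    obtain ⟨r, rfl⟩ := hz2
    have h1 := hker r fun b => hΦw _ hz1 b
    exact Finset.sum_eq_zero fun x _ => by rw [h1, zero_smul]
  obtain ⟨b1, -, hb1, hspan1, hb1i⟩ := exists_linearIndepOn_extension (hb0i.union hCind hdisj)
    (Set.subset_univ _)
  have hb1i' : LinearIndependent K (fun i : b1 => v i) := hb1i
  have hfin : b1.Finite := by
    have := hb1i'.finite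
    exact Set.toFinite b1
  obtain ⟨q1, hq1⟩ : ∃ q1 : Ti n R A → Ri R d Y (Ti n R A) (Fin R × Fin (n + 1)),
    ∀ t, q1 t = Sum.inr (Sum.inr (Sum.inr (Sum.inl t))) := ⟨_, fun _ => rfl⟩
  have hτ : Finite {t : Ti n R A // q1 t ∈ b1} := by
    have h1 : (q1 ⁻¹' b1).Finite := hfin.preimage (by
      intro x _ y _ hxy
      rw [hq1, hq1] at hxy
      simpa using hxy)
    exact h1
  have hτ' := Fintype.ofFinite {t : Ti n R A // q1 t ∈ b1}
  obtain ⟨q2, hq2⟩ : ∃ q2 : Fin R × Fin (n + 1) → Ri R d Y (Ti n R A) (Fin R × Fin (n + 1)),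
    ∀ t, q2 t = Sum.inr (Sum.inr (Sum.inr (Sum.inr t))) := ⟨_, fun _ => rfl⟩
  have hU' : Fintype {s : Fin R × Fin (n + 1) // q2 s ∈ b1} := Fintype.ofFinite _
  obtain ⟨φ, hφ⟩ : ∃ φ : Ri R d Y {t : Ti n R A // q1 t ∈ b1}
      {s : Fin R × Fin (n + 1) // q2 s ∈ b1} → Ri R d Y (Ti n R A) (Fin R × Fin (n + 1)),
      φ = Sum.map id (Sum.map id (Sum.map id (Sum.map Subtype.val Subtype.val))) := ⟨_, rfl⟩
  have hφi : Function.Injective φ := by
    rw [hφ]
    exact Function.Injective.sumMap Function.injective_id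
      (Function.Injective.sumMap Function.injective_id
        (Function.Injective.sumMap Function.injective_id
          (Function.Injective.sumMap Subtype.val_injective Subtype.val_injective)))
  have hφb : ∀ x, φ x ∈ b1 := by
    rintro (s | x | ξ | t | s)
    · refine hb1 (Or.inl (hs0b ⟨Sum.inl s, trivial, ?_⟩))
      rw [hf0, hφ]; rfl
    · refine hb1 (Or.inr ⟨x, trivial, ?_⟩)
      rw [hfC, hφ]; rfl
    · refine hb1 (Or.inl (hs0b ⟨Sum.inr ξ, trivial, ?_⟩))
      rw [hf0, hφ]; rfl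
    · have h1 := t.2
      rw [hq1] at h1
      rw [hφ]; exact h1
    · have h1 := s.2
      rw [hq2] at h1
      rw [hφ]; exact h1
  have hbφ : ∀ x ∈ b1, ∃ y, φ y = x := by
    rintro (s | x | ξ | t | s) h
    · exact ⟨Sum.inl s, by rw [hφ]; rfl⟩
    · exact ⟨Sum.inr (Sum.inl x), by rw [hφ]; rfl⟩
    · exact ⟨Sum.inr (Sum.inr (Sum.inl ξ)), by rw [hφ]; rfl⟩
    · exact ⟨Sum.inr (Sum.inr (Sum.inr (Sum.inl ⟨t, by rw [hq1]; exact h⟩))), by rw [hφ]; rfl⟩
    · exact ⟨Sum.inr (Sum.inr (Sum.inr (Sum.inr ⟨s, by rw [hq2]; exact h⟩))), by rw [hφ]; rfl⟩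
  have hvφ : ∀ x, v (φ x) = row d D E (fun i : {t : Ti n R A // q1 t ∈ b1} => i.1)
      (fun u : {s : Fin R × Fin (n + 1) // q2 s ∈ b1} => Pi.single u.1 (1 : K)) p e x := by
    rintro (s | x | ξ | t | s) <;> rw [hφ, hv] <;> rfl
  have hind : LinearIndependent K (row d D E (fun i : {t : Ti n R A // q1 t ∈ b1} => i.1)
      (fun u : {s : Fin R × Fin (n + 1) // q2 s ∈ b1} => Pi.single u.1 (1 : K)) p e) := by
    have h1 := hb1i'.comp (fun x => (⟨φ x, hφb x⟩ : b1)) (by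
      intro x y hxy
      exact hφi (congrArg Subtype.val hxy))
    have h2 : (fun i : b1 => v i) ∘ (fun x => (⟨φ x, hφb x⟩ : b1)) =
        row d D E (fun i : {t : Ti n R A // q1 t ∈ b1} => i.1)
      (fun u : {s : Fin R × Fin (n + 1) // q2 s ∈ b1} => Pi.single u.1 (1 : K)) p e :=
      funext hvφ
    rwa [h2] at h1
  have hspan : ∀ i, v i ∈ Submodule.span K (Set.range
      (row d D E (fun i : {t : Ti n R A // q1 t ∈ b1} => i.1)
      (fun u : {s : Fin R × Fin (n + 1) // q2 s ∈ b1} => Pi.single u.1 (1 : K)) p e)) := by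
    intro i
    have h3 := hspan1 ⟨i, Set.mem_univ _, rfl⟩
    refine Submodule.span_mono ?_ h3
    rintro _ ⟨x, hx, rfl⟩
    obtain ⟨y, rfl⟩ := hbφ x hx
    exact ⟨y, (hvφ y).symm⟩
  refine ⟨_, _, hτ', hU', fun i => i.1, fun u => u.1, hind, ?_, fun i => ?_⟩
  · have htop : ⊤ ≤ Submodule.span K (Set.range
        (row d D E (fun i : {t : Ti n R A // q1 t ∈ b1} => i.1)
        (fun u : {s : Fin R × Fin (n + 1) // q2 s ∈ b1} => Pi.single u.1 (1 : K)) p e)) := by
      rw [← (Pi.basisFun K (Fin R × Fin (n + 1))).span_eq, Submodule.span_le]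
      rintro _ ⟨s, rfl⟩
      have h1 := hspan (Sum.inr (Sum.inr (Sum.inr (Sum.inr s))))
      rw [Pi.basisFun_apply]
      rw [hv] at h1
      exact h1
    have h1 := Module.finrank_eq_card_basis (Module.Basis.mk hind htop)
    rw [Module.finrank_fintype_fun_eq_card, Fintype.card_prod, Fintype.card_fin,
      Fintype.card_fin] at h1
    exact h1.symm
  · have h1 := hspan0 ⟨f1 (Sum.inr (Sum.inr i)), ⟨_, rfl⟩, rfl⟩
    have h2 : v (f1 (Sum.inr (Sum.inr i))) = tv d D p i := by rw [hv, hf1]; rfl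
    rw [h2] at h1
    refine Submodule.span_mono ?_ h1
    rintro _ ⟨x, hx, rfl⟩
    obtain ⟨o, rfl⟩ := hb0 hx
    rcases o with s | ξ | t
    · exact ⟨Sum.inl s, by rw [hv, hf1]; rfl⟩
    · exact ⟨Sum.inr (Sum.inl ξ), by rw [hv, hf1]; rfl⟩
    · refine ⟨Sum.inr (Sum.inr ⟨t, ?_⟩), by rw [hv, hf1]; rfl⟩
      rw [hq1]
      have h3 := hb1 (Or.inl hx)
      rw [hf1] at h3
      exact h3

end Pool.Agent.V7H50.FS
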