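import Pool.Agent.V7H50.FS.Choice

/-!
The determinant of the rows: scaling, and change of the chart.
-/

set_option autoImplicit false

open MvPolynomial Pool.Agent.TH145.GH

namespace Pool.Agent.V7H50.FS

section act

variable {K : Type} [Field K] {n R : ℕ}

theorem act_add (h : Matrix (Fin R) (Fin R) K) (y z : Fin R × Fin (n + 1) → K) :
    act h (y + z) = act h y + act h z := by
  funext s
  unfold act
  rw [Pi.add_apply, ← Finset.sum_add_distrib]
  exact Finset.sum_congr rfl fun i _ => by rw [Pi.add_apply, mul_add]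

theorem act_smul (h : Matrix (Fin R) (Fin R) K) (c : K) (z : Fin R × Fin (n + 1) → K) :
    act h (c • z) = c • act h z := by
  funext s
  unfold act
  rw [Pi.smul_apply, smul_eq_mul, Finset.mul_sum]
  exact Finset.sum_congr rfl fun i _ => by rw [Pi.smul_apply, smul_eq_mul]; ring

theorem act_act (g h : Matrix (Fin R) (Fin R) K) (z : Fin R × Fin (n + 1) → K) :
    act g (act h z) = act (g * h) z := by
  funext s
  unfold act
  simp only [Matrix.mul_apply, Finset.mul_sum, Finset.sum_mul]
  rw [Finset.sum_comm]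
  exact Finset.sum_congr rfl fun i _ => Finset.sum_congr rfl fun j _ => by ring

theorem act_one (z : Fin R × Fin (n + 1) → K) : act 1 z = z := by
  funext s
  unfold act
  rw [Finset.sum_eq_single s.1]
  · rw [Matrix.one_apply_eq, one_mul]
  · intro i _ hi
    rw [Matrix.one_apply_ne (Ne.symm hi), zero_mul]
  · intro h; exact absurd (Finset.mem_univ _) h

theorem act_vG (h G : Matrix (Fin R) (Fin R) K) (p : Matrix (Fin R) (Fin (n + 1)) K) :
    act h (vG G p) = vG (h * G) p := by
  funext s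
  unfold act vG
  rw [Matrix.mul_assoc, Matrix.mul_apply]

theorem vG_mul (G h : Matrix (Fin R) (Fin R) K) (p : Matrix (Fin R) (Fin (n + 1)) K) :
    vG G (h * p) = vG (G * h) p := by
  unfold vG
  rw [Matrix.mul_assoc]

theorem vG_sum (G : Matrix (Fin R) (Fin R) K) (p : Matrix (Fin R) (Fin (n + 1)) K) :
    vG G p = ∑ x : Fin R × Fin R, G x.1 x.2 • vG (Matrix.single x.1 x.2 1) p := by
  have h1 : G = ∑ x : Fin R × Fin R, G x.1 x.2 • Matrix.single x.1 x.2 (1 : K) := by
    rw [Fintype.sum_prod_type]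
    conv_lhs => rw [Matrix.matrix_eq_sum_single G]
    refine Finset.sum_congr rfl fun i _ => Finset.sum_congr rfl fun j _ => ?_
    rw [Matrix.smul_single, smul_eq_mul, mul_one]
  conv_lhs => rw [h1]
  funext s
  unfold vG
  rw [Matrix.sum_mul, Matrix.sum_apply, Finset.sum_apply]
  refine Finset.sum_congr rfl fun x _ => ?_
  rw [Matrix.smul_mul]
  rfl

theorem sum_act (h G : Matrix (Fin R) (Fin R) K) (p : Matrix (Fin R) (Fin (n + 1)) K)
    (s : Fin R × Fin (n + 1)) :
    ∑ x : Fin R × Fin R, G x.1 x.2 * act h (vG (Matrix.single x.1 x.2 1) p) s =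
      vG (h * G) p s := by
  rw [← act_vG, vG_sum G]
  unfold act
  simp only [Finset.sum_apply, Finset.mul_sum, Pi.smul_apply, smul_eq_mul]
  rw [Finset.sum_comm]
  exact Finset.sum_congr rfl fun i _ => Finset.sum_congr rfl fun j _ => by ring

theorem dv_mul (δ : Derivation ℤ K K) (h : Matrix (Fin R) (Fin R) K)
    (p : Matrix (Fin R) (Fin (n + 1)) K) : dv δ (h * p) = vG (h.map δ) p + act h (dv δ p) := by
  funext s
  rw [Pi.add_apply]
  unfold dv vG act
  rw [Matrix.mul_apply, Matrix.mul_apply, map_sum, ← Finset.sum_add_distrib]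
  refine Finset.sum_congr rfl fun i _ => ?_
  rw [δ.leibniz, Matrix.map_apply, smul_eq_mul, smul_eq_mul]
  ring

theorem vG_add (G H : Matrix (Fin R) (Fin R) K) (p : Matrix (Fin R) (Fin (n + 1)) K) :
    vG (G + H) p = vG G p + vG H p := by
  funext s
  unfold vG
  rw [Matrix.add_mul]
  rfl

theorem vG_smul (c : K) (G : Matrix (Fin R) (Fin R) K) (p : Matrix (Fin R) (Fin (n + 1)) K) :
    vG (c • G) p = c • vG G p := by
  funext s
  unfold vG
  rw [Matrix.smul_mul]
  rfl

theorem vG_zero (p : Matrix (Fin R) (Fin (n + 1)) K) : vG 0 p = 0 := by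
  funext s
  unfold vG
  rw [Matrix.zero_mul]
  rfl

theorem tv_mul {A : Type} (d : A → ℕ) (D : A → (Fin (n + 1) →₀ ℕ) → Derivation ℤ K K)
    (h : Matrix (Fin R) (Fin R) K) (p : Matrix (Fin R) (Fin (n + 1)) K) (t : Ti n R A) :
    ∃ G, tv d D (h * p) t = vG G p + h.det • act h (tv d D p t) := by
  unfold tv
  split_ifs with ht
  · refine ⟨∑ k, ct (h * p) t.2.2 k • h.map (D t.1 (t.2.1 + Finsupp.single (t.2.2 k) 1)), ?_⟩
    have h1 : ∀ (S : Finset (Fin (R + 1))),
        ∑ k ∈ S, ct (h * p) t.2.2 k • dv (D t.1 (t.2.1 + Finsupp.single (t.2.2 k) 1)) (h * p) =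
        vG (∑ k ∈ S, ct (h * p) t.2.2 k • h.map (D t.1 (t.2.1 + Finsupp.single (t.2.2 k) 1))) p +
          h.det • act h (∑ k ∈ S, ct p t.2.2 k •
            dv (D t.1 (t.2.1 + Finsupp.single (t.2.2 k) 1)) p) := by
      intro S
      induction S using Finset.cons_induction with
      | empty =>
        simp only [Finset.sum_empty]
        have h2 : act h (0 : Fin R × Fin (n + 1) → K) = 0 := by
          funext s
          unfold act
          simp
        rw [vG_zero, h2, smul_zero, add_zero]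
      | cons k S hk ih =>
        rw [Finset.sum_cons, Finset.sum_cons, Finset.sum_cons, ih, dv_mul, vG_add, vG_smul,
          act_add, act_smul, ct_mul, smul_add, smul_add, mul_smul, mul_smul]
        abel
    exact h1 Finset.univ
  · refine ⟨0, ?_⟩
    have h2 : act h (0 : Fin R × Fin (n + 1) → K) = 0 := by
      funext s
      unfold act
      simp
    rw [vG_zero, h2, smul_zero, add_zero]

end act

variable {K : Type} [Field K] {n R : ℕ} {A Y τ U : Type} {d : A → ℕ}
  {D : A → (Fin (n + 1) →₀ ℕ) → Derivation ℤ K K} {E : Y → Derivation ℤ K K} {t : τ → Ti n R A}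

/-- The factors of the rows. -/
noncomputable def wt (R : ℕ) {A : Type} (d : A → ℕ) (Y τ U : Type) (c : K) :
    Bi R d ⊕ (Y ⊕ (τ ⊕ U)) → K
  | Sum.inl _ => 1
  | Sum.inr (Sum.inl _) => 1
  | Sum.inr (Sum.inr (Sum.inl _)) => c
  | Sum.inr (Sum.inr (Sum.inr _)) => 1

theorem row_scale (κ : U → Fin R × Fin (n + 1) → K) (h : Matrix (Fin R) (Fin R) K)
    (hh : h.det ≠ 0) (p : Matrix (Fin R) (Fin (n + 1)) K) (e : Fin R → Fin (n + 1))
    (r : Bi R d ⊕ (Y ⊕ (τ ⊕ U))) :
    ∃ G, row d D E t κ (h * p) e (Sum.inr r) = vG G p + wt R d Y τ U h.det r •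
      act h (row d D E t (fun u => act h⁻¹ (κ u)) p e (Sum.inr r)) := by
  rcases r with x | ξ | i | u
  · simp only [row, wt, one_smul]
    exact ⟨_, dv_mul _ _ _⟩
  · simp only [row, wt, one_smul]
    exact ⟨_, dv_mul _ _ _⟩
  · simp only [row, wt]
    exact tv_mul _ _ _ _ _
  · refine ⟨0, ?_⟩
    simp only [row, wt, one_smul]
    rw [act_act, Matrix.mul_nonsing_inv _ (isUnit_iff_ne_zero.2 hh), act_one, vG_zero, zero_add]

variable [Fintype A] [DecidableEq A] [Fintype Y] [DecidableEq Y] [Fintype τ] [DecidableEq τ]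
  [Fintype U] [DecidableEq U]

instance decRi : DecidableEq (Ri R d Y τ U) := instDecidableEqSum

/-- The square matrix of the rows. -/
noncomputable def rmx (d : A → ℕ) (D : A → (Fin (n + 1) →₀ ℕ) → Derivation ℤ K K)
    (E : Y → Derivation ℤ K K) (t : τ → Ti n R A) (κ : U → Fin R × Fin (n + 1) → K)
    (p : Matrix (Fin R) (Fin (n + 1)) K) (e : Fin R → Fin (n + 1))
    (σ : Ri R d Y τ U ≃ Fin R × Fin (n + 1)) : Matrix (Ri R d Y τ U) (Ri R d Y τ U) K :=
  Matrix.of fun r c => row d D E t κ p e r (σ c)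

open scoped Kronecker in
/-- Scaling. -/
theorem det_scale (κ : U → Fin R × Fin (n + 1) → K) (h : Matrix (Fin R) (Fin R) K)
    (hh : h.det ≠ 0) (p : Matrix (Fin R) (Fin (n + 1)) K) (e : Fin R → Fin (n + 1))
    (σ : Ri R d Y τ U ≃ Fin R × Fin (n + 1)) :
    (rmx d D E t κ (h * p) e σ).det = h.det ^ (n + 1 + Fintype.card τ) *
      (rmx d D E t (fun u => act h⁻¹ (κ u)) p e σ).det := by
  choose G hG using fun r => row_scale (D := D) (E := E) (t := t) κ h hh p e r
  have hu : IsUnit h.det := isUnit_iff_ne_zero.2 hh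
  obtain ⟨M, hM⟩ : ∃ M, M = rmx d D E t (fun u => act h⁻¹ (κ u)) p e σ := ⟨_, rfl⟩
  obtain ⟨H, hH⟩ : ∃ H : Matrix (Ri R d Y τ U) (Ri R d Y τ U) K,
    H = ((h.transpose) ⊗ₖ (1 : Matrix (Fin (n + 1)) (Fin (n + 1)) K)).submatrix σ σ := ⟨_, rfl⟩
  obtain ⟨P, hP⟩ : ∃ P : Matrix (Ri R d Y τ U) (Ri R d Y τ U) K,
    P = Matrix.fromBlocks ((h⁻¹.transpose) ⊗ₖ h) 0 (Matrix.of fun r s => (h⁻¹ * G r) s.1 s.2)
      (Matrix.diagonal (wt R d Y τ U h.det)) := ⟨_, rfl⟩
  have hMH : ∀ r c, (M * H) r c =
      act h (row d D E t (fun u => act h⁻¹ (κ u)) p e r) (σ c) := by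
    intro r c
    rw [Matrix.mul_apply, hM, hH]
    simp only [rmx, Matrix.of_apply, Matrix.submatrix_apply]
    rw [Equiv.sum_comp σ (fun s => row d D E t (fun u => act h⁻¹ (κ u)) p e r s *
      ((h.transpose) ⊗ₖ (1 : Matrix (Fin (n + 1)) (Fin (n + 1)) K)) s (σ c)),
      Fintype.sum_prod_type]
    unfold act
    refine Finset.sum_congr rfl fun i _ => ?_
    rw [Finset.sum_eq_single (σ c).2]
    · rw [Matrix.kronecker_apply, Matrix.one_apply_eq, mul_one, Matrix.transpose_apply, mul_comm]
    · intro l _ hl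
      rw [Matrix.kronecker_apply, Matrix.one_apply_ne hl, mul_zero, mul_zero]
    · intro h; exact absurd (Finset.mem_univ _) h
  have h1 : rmx d D E t κ (h * p) e σ = P * (M * H) := by
    ext r c
    rw [Matrix.mul_apply, Fintype.sum_sum_type]
    simp only [hMH]
    rw [rmx, Matrix.of_apply, hP]
    rcases r with s | r
    · have h2 : ∀ x, Matrix.fromBlocks ((h⁻¹.transpose) ⊗ₖ h) 0
          (Matrix.of fun r s => (h⁻¹ * G r) s.1 s.2)
          (Matrix.diagonal (wt R d Y τ U h.det)) (Sum.inl s) (Sum.inl x) =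
          (Matrix.of fun a b => h⁻¹ a s.1 * h s.2 b) x.1 x.2 := by
        intro x
        rw [Matrix.fromBlocks_apply₁₁, Matrix.kronecker_apply]
        rfl
      have h3 : ∀ x, Matrix.fromBlocks ((h⁻¹.transpose) ⊗ₖ h) 0
          (Matrix.of fun r s => (h⁻¹ * G r) s.1 s.2)
          (Matrix.diagonal (wt R d Y τ U h.det)) (Sum.inl s) (Sum.inr x) = 0 := by
        intro x
        rw [Matrix.fromBlocks_apply₁₂]
        rfl
      simp only [h2, h3, zero_mul, Finset.sum_const_zero, add_zero]
      have h4 := sum_act h (Matrix.of fun a b => h⁻¹ a s.1 * h s.2 b) p (σ c)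
      refine Eq.trans ?_ h4.symm
      have h5 : Matrix.single s.1 s.2 1 * h = h * Matrix.of fun a b => h⁻¹ a s.1 * h s.2 b := by
        ext a b
        have h6 : (h * Matrix.of fun a b => h⁻¹ a s.1 * h s.2 b) a b =
            (h * h⁻¹) a s.1 * h s.2 b := by
          rw [Matrix.mul_apply, Matrix.mul_apply, Finset.sum_mul]
          refine Finset.sum_congr rfl fun j _ => ?_
          rw [Matrix.of_apply, mul_assoc]
        rw [h6, Matrix.mul_nonsing_inv _ hu, Matrix.mul_apply, Finset.sum_eq_single s.2]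
        · rw [Matrix.single_apply, Matrix.one_apply]
          by_cases ha : s.1 = a
          · rw [if_pos ⟨ha, rfl⟩, if_pos ha.symm]
          · rw [if_neg fun h => ha h.1, if_neg (Ne.symm ha)]
        · intro j _ hj
          rw [Matrix.single_apply, if_neg fun h => hj h.2.symm, zero_mul]
        · intro h; exact absurd (Finset.mem_univ _) h
      simp only [row]
      rw [vG_mul, h5]
    · have h2 : ∀ x, Matrix.fromBlocks ((h⁻¹.transpose) ⊗ₖ h) 0
          (Matrix.of fun r s => (h⁻¹ * G r) s.1 s.2)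
          (Matrix.diagonal (wt R d Y τ U h.det)) (Sum.inr r) (Sum.inl x) =
          (h⁻¹ * G r) x.1 x.2 := by
        intro x
        rw [Matrix.fromBlocks_apply₂₁]
        rfl
      have h3 : ∀ x, Matrix.fromBlocks ((h⁻¹.transpose) ⊗ₖ h) 0
          (Matrix.of fun r s => (h⁻¹ * G r) s.1 s.2)
          (Matrix.diagonal (wt R d Y τ U h.det)) (Sum.inr r) (Sum.inr x) =
          if r = x then wt R d Y τ U h.det r else 0 := by
        intro x
        rw [Matrix.fromBlocks_apply₂₂, Matrix.diagonal_apply]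
      simp only [h2, h3, ite_mul, zero_mul]
      rw [Finset.sum_ite_eq Finset.univ r, if_pos (Finset.mem_univ _), hG, Pi.add_apply,
        Pi.smul_apply, smul_eq_mul]
      congr 1
      have h4 := sum_act h (h⁻¹ * G r) p (σ c)
      rw [← Matrix.mul_assoc, Matrix.mul_nonsing_inv _ hu, Matrix.one_mul] at h4
      exact h4.symm
  have hPd : P.det = h.det ^ Fintype.card τ := by
    rw [hP, Matrix.det_fromBlocks_zero₁₂, Matrix.det_kronecker, Matrix.det_transpose,
      Matrix.det_diagonal, Fintype.prod_sum_type, Fintype.prod_sum_type, Fintype.prod_sum_type]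
    simp only [wt, Finset.prod_const_one, one_mul, mul_one, Finset.prod_const, Finset.card_univ]
    rw [Fintype.card_fin, ← mul_pow, ← Matrix.det_mul, Matrix.nonsing_inv_mul _ hu,
      Matrix.det_one, one_pow, one_mul]
  have hHd : H.det = h.det ^ (n + 1) := by
    rw [hH, Matrix.det_submatrix_equiv_self, Matrix.det_kronecker, Matrix.det_transpose,
      Matrix.det_one, one_pow, mul_one, Fintype.card_fin]
  rw [h1, Matrix.det_mul, Matrix.det_mul, hPd, hHd, hM, pow_add]
  ring

omit [Fintype U] [DecidableEq U] [Fintype τ] [DecidableEq τ] [DecidableEq Y] [Fintype Y]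
  [DecidableEq A] [Fintype A] in
theorem exists_comb [Fintype Y] [Fintype τ] {p : Matrix (Fin R) (Fin (n + 1)) K}
    {e0 : Fin R → Fin (n + 1)} (hp : p.submatrix id e0 = 1)
    (hspan : ∀ i, tv d D p i ∈ Submodule.span K (Set.range (wv d D E t p))) (a : A)
    {I : Fin (n + 1) →₀ ℕ} (hI : I.degree = d a) :
    ∃ c : (Fin R × Fin R) ⊕ (Y ⊕ τ) → K, dv (D a I) p =
      ∑ J : Ex R (d a), coeff J.1 (sub p (monomial I 1)) • dv (D a (J.1.mapDomain e0)) p +
        ∑ o, c o • wv d D E t p o := by
  have h1 := dv_mod d D hp a hI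
  have h2 : Submodule.span K (Set.range (tv d D p)) ≤
      Submodule.span K (Set.range (wv d D E t p)) := by
    rw [Submodule.span_le]
    rintro _ ⟨i, rfl⟩
    exact hspan i
  obtain ⟨c, hc⟩ := (Submodule.mem_span_range_iff_exists_fun K).1 (h2 h1)
  exact ⟨c, by rw [hc]; abel⟩

/-- Change of the chart. -/
theorem det_chart (κ : U → Fin R × Fin (n + 1) → K) {p : Matrix (Fin R) (Fin (n + 1)) K}
    {e0 : Fin R → Fin (n + 1)} (hp : p.submatrix id e0 = 1)
    (hspan : ∀ i, tv d D p i ∈ Submodule.span K (Set.range (wv d D E t p)))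
    (e1 : Fin R → Fin (n + 1)) (σ : Ri R d Y τ U ≃ Fin R × Fin (n + 1)) :
    (rmx d D E t κ p e1 σ).det = (symB d (p.submatrix id e1)).det *
      (rmx d D E t κ p e0 σ).det := by
  have h0 : ∀ x : Bi R d, ∃ c : (Fin R × Fin R) ⊕ (Y ⊕ τ) → K,
      dv (D x.1 (x.2.1.mapDomain e1)) p =
      ∑ J : Ex R (d x.1), coeff J.1 (sub p (monomial (x.2.1.mapDomain e1) 1)) •
        dv (D x.1 (J.1.mapDomain e0)) p + ∑ o, c o • wv d D E t p o := fun x =>
    exists_comb hp hspan x.1 (by rw [degree_mapDomain, x.2.2])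
  choose c hc using h0
  obtain ⟨P, hP⟩ : ∃ P : Matrix (Ri R d Y τ U) (Ri R d Y τ U) K,
    P = Matrix.fromBlocks 1 0 (Matrix.fromRows (Matrix.of fun x s => c x (Sum.inl s)) 0)
      (Matrix.fromBlocks (symB d (p.submatrix id e1)) (Matrix.of fun x r => match r with
        | Sum.inl ξ => c x (Sum.inr (Sum.inl ξ))
        | Sum.inr (Sum.inl i) => c x (Sum.inr (Sum.inr i))
        | Sum.inr (Sum.inr _) => 0) 0 1) := ⟨_, rfl⟩
  have h1 : rmx d D E t κ p e1 σ = P * rmx d D E t κ p e0 σ := by
    ext r z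
    rw [Matrix.mul_apply, Fintype.sum_sum_type, hP]
    rcases r with s | x | r
    · simp only [Matrix.fromBlocks_apply₁₁, Matrix.fromBlocks_apply₁₂, Matrix.zero_apply,
        zero_mul, Finset.sum_const_zero, add_zero, Matrix.one_apply, ite_mul, one_mul]
      rw [Finset.sum_ite_eq Finset.univ s, if_pos (Finset.mem_univ _)]
      rfl
    · rw [Fintype.sum_sum_type]
      simp only [Matrix.fromBlocks_apply₂₁, Matrix.fromBlocks_apply₂₂,
        Matrix.fromBlocks_apply₁₁, Matrix.fromBlocks_apply₁₂, Matrix.fromRows_apply_inl,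
        Matrix.of_apply]
      rw [Fintype.sum_sum_type, Fintype.sum_sum_type]
      simp only [zero_mul, Finset.sum_const_zero, add_zero]
      simp only [rmx, Matrix.of_apply, row]
      rw [hc, Pi.add_apply, Finset.sum_apply, Finset.sum_apply, Fintype.sum_sum_type,
        Fintype.sum_sum_type]
      simp only [Pi.smul_apply, smul_eq_mul, wv]
      rw [add_left_comm, ← add_assoc]
      have h2 : ∑ y : Bi R d, symB d (p.submatrix id e1) x y *
          dv (D y.1 (y.2.1.mapDomain e0)) p (σ z) =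
          ∑ J : Ex R (d x.1), coeff J.1 (sub p (monomial (x.2.1.mapDomain e1) 1)) *
            dv (D x.1 (J.1.mapDomain e0)) p (σ z) := by
        rw [Fintype.sum_sigma, Finset.sum_eq_single x.1]
        · refine Finset.sum_congr rfl fun J _ => ?_
          simp only [symB, Matrix.of_apply]
          rw [if_pos trivial, sub_mapDomain]
        · intro b _ hb
          refine Finset.sum_eq_zero fun J _ => ?_
          simp only [symB, Matrix.of_apply]
          rw [if_neg (Ne.symm hb), zero_mul]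
        · intro h; exact absurd (Finset.mem_univ _) h
      rw [h2]
      ring
    · rw [Fintype.sum_sum_type]
      simp only [Matrix.fromBlocks_apply₂₁, Matrix.fromBlocks_apply₂₂, Matrix.zero_apply,
        Matrix.fromRows_apply_inr,
        zero_mul, Finset.sum_const_zero, zero_add, Matrix.one_apply, ite_mul, one_mul]
      rw [Finset.sum_ite_eq Finset.univ r, if_pos (Finset.mem_univ _)]
      rcases r with ξ | i | u <;> rfl
  rw [h1, Matrix.det_mul, hP, Matrix.det_fromBlocks_zero₁₂, Matrix.det_one, one_mul,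
    Matrix.det_fromBlocks_zero₂₁, Matrix.det_one, mul_one]

/-- A linear substitution of the vertical derivations multiplies the determinant. -/
theorem det_lin {E' : Y → Derivation ℤ K K} {M : Matrix Y Y K}
    (hE : ∀ ξ f, E' ξ f = ∑ η, M ξ η * E η f) (κ : U → Fin R × Fin (n + 1) → K)
    (p : Matrix (Fin R) (Fin (n + 1)) K) (e : Fin R → Fin (n + 1))
    (σ : Ri R d Y τ U ≃ Fin R × Fin (n + 1)) :
    (rmx d D E' t κ p e σ).det = M.det * (rmx d D E t κ p e σ).det := by
  obtain ⟨P, hP⟩ : ∃ P : Matrix (Ri R d Y τ U) (Ri R d Y τ U) K,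
    P = Matrix.fromBlocks 1 0 0 (Matrix.fromBlocks 1 0 0 (Matrix.fromBlocks M 0 0 1)) :=
    ⟨_, rfl⟩
  have h1 : rmx d D E' t κ p e σ = P * rmx d D E t κ p e σ := by
    ext r z
    rw [Matrix.mul_apply, Fintype.sum_sum_type, hP]
    rcases r with s | x | ξ | r
    · simp only [Matrix.fromBlocks_apply₁₁, Matrix.fromBlocks_apply₁₂, Matrix.zero_apply,
        zero_mul, Finset.sum_const_zero, add_zero, Matrix.one_apply, ite_mul, one_mul]
      rw [Finset.sum_ite_eq Finset.univ s, if_pos (Finset.mem_univ _)]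
      rfl
    · rw [Fintype.sum_sum_type]
      simp only [Matrix.fromBlocks_apply₂₁, Matrix.fromBlocks_apply₂₂,
        Matrix.fromBlocks_apply₁₁, Matrix.fromBlocks_apply₁₂, Matrix.zero_apply,
        zero_mul, Finset.sum_const_zero, zero_add, add_zero, Matrix.one_apply, ite_mul, one_mul]
      rw [Finset.sum_ite_eq Finset.univ x, if_pos (Finset.mem_univ _)]
      rfl
    · rw [Fintype.sum_sum_type, Fintype.sum_sum_type]
      simp only [Matrix.fromBlocks_apply₂₁, Matrix.fromBlocks_apply₂₂,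
        Matrix.fromBlocks_apply₁₁, Matrix.fromBlocks_apply₁₂, Matrix.zero_apply,
        zero_mul, Finset.sum_const_zero, zero_add, add_zero]
      simp only [rmx, Matrix.of_apply, row, dv]
      exact hE ξ _
    · rw [Fintype.sum_sum_type, Fintype.sum_sum_type]
      simp only [Matrix.fromBlocks_apply₂₁, Matrix.fromBlocks_apply₂₂, Matrix.zero_apply,
        zero_mul, Finset.sum_const_zero, zero_add, Matrix.one_apply, ite_mul, one_mul]
      rw [Finset.sum_ite_eq Finset.univ r, if_pos (Finset.mem_univ _)]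
      rcases r with i | u <;> rfl
  rw [h1, Matrix.det_mul, hP, Matrix.det_fromBlocks_zero₁₂, Matrix.det_one, one_mul,
    Matrix.det_fromBlocks_zero₂₁, Matrix.det_one, one_mul, Matrix.det_fromBlocks_zero₂₁,
    Matrix.det_one, mul_one]

/-- The determinant does not change if multiples of the vertical derivations are added. -/
theorem det_add_vert {D' : A → (Fin (n + 1) →₀ ℕ) → Derivation ℤ K K}
    {c : A → (Fin (n + 1) →₀ ℕ) → Y → K}
    (hD' : ∀ a I f, D' a I f = D a I f + ∑ ξ, c a I ξ * E ξ f)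
    (κ : U → Fin R × Fin (n + 1) → K)
    (p : Matrix (Fin R) (Fin (n + 1)) K) (e : Fin R → Fin (n + 1))
    (σ : Ri R d Y τ U ≃ Fin R × Fin (n + 1)) :
    (rmx d D' E t κ p e σ).det = (rmx d D E t κ p e σ).det := by
  obtain ⟨P, hP⟩ : ∃ P : Matrix (Ri R d Y τ U) (Ri R d Y τ U) K,
    P = Matrix.fromBlocks 1 0 0 (Matrix.fromBlocks 1
      (Matrix.fromCols (Matrix.of fun x ξ => c x.1 (x.2.1.mapDomain e) ξ) 0) 0
      (Matrix.fromBlocks 1 0 (Matrix.fromRows (Matrix.of fun i ξ =>
        if (t i).2.1.degree + 1 = d (t i).1 then ∑ k, ct p (t i).2.2 k *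
          c (t i).1 ((t i).2.1 + Finsupp.single ((t i).2.2 k) 1) ξ else 0) 0) 1)) :=
    ⟨_, rfl⟩
  have h1 : rmx d D' E t κ p e σ = P * rmx d D E t κ p e σ := by
    ext r z
    rw [Matrix.mul_apply, Fintype.sum_sum_type, hP]
    rcases r with s | x | ξ | i | u
    · simp only [Matrix.fromBlocks_apply₁₁, Matrix.fromBlocks_apply₁₂, Matrix.zero_apply,
        zero_mul, Finset.sum_const_zero, add_zero, Matrix.one_apply, ite_mul, one_mul]
      rw [Finset.sum_ite_eq Finset.univ s, if_pos (Finset.mem_univ _)]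
      rfl
    · rw [Fintype.sum_sum_type, Fintype.sum_sum_type]
      simp only [Matrix.fromBlocks_apply₂₁, Matrix.fromBlocks_apply₂₂,
        Matrix.fromBlocks_apply₁₁, Matrix.fromBlocks_apply₁₂, Matrix.zero_apply,
        Matrix.fromCols_apply_inl, Matrix.fromCols_apply_inr, Matrix.of_apply,
        zero_mul, Finset.sum_const_zero, zero_add, add_zero, Matrix.one_apply, ite_mul, one_mul]
      rw [Finset.sum_ite_eq Finset.univ x, if_pos (Finset.mem_univ _)]
      simp only [rmx, Matrix.of_apply, row, dv]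
      exact hD' _ _ _
    · rw [Fintype.sum_sum_type, Fintype.sum_sum_type]
      simp only [Matrix.fromBlocks_apply₂₁, Matrix.fromBlocks_apply₂₂,
        Matrix.fromBlocks_apply₁₁, Matrix.fromBlocks_apply₁₂, Matrix.zero_apply,
        zero_mul, Finset.sum_const_zero, zero_add, add_zero, Matrix.one_apply, ite_mul, one_mul]
      rw [Finset.sum_ite_eq Finset.univ ξ, if_pos (Finset.mem_univ _)]
      rfl
    · rw [Fintype.sum_sum_type, Fintype.sum_sum_type]
      simp only [Matrix.fromBlocks_apply₂₁, Matrix.fromBlocks_apply₂₂, Matrix.zero_apply,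
        Matrix.fromRows_apply_inl, Matrix.of_apply,
        zero_mul, Finset.sum_const_zero, zero_add, Matrix.one_apply, ite_mul, one_mul]
      rw [Finset.sum_ite_eq Finset.univ (Sum.inl i), if_pos (Finset.mem_univ _)]
      simp only [rmx, Matrix.of_apply, row, tv]
      split_ifs
      · simp only [Finset.sum_apply, Pi.smul_apply, smul_eq_mul, dv, hD', mul_add,
          Finset.sum_add_distrib, Finset.mul_sum, Finset.sum_mul]
        rw [add_comm, Finset.sum_comm]
        congr 1
        refine Finset.sum_congr rfl fun ξ _ => Finset.sum_congr rfl fun k _ => ?_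
        ring
      · simp
    · rw [Fintype.sum_sum_type, Fintype.sum_sum_type]
      simp only [Matrix.fromBlocks_apply₂₁, Matrix.fromBlocks_apply₂₂, Matrix.zero_apply,
        Matrix.fromRows_apply_inr,
        zero_mul, Finset.sum_const_zero, zero_add, Matrix.one_apply, ite_mul, one_mul]
      rw [Finset.sum_ite_eq Finset.univ (Sum.inr u), if_pos (Finset.mem_univ _)]
      rfl
  rw [h1, Matrix.det_mul, hP, Matrix.det_fromBlocks_zero₁₂, Matrix.det_one, one_mul,
    Matrix.det_fromBlocks_zero₂₁, Matrix.det_one, one_mul, Matrix.det_fromBlocks_zero₁₂,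
    Matrix.det_one, Matrix.det_one, one_mul, one_mul]

end Pool.Agent.V7H50.FS
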