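import Pool.Agent.V7H50.FS.Det
import Pool.Agent.V7H76.MP.Rank

/-!
Orders of the determinants, and the space of the tangent vectors.
-/

set_option autoImplicit false

open MvPolynomial FF Pool.Agent.W603.LV Pool.Agent.W603.PV Pool.Agent.TH145.GH
open Pool.Agent.W602.GT Pool.Agent.TH145.MG
open Pool.Agent.TH145.GC (ge_det der_zero_of_alg)
open Pool.Agent.V7H76.MP (MH mdeg DualE Data noE)

namespace Pool.Agent.V7H50.FS

/-- The number of the minors, minus one. -/
def nM (n R : ℕ) : ℕ := Fintype.card (Fin R → Fin (n + 1)) - 1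

theorem nM_add (n R : ℕ) : Fintype.card (Fin R → Fin (n + 1)) = nM n R + 1 := by
  have : 0 < Fintype.card (Fin R → Fin (n + 1)) := Fintype.card_pos
  unfold nM
  omega

/-- An enumeration of the minors. -/
noncomputable def en (n R : ℕ) : (Fin R → Fin (n + 1)) ≃ Fin (nM n R + 1) :=
  Fintype.equivFinOfCardEq (nM_add n R)

section place

variable {k K : Type} [Field k] [Field K] [Algebra k K] {n R : ℕ}

/-- The vector of the minors. -/
noncomputable def pl (p : Matrix (Fin R) (Fin (n + 1)) K) : Fin (nM n R + 1) → K :=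
  fun j => mi p ((en n R).symm j)

theorem pl_en (p : Matrix (Fin R) (Fin (n + 1)) K) (T : Fin R → Fin (n + 1)) :
    pl p (en n R T) = mi p T := by
  unfold pl
  rw [Equiv.symm_apply_apply]

theorem mi_one {p : Matrix (Fin R) (Fin (n + 1)) K} {e : Fin R → Fin (n + 1)}
    (hp : p.submatrix id e = 1) : mi p e = 1 := by
  unfold mi
  rw [hp, Matrix.det_one]

/-- The entries of the matrix as minors. -/
theorem inv_mul_apply (h : Matrix (Fin R) (Fin R) K) (hh : h.det ≠ 0)
    {p : Matrix (Fin R) (Fin (n + 1)) K} {e : Fin R → Fin (n + 1)} (hp : p.submatrix id e = h)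
    (i : Fin R) (l : Fin (n + 1)) :
    h.det * (h⁻¹ * p) i l = mi p (Function.update e i l) := by
  have h1 := Matrix.det_smul_inv_mulVec_eq_cramer h (fun k => p k l) (isUnit_iff_ne_zero.2 hh)
  have h2 := congrFun h1 i
  rw [Pi.smul_apply, smul_eq_mul, Matrix.cramer_apply] at h2
  have h3 : h.updateCol i (fun k => p k l) = p.submatrix id (Function.update e i l) := by
    ext a b
    rw [Matrix.submatrix_apply, Matrix.updateCol_apply]
    by_cases hb : b = i
    · rw [if_pos hb, hb, Function.update_self]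
      rfl
    · rw [if_neg hb, Function.update_of_ne hb, ← hp]
      rfl
  rw [h3] at h2
  unfold mi
  rw [← h2]
  rfl

theorem entry_eq {p : Matrix (Fin R) (Fin (n + 1)) K} {e : Fin R → Fin (n + 1)}
    (hp : p.submatrix id e = 1) (i : Fin R) (l : Fin (n + 1)) :
    p i l = mi p (Function.update e i l) := by
  have h1 := inv_mul_apply 1 (by rw [Matrix.det_one]; exact one_ne_zero) hp i l
  rw [Matrix.det_one, one_mul, inv_one, Matrix.one_mul] at h1
  exact h1

/-- Scaling of a matrix at a place. -/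
theorem exists_scaledP (P : Place k K) {p : Matrix (Fin R) (Fin (n + 1)) K}
    {e0 : Fin R → Fin (n + 1)} (hp : p.submatrix id e0 = 1) :
    ∃ (h : Matrix (Fin R) (Fin R) K) (p' : Matrix (Fin R) (Fin (n + 1)) K)
      (e1 : Fin R → Fin (n + 1)), h.det ≠ 0 ∧ P.ord h.det = pord P (pl p) ∧ p = h * p' ∧
      (∀ i l, Ge P 0 (p' i l)) ∧ p.submatrix id e1 = h ∧ ∀ i j, Ge P 0 (h⁻¹ i j) := by
  obtain ⟨j, hj, hjP⟩ := exists_pord P (f := pl p) ⟨en n R e0, by
    rw [pl_en, mi_one hp]
    exact one_ne_zero⟩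
  obtain ⟨e1, he1⟩ : ∃ e1, e1 = (en n R).symm j := ⟨_, rfl⟩
  have hpl : pl p j = mi p e1 := by
    unfold pl
    rw [he1]
  rw [hpl] at hj hjP
  obtain ⟨h, hh⟩ : ∃ h, h = p.submatrix id e1 := ⟨_, rfl⟩
  have hd : h.det = mi p e1 := by rw [hh]; rfl
  have hd0 : h.det ≠ 0 := by rwa [hd]
  have hu : IsUnit h.det := isUnit_iff_ne_zero.2 hd0
  have hreg : ∀ i l, Ge P 0 ((h⁻¹ * p) i l) := by
    intro i l
    have h1 := inv_mul_apply h hd0 hh.symm i l
    refine Ge.of_mul' (N := 0) hd0 rfl ?_
    rw [zero_add, h1, hd, hjP]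
    have h2 := ge_pord P (pl p) (en n R (Function.update e1 i l))
    rwa [pl_en] at h2
  refine ⟨h, h⁻¹ * p, e1, hd0, by rw [hd, hjP], ?_, hreg, hh.symm, fun i j => ?_⟩
  · rw [← Matrix.mul_assoc, Matrix.mul_nonsing_inv _ hu, Matrix.one_mul]
  · have h1 := hreg i (e0 j)
    have h2 : (h⁻¹ * p) i (e0 j) = h⁻¹ i j := by
      have h3 : (h⁻¹ * p).submatrix id e0 = h⁻¹ * p.submatrix id e0 := rfl
      rw [hp, Matrix.mul_one] at h3
      exact congrFun (congrFun h3 i) j
    rwa [h2] at h1

variable [CharZero K] {A Y τ U : Type} {d : A → ℕ}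
  {D : A → (Fin (n + 1) →₀ ℕ) → Derivation ℤ K K} {E : Y → Derivation ℤ K K} {t : τ → Ti n R A}
  [Fintype A] [DecidableEq A] [Fintype Y] [DecidableEq Y] [Fintype τ] [DecidableEq τ]
  [Fintype U] [DecidableEq U]

/-- The order of the determinant. -/
theorem ord_theta (P : Place k K) (i0 : Fin R) (κ : U → Fin R × Fin (n + 1) → K)
    {p : Matrix (Fin R) (Fin (n + 1)) K}
    {e0 : Fin R → Fin (n + 1)} (hp : p.submatrix id e0 = 1)
    (hspan : ∀ i, tv d D p i ∈ Submodule.span K (Set.range (wv d D E t p)))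
    (σ : Ri R d Y τ U ≃ Fin R × Fin (n + 1)) (hdet : (rmx d D E t κ p e0 σ).det ≠ 0) {B : ℤ}
    (hB : ∀ (p' : Matrix (Fin R) (Fin (n + 1)) K) (h' : Matrix (Fin R) (Fin R) K)
      (e1 : Fin R → Fin (n + 1)), (∀ i l, Ge P 0 (p' i l)) → (∀ i j, Ge P 0 (h' i j)) →
      (rmx d D E t (fun u => act h' (κ u)) p' e1 σ).det ≠ 0 →
      B ≤ P.ord (rmx d D E t (fun u => act h' (κ u)) p' e1 σ).det) :
    ((n : ℤ) + 1 + Fintype.card τ - (∑ a, nn R (d a) i0 : ℕ)) * pord P (pl p) + B ≤
      P.ord (rmx d D E t κ p e0 σ).det := by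
  obtain ⟨h, p', e1, hh, hho, hpp, hp', hpe, hhi⟩ := exists_scaledP P hp
  have h1 := det_chart κ hp hspan e1 σ
  rw [hpe, det_symB d h hh i0] at h1
  have h2 := det_scale (d := d) (D := D) (E := E) (t := t) κ h hh p' e1 σ
  rw [← hpp] at h2
  rw [h2] at h1
  have hdet' : (rmx d D E t (fun u => act h⁻¹ (κ u)) p' e1 σ).det ≠ 0 := by
    intro h0
    rw [h0, mul_zero] at h1
    exact mul_ne_zero (pow_ne_zero _ hh) hdet h1.symm
  have h3 := hB p' h⁻¹ e1 hp' hhi hdet'
  have h4 := congrArg P.ord h1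
  rw [P.ord_mul (pow_ne_zero _ hh) hdet', P.ord_mul (pow_ne_zero _ hh) hdet, P.ord_pow,
    P.ord_pow, hho] at h4
  push_cast at h4 ⊢
  linarith

omit [CharZero K] in
theorem ge_mi (P : Place k K) {p : Matrix (Fin R) (Fin (n + 1)) K}
    (hp : ∀ i l, Ge P 0 (p i l)) (T : Fin R → Fin (n + 1)) : Ge P 0 (mi p T) := by
  have h1 := ge_det P (p.submatrix id T) (c := 0) fun i j => by
    rw [neg_zero]
    exact hp _ _
  rw [mul_zero, neg_zero] at h1
  exact h1

omit [CharZero K] in
theorem ge_ct (P : Place k K) {p : Matrix (Fin R) (Fin (n + 1)) K}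
    (hp : ∀ i l, Ge P 0 (p i l)) (T : Fin (R + 1) → Fin (n + 1)) (i : Fin (R + 1)) :
    Ge P 0 (ct p T i) := by
  unfold ct
  rcases neg_one_pow_eq_or K (i : ℕ) with h | h
  · rw [h, one_mul]
    exact ge_mi P hp _
  · rw [h, neg_one_mul]
    exact (ge_mi P hp _).neg

omit [CharZero K] [Fintype A] [DecidableEq A] [Fintype Y] [DecidableEq Y] [Fintype τ]
  [DecidableEq τ] [Fintype U] [DecidableEq U] in
/-- The orders of the entries. -/
theorem ge_row (P : Place k K) {c : ℤ} (hc : 0 ≤ c)
    (hD : ∀ a I, I.degree = d a → ∀ f, Ge P 0 f → Ge P (-c) (D a I f))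
    (hE : ∀ ξ f, Ge P 0 f → Ge P (-c) (E ξ f)) (s : U → Fin R × Fin (n + 1))
    {p : Matrix (Fin R) (Fin (n + 1)) K} {h : Matrix (Fin R) (Fin R) K}
    (hp : ∀ i l, Ge P 0 (p i l)) (hh : ∀ i j, Ge P 0 (h i j)) (e : Fin R → Fin (n + 1))
    (r : Ri R d Y τ U) (z : Fin R × Fin (n + 1)) :
    Ge P (-c) (row d D E t (fun u => act h (Pi.single (s u) 1)) p e r z) := by
  classical
  have hc' : -c ≤ 0 := by omega
  rcases r with x | x | ξ | i | u
  · simp only [row, vG]
    refine Ge.mono hc' ?_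
    rw [Matrix.mul_apply]
    refine Ge.sum _ _ fun j _ => ?_
    rw [Matrix.single_apply]
    split_ifs
    · rw [one_mul]
      exact hp _ _
    · rw [zero_mul]
      exact Ge.zero
  · simp only [row, dv]
    exact hD _ _ (by rw [degree_mapDomain, x.2.2]) _ (hp _ _)
  · simp only [row, dv]
    exact hE _ _ (hp _ _)
  · simp only [row, tv]
    split_ifs with ht
    · rw [Finset.sum_apply]
      refine Ge.sum _ _ fun j _ => ?_
      rw [Pi.smul_apply, smul_eq_mul]
      have h1 := (ge_ct P hp (t i).2.2 j).mul (hD (t i).1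
        ((t i).2.1 + Finsupp.single ((t i).2.2 j) 1) (by
          rw [map_add, Finsupp.degree_single, ht]) _ (hp z.1 z.2))
      rw [zero_add] at h1
      exact h1
    · exact Ge.zero
  · simp only [row, act]
    refine Ge.mono hc' (Ge.sum _ _ fun j _ => ?_)
    rw [Pi.single_apply]
    split_ifs
    · rw [mul_one]
      exact hh _ _
    · rw [mul_zero]
      exact Ge.zero

end place

section tan

/-- The field generated by the ratios of the maximal minors. -/
def coordsG (k : Type) {K : Type} [Field k] [Field K] [Algebra k K] {n R : ℕ}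
    (p : Matrix (Fin R) (Fin (n + 1)) K) : IntermediateField k K :=
  IntermediateField.adjoin k {z | ∃ T T' : Fin R → Fin (n + 1), (p.submatrix id T').det ≠ 0 ∧
    z = (p.submatrix id T).det / (p.submatrix id T').det}

variable {k0 L : Type} [Field k0] [Field L] [Algebra k0 L] {n R : ℕ}

theorem coordsG_eq {p : Matrix (Fin R) (Fin (n + 1)) L} {e0 : Fin R → Fin (n + 1)}
    (hp : p.submatrix id e0 = 1) :
    coordsG k0 p = IntermediateField.adjoin k0 (Set.range fun s : Fin R × Fin (n + 1) =>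
      p s.1 s.2) := by
  apply le_antisymm
  · unfold coordsG
    rw [IntermediateField.adjoin_le_iff]
    rintro z ⟨T, T', -, rfl⟩
    have h1 : ∀ T : Fin R → Fin (n + 1), (p.submatrix id T).det ∈
        IntermediateField.adjoin k0 (Set.range fun s : Fin R × Fin (n + 1) => p s.1 s.2) := by
      intro T
      rw [Matrix.det_apply]
      refine sum_mem fun σ _ => ?_
      have h2 : ∏ i, p.submatrix id T (σ i) i ∈
          IntermediateField.adjoin k0 (Set.range fun s : Fin R × Fin (n + 1) => p s.1 s.2) :=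
        prod_mem fun i _ => IntermediateField.subset_adjoin _ _ ⟨(σ i, T i), rfl⟩
      rcases Int.units_eq_one_or (Equiv.Perm.sign σ) with h | h
      · rw [h, one_smul]; exact h2
      · rw [h, Units.neg_smul, one_smul]; exact neg_mem h2
    exact div_mem (h1 T) (h1 T')
  · rw [IntermediateField.adjoin_le_iff]
    rintro _ ⟨s, rfl⟩
    refine IntermediateField.subset_adjoin _ _ ⟨Function.update e0 s.1 s.2, e0, ?_, ?_⟩
    · rw [hp, Matrix.det_one]; exact one_ne_zero
    · rw [hp, Matrix.det_one, div_one]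
      exact entry_eq hp s.1 s.2

/-- The space of the tangent vectors. -/
def TanP (k0 : Type) {L : Type} [Field k0] [Field L] [Algebra k0 L] {n R : ℕ}
    (p : Matrix (Fin R) (Fin (n + 1)) L) : Submodule L (Fin R × Fin (n + 1) → L) where
  carrier := {z | ∃ (G : Matrix (Fin R) (Fin R) L) (E : Derivation ℤ L L),
    (∀ r : k0, E (algebraMap k0 L r) = 0) ∧ z = vG G p + dv E p}
  add_mem' := by
    rintro y z ⟨G, E, hE, rfl⟩ ⟨G', E', hE', rfl⟩
    refine ⟨G + G', E + E', fun r => by rw [Derivation.add_apply, hE, hE', add_zero], ?_⟩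
    rw [vG_add]
    funext s
    simp only [Pi.add_apply, dv, Derivation.add_apply]
    ring
  zero_mem' := by
    refine ⟨0, 0, fun _ => rfl, ?_⟩
    rw [vG_zero]
    funext s
    simp [dv]
  smul_mem' := by
    rintro c z ⟨G, E, hE, rfl⟩
    refine ⟨c • G, c • E, fun r => by rw [Derivation.smul_apply, hE, smul_zero], ?_⟩
    rw [vG_smul]
    funext s
    simp only [Pi.add_apply, Pi.smul_apply, dv, Derivation.smul_apply, smul_eq_mul]
    ring

theorem vG_mem (G : Matrix (Fin R) (Fin R) L) (p : Matrix (Fin R) (Fin (n + 1)) L) :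
    vG G p ∈ TanP k0 p := by
  refine ⟨G, 0, fun _ => rfl, ?_⟩
  funext s
  simp [dv]

theorem dv_mem {E : Derivation ℤ L L} (hE : ∀ r : k0, E (algebraMap k0 L r) = 0)
    (p : Matrix (Fin R) (Fin (n + 1)) L) : dv E p ∈ TanP k0 p := by
  refine ⟨0, E, hE, ?_⟩
  rw [vG_zero, zero_add]

theorem tv_mem {A : Type} {d : A → ℕ} {D : A → (Fin (n + 1) →₀ ℕ) → Derivation ℤ L L}
    (hD : ∀ a I (r : k0), D a I (algebraMap k0 L r) = 0)
    (p : Matrix (Fin R) (Fin (n + 1)) L) (t : Ti n R A) : tv d D p t ∈ TanP k0 p := by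
  unfold tv
  split_ifs
  · exact sum_mem fun k _ => Submodule.smul_mem _ _ (dv_mem (hD _ _) p)
  · exact zero_mem _

/-- The dimension of the space of the tangent vectors. -/
theorem tan_rank [CharZero L] {p : Matrix (Fin R) (Fin (n + 1)) L} {e0 : Fin R → Fin (n + 1)}
    (i0 : Fin R) (hp : p.submatrix id e0 = 1) {m : ℕ}
    (h : Algebra.trdeg k0 (coordsG k0 p) ≤ m) :
    Module.finrank L (TanP k0 p) ≤ m + R * R := by
  classical
  obtain ⟨N, hN⟩ : ∃ N, Fintype.card (Fin R × Fin (n + 1)) = N + 1 := by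
    have : 0 < Fintype.card (Fin R × Fin (n + 1)) := Fintype.card_pos_iff.2 ⟨(i0, 0)⟩
    exact ⟨_, (Nat.succ_pred_eq_of_pos this).symm⟩
  obtain ⟨φ⟩ : Nonempty ((Fin R × Fin (n + 1)) ≃ Fin (N + 1)) :=
    ⟨Fintype.equivFinOfCardEq hN⟩
  obtain ⟨x, hx⟩ : ∃ x : Fin (N + 1) → L, ∀ j, x j = p (φ.symm j).1 (φ.symm j).2 :=
    ⟨_, fun _ => rfl⟩
  have hpe : ∀ i j, p i (e0 j) = if i = j then 1 else 0 := by
    intro i j
    have h1 := congrFun (congrFun hp i) j
    rw [Matrix.submatrix_apply, Matrix.one_apply] at h1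
    exact h1
  have hx1 : x (φ (i0, e0 i0)) = 1 := by
    rw [hx, Equiv.symm_apply_apply, hpe, if_pos rfl]
  have hco : coords k0 x ≤ coordsG k0 p := by
    rw [coordsG_eq hp]
    unfold coords
    rw [IntermediateField.adjoin_le_iff]
    rintro z ⟨i, j, -, rfl⟩
    rw [hx, hx]
    exact div_mem (IntermediateField.subset_adjoin _ _ ⟨φ.symm i, rfl⟩)
      (IntermediateField.subset_adjoin _ _ ⟨φ.symm j, rfl⟩)
  have h' : Algebra.trdeg k0 (coords k0 x) ≤ m :=
    (trdeg_le_of_injective (IntermediateField.inclusion hco)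
      (IntermediateField.inclusion_injective hco)).trans h
  obtain ⟨I, hI, hIx⟩ := exists_basis x _ hx1 h'
  obtain ⟨B, hB⟩ : ∃ B : Finset (Fin R × Fin (n + 1)), B = I.image φ.symm ∪
    Finset.univ.image fun s : Fin R × Fin R => (s.1, e0 s.2) := ⟨_, rfl⟩
  obtain ⟨ρ, hρ⟩ : ∃ ρ : TanP k0 p →ₗ[L] ({i // i ∈ B} → L), ∀ z i, ρ z i = z.1 i.1 :=
    ⟨{ toFun := fun z i => z.1 i.1
       map_add' := fun _ _ => rfl
       map_smul' := fun _ _ => rfl }, fun _ _ => rfl⟩
  have hinj : Function.Injective ρ := by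
    rw [← LinearMap.ker_eq_bot, LinearMap.ker_eq_bot']
    rintro ⟨z, G, E, hE, hz⟩ h0
    have h1 : ∀ i ∈ B, z i = 0 := fun i hi => by
      have := congrFun h0 ⟨i, hi⟩
      rw [hρ] at this
      exact this
    have hG : G = 0 := by
      ext i j
      have h2 := h1 (i, e0 j) (by
        rw [hB]
        exact Finset.mem_union_right _ (Finset.mem_image.2 ⟨(i, j), Finset.mem_univ _, rfl⟩))
      rw [hz, Pi.add_apply] at h2
      simp only [dv, vG] at h2
      have h3 : E (p i (e0 j)) = 0 := by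
        rw [hpe]
        split_ifs
        · exact E.map_one_eq_zero
        · exact map_zero _
      rw [h3, add_zero, Matrix.mul_apply, Finset.sum_eq_single j] at h2
      · rw [hpe, if_pos rfl, mul_one] at h2
        rw [h2]
        rfl
      · intro k _ hk
        rw [hpe, if_neg hk, mul_zero]
      · intro h; exact absurd (Finset.mem_univ _) h
    rw [hG, vG_zero, zero_add] at hz
    have hEI : ∀ i ∈ I, E (x i) = 0 := fun i hi => by
      have h2 := h1 (φ.symm i) (by
        rw [hB]
        exact Finset.mem_union_left _ (Finset.mem_image_of_mem _ hi))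
      rw [hz] at h2
      rw [hx]
      exact h2
    -- the field of the constants
    have hZ : ∀ w ∈ Subfield.closure (Set.range (algebraMap k0 L) ∪ x '' (I : Set (Fin (N + 1)))),
        E w = 0 := by
      intro w hw
      induction hw using Subfield.closure_induction with
      | mem w hw =>
        rcases hw with ⟨r, rfl⟩ | ⟨i, hi, rfl⟩
        · exact hE r
        · exact hEI i hi
      | one => exact E.map_one_eq_zero
      | add a b _ _ ha hb => rw [map_add, ha, hb, add_zero]
      | neg a _ ha => rw [map_neg, ha, neg_zero]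
      | inv a _ ha => rw [Derivation.leibniz_inv, ha, smul_zero]
      | mul a b _ _ ha hb => rw [E.leibniz, ha, hb, smul_zero, smul_zero, add_zero]
    have hxE : ∀ i, E (x i) = 0 := by
      intro i
      refine der_zero_of_alg E _ hZ ?_
      have h2 := mem_cl.1 (hIx i)
      have h3 : (IntermediateField.adjoin k0 (x '' (I : Set (Fin (N + 1))))).toSubfield =
        Subfield.closure (Set.range (algebraMap k0 L) ∪ x '' (I : Set (Fin (N + 1)))) :=
        IntermediateField.adjoin_toSubfield _ _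
      rw [← h3]
      exact h2
    apply Subtype.ext
    funext l
    change z l = 0
    have h2 := hxE (φ l)
    rw [hx, Equiv.symm_apply_apply] at h2
    rw [hz]
    exact h2
  have h1 := LinearMap.finrank_le_finrank_of_injective hinj
  rw [Module.finrank_pi, Fintype.card_coe] at h1
  have h2 := Finset.card_union_le (I.image φ.symm)
    (Finset.univ.image fun s : Fin R × Fin R => (s.1, e0 s.2))
  have h3 : (Finset.univ.image fun s : Fin R × Fin R => (s.1, e0 s.2)).card ≤ R * R := by
    refine Finset.card_image_le.trans ?_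
    rw [Finset.card_univ, Fintype.card_prod, Fintype.card_fin]
  have h4 : (I.image φ.symm).card ≤ I.card := Finset.card_image_le
  rw [← hB] at h2
  omega

/-- The number of the tangent vector fields. -/
theorem count_le {A Y τ U : Type} [Fintype A] [Fintype Y] [Fintype τ] [Fintype U] {d : A → ℕ}
    {D : A → (Fin (n + 1) →₀ ℕ) → Derivation ℤ L L} {E : Y → Derivation ℤ L L}
    {t : τ → Ti n R A} {κ : U → Fin R × Fin (n + 1) → L}
    {p : Matrix (Fin R) (Fin (n + 1)) L} {e0 : Fin R → Fin (n + 1)}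
    (hind : LinearIndependent L (row d D E t κ p e0))
    (hD : ∀ a I (r : k0), D a I (algebraMap k0 L r) = 0)
    (hE : ∀ ξ (r : k0), E ξ (algebraMap k0 L r) = 0) {m : ℕ}
    (h : Module.finrank L (TanP k0 p) ≤ m + R * R) :
    ∑ a, Fintype.card (Ex R (d a)) + Fintype.card Y + Fintype.card τ ≤ m := by
  classical
  obtain ⟨f, hf⟩ : ∃ f : (Fin R × Fin R) ⊕ (Bi R d ⊕ (Y ⊕ τ)) → Ri R d Y τ U,
    f = Sum.map id (Sum.map id (Sum.map id Sum.inl)) := ⟨_, rfl⟩
  have hfi : Function.Injective f := by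
    rw [hf]
    exact Function.Injective.sumMap Function.injective_id
      (Function.Injective.sumMap Function.injective_id
        (Function.Injective.sumMap Function.injective_id Sum.inl_injective))
  have h1 := hind.comp f hfi
  have hmem : ∀ x, (row d D E t κ p e0 ∘ f) x ∈ TanP k0 p := by
    rintro (s | x | ξ | i) <;> rw [hf]
    · exact vG_mem _ _
    · exact dv_mem (hD _ _) _
    · exact dv_mem (hE _) _
    · exact tv_mem hD _ _
  have h2 : LinearIndependent L fun x => (⟨_, hmem x⟩ : TanP k0 p) := by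
    apply LinearIndependent.of_comp (TanP k0 p).subtype
    exact h1
  have h3 := h2.fintype_card_le_finrank
  rw [Fintype.card_sum, Fintype.card_sum, Fintype.card_sum, Fintype.card_prod,
    Fintype.card_fin, Fintype.card_sigma] at h3
  omega

end tan

end Pool.Agent.V7H50.FS
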