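import Pool.Agent.V7H50.FS.Lim
import Pool.Agent.V7H76.MP.Setup

/-!
Heights of points, and finiteness over a finitely generated field.
-/

set_option autoImplicit false

open MvPolynomial FF Pool.Agent.W603.LV Pool.Agent.W603.PV Pool.Agent.W602.RG
open Pool.Agent.TH145.GH
open Pool.Agent.V7H76.MP (MH mdeg DualE Data noE Gen exists_data_L Cf exists_all)

namespace Pool.Agent.V7H50.FS

section fin

variable {k0 K η : Type} [Field k0] [Field K] [Algebra k0 K] [IsAlgClosed K] [CharZero K]
  {y : η → K} (E : IntermediateField (IntermediateField.adjoin k0 (Set.range y)) K)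

/-- The heights of the points are bounded. -/
theorem heights {n r m : ℕ} {A : Type} [Fintype A] {d : A → ℕ}
    (hy : AlgebraicIndependent k0 y)
    [FiniteDimensional (IntermediateField.adjoin k0 (Set.range y)) E]
    {F : A → MvPolynomial (Fin (n + 1)) E.toSubfield}
    {DE : A → (Fin (n + 1) →₀ ℕ) → E.toSubfield → E.toSubfield}
    (hG : Gen (g1 n) F (dg1 d) DE)
    (D : A → (Fin (n + 1) →₀ ℕ) → Derivation ℤ K K)
    (hDE : ∀ a I (x : E.toSubfield), D a I x = (DE a I x : K))
    (hDk : ∀ a I (r : k0), D a I (algebraMap k0 K r) = 0)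
    (hDy : ∀ a I j, ∃ r : k0, D a I (y j) = algebraMap k0 K r)
    (hdim : n + m + 2 ≤ ∑ a, (d a + r + 1).choose (r + 1))
    {V : Set (MvPolynomial (Fin (r + 1) × Fin (n + 1)) k0)} (hV : DimV k0 V m)
    {e0 : Fin (r + 1) → Fin (n + 1)} (i : η) :
    ∃ B : ℤ, ∀ (x : Matrix (Fin (r + 1)) (Fin (n + 1)) K) (hx : ∀ i j, x i j ∈ E),
      x.submatrix id e0 = 1 → InV (algebraMap k0 K) V x →
      (∀ a, sub x (map E.toSubfield.subtype (F a)) = 0) →
      ∀ i' j, hgt (kap k0 y i) (⟨x i' j, subset_LL y _ i (hx i' j)⟩ :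
        LL k0 y (E : Set K) i) ≤ B := by
  classical
  have hFF : IsFF (kap k0 y i) (LL k0 y (E : Set K) i) := LL_ff E hy i
  have hac : IsAlgClosed (kap k0 y i) := acl_isAlgClosed _
  have hcz : CharZero (kap k0 y i) := charZero_of_injective_algebraMap
    (algebraMap ℚ (kap k0 y i)).injective
  obtain ⟨φ, D', e, hφ, hD', hdat⟩ := exists_data_L E hy hG D hDE hDk hDy i
  obtain ⟨H, hH⟩ : ∃ H : ℤ, H = max (∑ᶠ P, (((r + 1) * (n + 1) : ℕ) : ℤ) * e P) 0 := ⟨_, rfl⟩
  have hH0 : 0 ≤ H := by rw [hH]; exact le_max_right _ _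
  refine ⟨H, fun x hx hx0 hxV hxC i' j => ?_⟩
  obtain ⟨x', hx'⟩ : ∃ x' : Matrix (Fin (r + 1)) (Fin (n + 1)) (LL k0 y (E : Set K) i),
    ∀ i' j, x' i' j = ⟨x i' j, subset_LL y _ i (hx i' j)⟩ :=
    ⟨Matrix.of fun i' j => ⟨x i' j, subset_LL y _ i (hx i' j)⟩, fun _ _ => rfl⟩
  have hxx : x'.map (algebraMap (LL k0 y (E : Set K) i) K) = x := by
    ext i' j
    rw [Matrix.map_apply, hx']
    rfl
  have hx0' : x'.submatrix id e0 = 1 := by
    ext i' j'
    have h1 := entry_one hx0 i' j'
    rw [Matrix.submatrix_apply, hx', Matrix.one_apply]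
    change x i' (e0 j') = _
    rw [h1]
    split_ifs <;> rfl
  have hφ' : (algebraMap (LL k0 y (E : Set K) i) K).comp φ = E.toSubfield.subtype := by
    ext c
    exact hφ c
  have hxC' : ∀ a, sub x' (map φ (F a)) = 0 := by
    intro a
    apply sub_zero_of_map (algebraMap (LL k0 y (E : Set K) i) K)
    rw [hxx, map_map, hφ']
    exact hxC a
  have hczL : CharZero (LL k0 y (E : Set K) i) :=
    charZero_of_injective_algebraMap (algebraMap (kap k0 y i) _).injective
  let ψ : k0 →+* LL k0 y (E : Set K) i :=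
    { toFun := fun r => ⟨algebraMap k0 K r, subset_LL y _ i (k0_mem E r)⟩
      map_one' := Subtype.ext (map_one _)
      map_mul' := fun a b => Subtype.ext (map_mul _ a b)
      map_zero' := Subtype.ext (map_zero _)
      map_add' := fun a b => Subtype.ext (map_add _ a b) }
  let _ : Algebra k0 (LL k0 y (E : Set K) i) := ψ.toAlgebra
  have htr := hV (LL k0 y (E : Set K) i) x' (li_of_norm hx0') (by
    refine InV.of_map (algebraMap (LL k0 y (E : Set K) i) K) (χ := algebraMap k0 K) ?_ (by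
      rw [hxx]
      exact hxV)
    ext c
    rfl)
  have h1 : pht (kap k0 y i) (pl x') ≤ H := by
    rw [hH]
    refine (ineq hdat hdim hx0' (k0 := k0) (fun a I c => ?_) htr hxC').trans (le_max_left _ _)
    apply Subtype.ext
    rw [hD']
    exact hDk a I c
  rw [← hx']
  by_cases hj : x' i' j = 0
  · rw [hj]
    have := Pool.Agent.TH145.MG.hgt_const (k := kap k0 y i) (L := LL k0 y (E : Set K) i) 0
    rw [map_zero] at this
    rw [this]
    exact hH0
  · have h2 := Pool.Agent.W603.CX.hgt_le_pht (k := kap k0 y i) (pl x')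
      (j := en n (r + 1) (Function.update e0 i' j)) (l := en n (r + 1) e0) (by
        rw [pl_en, ← entry_eq hx0']; exact hj) (by rw [pl_en, mi_one hx0']; exact one_ne_zero)
    rw [pl_en, pl_en, mi_one hx0', ← entry_eq hx0', div_one] at h2
    exact h2.trans h1

/-- Finiteness of the points. -/
theorem fin_all {n r m : ℕ} {A : Type} [Fintype A] {d : A → ℕ} [IsAlgClosed k0] [Finite η]
    (hy : IsTranscendenceBasis k0 y)
    [FiniteDimensional (IntermediateField.adjoin k0 (Set.range y)) E]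
    [IsGalois (IntermediateField.adjoin k0 (Set.range y)) E]
    {F : A → MvPolynomial (Fin (n + 1)) E.toSubfield}
    {DE : A → (Fin (n + 1) →₀ ℕ) → E.toSubfield → E.toSubfield}
    (hG : Gen (g1 n) F (dg1 d) DE)
    (D : A → (Fin (n + 1) →₀ ℕ) → Derivation ℤ K K)
    (hDE : ∀ a I (x : E.toSubfield), D a I x = (DE a I x : K))
    (hDk : ∀ a I (r : k0), D a I (algebraMap k0 K r) = 0)
    (hDy : ∀ a I j, ∃ r : k0, D a I (y j) = algebraMap k0 K r)
    (hdim : n + m + 2 ≤ ∑ a, (d a + r + 1).choose (r + 1))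
    {V : Set (MvPolynomial (Fin (r + 1) × Fin (n + 1)) k0)} (hV : DimV k0 V m)
    (e0 : Fin (r + 1) → Fin (n + 1)) :
    {x : Matrix (Fin (r + 1)) (Fin (n + 1)) K | (∀ i j, x i j ∈ E) ∧ x.submatrix id e0 = 1 ∧
      InV (algebraMap k0 K) V x ∧
      (∀ a, sub x (map E.toSubfield.subtype (F a)) = 0)}.Finite := by
  by_contra hinf
  let f := Set.Infinite.natEmbedding _ hinf
  obtain ⟨x, hx⟩ : ∃ x : ℕ → Matrix (Fin (r + 1)) (Fin (n + 1)) K, ∀ n, x n = (f n).1 :=
    ⟨_, fun _ => rfl⟩
  have hxinj : Function.Injective fun (m : ℕ) (s : Fin (r + 1) × Fin (n + 1)) =>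
      x m s.1 s.2 := by
    intro a b hab
    have h1 : x a = x b := by
      ext i j
      exact congrFun hab (i, j)
    rw [hx, hx] at h1
    exact f.injective (Subtype.ext h1)
  have hxE : ∀ n i j, x n i j ∈ E := fun n i j => by rw [hx]; exact (f n).2.1 i j
  have hxl : ∀ n, (x n).submatrix id e0 = 1 := fun n => by rw [hx]; exact (f n).2.2.1
  have hxV : ∀ n, InV (algebraMap k0 K) V (x n) := fun n => by
    rw [hx]; exact (f n).2.2.2.1
  have hxC : ∀ n a, sub (x n) (map E.toSubfield.subtype (F a)) = 0 := fun n => by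
    rw [hx]; exact (f n).2.2.2.2
  choose B hB using fun i => heights E hy.1 hG D hDE hDk hDy hdim hV (e0 := e0) i
  have hz : ∀ i j, (Matrix.of fun i j => Om.mk fun n => x n i j : Matrix (Fin (r + 1))
      (Fin (n + 1)) (Om K)) i j ∈ OE k0 ((E.toSubfield : Subfield K) : Set K) := fun i j =>
    lim_mem E hy (fun n => ⟨x n i j, hxE n i j⟩) B fun n i' =>
      hB i' (x n) (hxE n) (hxl n) (hxV n) (hxC n) i j
  have hczOm : CharZero (Om K) :=
    charZero_of_injective_algebraMap (algebraMap K (Om K)).injective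
  have hacl := limit E.toSubfield (fun r => k0_mem E r) hG D hDE hDk hdim hV
    (Matrix.of fun i j => Om.mk fun n => x n i j) hz (e0 := e0) (by
      ext i j
      rw [Matrix.submatrix_apply, Matrix.of_apply, Matrix.one_apply]
      have h1 : (fun n => x n (id i) (e0 j)) = fun _ => if i = j then 1 else 0 :=
        funext fun n => entry_one (hxl n) i j
      rw [h1]
      split_ifs <;> rfl) (inV_mk hxV) (fun a => sub_mk fun m => hxC m a)
  choose a ha using fun s : Fin (r + 1) × Fin (n + 1) => eventually_const (hacl s.1 s.2)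
  exact not_all_const hxinj a ha

end fin

/-- Finiteness of the points over a field generated by a finite set over `k0`. -/
theorem fin_points {k0 K : Type} [Field k0] [Field K] [Algebra k0 K] [IsAlgClosed K]
    [CharZero K] [IsAlgClosed k0] {n r m : ℕ} {A : Type} [Fintype A] {d : A → ℕ}
    (hdim : n + m + 2 ≤ ∑ a, (d a + r + 1).choose (r + 1))
    {V : Set (MvPolynomial (Fin (r + 1) × Fin (n + 1)) k0)} (hV : DimV k0 V m)
    {F : A → MvPolynomial (Fin (n + 1)) K} (hF : ∀ a, MH (g1 n) (F a) (dg1 d a))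
    (hind : AlgebraicIndependent k0 fun p : Cf (g1 n) (dg1 d) => (F p.1).coeff p.2.1)
    (T : Finset K) (e0 : Fin (r + 1) → Fin (n + 1)) :
    {x : Matrix (Fin (r + 1)) (Fin (n + 1)) K |
      (∀ i j, x i j ∈ IntermediateField.adjoin k0 (T : Set K)) ∧ x.submatrix id e0 = 1 ∧
      InV (algebraMap k0 K) V x ∧ (∀ a, sub x (F a) = 0)}.Finite := by
  classical
  obtain ⟨B, hB, K1, y, E, F1, DE, D, hK1, hc, hy, h1, h2, h3, h4, h5, h6, h7, h8⟩ :=
    exists_all hF hind T
  have : Finite B := hB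
  have h9 := fin_all E hy h3 D h4 h5 h6 hdim hV e0
  refine (h9.image fun x => x.map (algebraMap K1 K)).subset ?_
  rintro x ⟨hx, hxl, hxV, hxC⟩
  choose e he hex using fun i j => h8 (x i j) (hx i j)
  obtain ⟨x', hx'⟩ : ∃ x' : Matrix (Fin (r + 1)) (Fin (n + 1)) K1, ∀ i j, x' i j = e i j :=
    ⟨Matrix.of e, fun _ _ => rfl⟩
  have hex' : x'.map (algebraMap K1 K) = x := by
    ext i j
    rw [Matrix.map_apply, hx']
    exact hex i j
  refine ⟨x', ⟨fun i j => by rw [hx']; exact he i j, ?_, ?_, fun a => ?_⟩, hex'⟩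
  · ext i j
    have h10 := entry_one hxl i j
    rw [Matrix.submatrix_apply, hx', Matrix.one_apply]
    change (e i (e0 j) : K) = _
    rw [hex, h10]
    split_ifs <;> rfl
  · refine InV.of_map (algebraMap K1 K) (χ := algebraMap k0 K) ?_ (by rw [hex']; exact hxV)
    ext c
    rfl
  · apply sub_zero_of_map (algebraMap K1 K)
    rw [hex', map_map, h7]
    exact hxC a

end Pool.Agent.V7H50.FS
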