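import Pool.Agent.V7H50.FS.Main
import Pool.Agent.V7H76.MP.Main

/-!
Subvarieties of the varieties of linear spaces are of general type.
-/

set_option autoImplicit false

open MvPolynomial FF Pool.Agent.W603.LV Pool.Agent.W603.PV Pool.Agent.TH145.GH
open Pool.Agent.W602.GT
open Pool.Agent.TH145.GC (ge_det)
open Pool.Agent.TH145.GF (vE der_comb exists_coord_basis exists_lift)
open Pool.Agent.V7H76.MP (MH mdeg Rt DualE exists_dualM finite_mdeg)

namespace Pool.Agent.V7H50.FS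

section ord

variable {K L : Type} [Field K] [Field L] [Algebra K L] [CharZero K] {n R w : ℕ}
  {A τ U : Type} {d : A → ℕ} {D : A → (Fin (n + 1) →₀ ℕ) → Derivation ℤ L L}
  {t : τ → Ti n R A} [Fintype A] [DecidableEq A] [Fintype τ] [DecidableEq τ]
  [Fintype U] [DecidableEq U]

/-- The order of the determinant at a scaled point, at a divisorial place. -/
theorem ord_det_local (hw : 0 < w) (htr : Algebra.trdeg K L = w) {P : Place K L}
    (hP : Divisorial w P) (hS : ∀ a I, Sem K (D a I)) {s : Fin w → L}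
    (hs : IsTranscendenceBasis K s)
    {E : Fin w → Derivation K L L} (hEt : ∀ i j, E i (s j) = if i = j then 1 else 0)
    {Dd : Fin w → Derivation K L L} (hDd : ∀ i, DerReg P (Dd i))
    (hM : (Matrix.of fun i j => Dd i (s j)).det ≠ 0) (κ : U → Fin R × Fin (n + 1))
    {p : Matrix (Fin R) (Fin (n + 1)) L} (hp : ∀ i l, Ge P 0 (p i l))
    {h : Matrix (Fin R) (Fin R) L} (hh : ∀ i l, Ge P 0 (h i l)) (e : Fin R → Fin (n + 1))
    (σ : Ri R d (Fin w) τ U ≃ Fin R × Fin (n + 1))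
    (hdet : (rmx d D (vE E) t (fun u => act h (Pi.single (κ u) 1)) p e σ).det ≠ 0) :
    -P.ord (Matrix.of fun i j => Dd i (s j)).det ≤
      P.ord (rmx d D (vE E) t (fun u => act h (Pi.single (κ u) 1)) p e σ).det := by
  obtain ⟨M, hMd⟩ : ∃ M : Matrix (Fin w) (Fin w) L, M = Matrix.of fun i j => Dd i (s j) :=
    ⟨_, rfl⟩
  rw [← hMd] at hM ⊢
  have hDdE : ∀ i f, Dd i f = ∑ j, M i j * E j f := fun i f => by
    rw [der_comb hs hEt (Dd i) f, hMd]
    rfl
  choose ξ hξ using fun a I => exists_lift hw htr hP (hS a I)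
  obtain ⟨D', hD'⟩ : ∃ D' : A → (Fin (n + 1) →₀ ℕ) → Derivation ℤ L L, ∀ a I f,
    D' a I f = D a I f - ξ a I f :=
    ⟨fun a I => D a I - (ξ a I).restrictScalars ℤ, fun a I f => by simp⟩
  have hreg' : ∀ a I f, Ge P 0 f → Ge P 0 (D' a I f) := by
    intro a I f hf
    by_cases h0 : f = 0
    · rw [h0, map_zero]
      exact Ge.zero
    · rw [hD']
      exact (hξ a I f h0).mono (hf.resolve_left h0)
  have hregE : ∀ i f, Ge P 0 f → Ge P 0 (Dd i f) := fun i f hf => hDd i f hf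
  have hD'E : ∀ a I f, D' a I f = D a I f + ∑ j, (-(ξ a I (s j))) * vE E j f := fun a I f => by
    rw [hD', der_comb hs hEt (ξ a I) f, sub_eq_add_neg, ← Finset.sum_neg_distrib]
    congr 1
    exact Finset.sum_congr rfl fun j _ => (neg_mul _ _).symm
  have h1 := det_add_vert (d := d) (t := t) (D := D) (D' := D') (E := vE E)
    (c := fun a I j => -(ξ a I (s j))) hD'E (fun u => act h (Pi.single (κ u) 1)) p e σ
  have h2 := det_lin (d := d) (t := t) (D := D') (E := vE E) (E' := vE Dd) (M := M)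
      (fun i f => hDdE i f) (fun u => act h (Pi.single (κ u) 1)) p e σ
  rw [h1] at h2
  have h4 := ge_det P (rmx d D' (vE Dd) t (fun u => act h (Pi.single (κ u) 1)) p e σ) (c := 0)
    fun r j => ge_row P le_rfl (fun a I _ f hf => by
      rw [neg_zero]
      exact hreg' a I f hf) (fun i f hf => by
      rw [neg_zero]
      exact hregE i f hf) κ hp hh e r (σ j)
  rw [mul_zero, neg_zero, h2] at h4
  have h5 := h4.resolve_left (mul_ne_zero hM hdet)
  rw [P.ord_mul hM hdet] at h5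
  linarith

end ord

/-- The vector of the entries. -/
theorem exists_entry_basis {K L : Type} [Field K] [Field L] [Algebra K L] {n R w : ℕ}
    (htr : Algebra.trdeg K L = w) {p : Matrix (Fin R) (Fin (n + 1)) L}
    {e0 : Fin R → Fin (n + 1)} (i0 : Fin R) (hp : p.submatrix id e0 = 1)
    (hgen : Algebra.IsAlgebraic (coordsG K p) L) :
    ∃ l : Fin w → Fin R × Fin (n + 1), IsTranscendenceBasis K fun i => p (l i).1 (l i).2 := by
  obtain ⟨N, hN⟩ : ∃ N, Fintype.card (Fin R × Fin (n + 1)) = N + 1 := by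
    have : 0 < Fintype.card (Fin R × Fin (n + 1)) := Fintype.card_pos_iff.2 ⟨(i0, 0)⟩
    exact ⟨_, (Nat.succ_pred_eq_of_pos this).symm⟩
  obtain ⟨φ⟩ : Nonempty ((Fin R × Fin (n + 1)) ≃ Fin (N + 1)) :=
    ⟨Fintype.equivFinOfCardEq hN⟩
  obtain ⟨x, hx⟩ : ∃ x : Fin (N + 1) → L, ∀ j, x j = p (φ.symm j).1 (φ.symm j).2 :=
    ⟨_, fun _ => rfl⟩
  have hx1 : x (φ (i0, e0 i0)) = 1 := by
    rw [hx, Equiv.symm_apply_apply, entry_one hp, if_pos rfl]
  have h1 : coordsG K p ≤ coords K x := by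
    rw [coordsG_eq hp, IntermediateField.adjoin_le_iff]
    rintro _ ⟨s, rfl⟩
    refine IntermediateField.subset_adjoin _ _ ⟨φ s, φ (i0, e0 i0), ?_, ?_⟩
    · rw [hx1]; exact one_ne_zero
    · rw [hx1, div_one, hx, Equiv.symm_apply_apply]
  obtain ⟨l, hl⟩ := exists_coord_basis htr (x := x)
    ⟨fun z => Pool.Agent.TH145.MF.alg_mono (F1 := (coordsG K p).toSubfield)
      (F2 := (coords K x).toSubfield) (fun z hz => h1 hz) (hgen.isAlgebraic z)⟩
  refine ⟨fun i => φ.symm (l i), ?_⟩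
  have h2 : (fun i => p (φ.symm (l i)).1 (φ.symm (l i)).2) = fun i => x (l i) :=
    funext fun i => (hx _).symm
  rw [h2]
  exact hl

/-- Subvarieties of the varieties of linear spaces are of general type. -/
theorem general_norm {k0 K L : Type} [Field k0] [Field K] [Field L] [Algebra k0 K] [Algebra K L]
    [IsAlgClosed K] [CharZero K] {n r m w : ℕ} {A : Type} [Fintype A] {d : A → ℕ}
    {V : Set (MvPolynomial (Fin (r + 1) × Fin (n + 1)) k0)} (hV : DimV k0 V m)
    (F : A → MvPolynomial (Fin (n + 1)) K) (hF : ∀ a, MH (g1 n) (F a) (dg1 d a))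
    (I0 : A → Fin (n + 1) →₀ ℕ) (h0 : ∀ a, (F a).coeff (I0 a) ≠ 0)
    (hind : AlgebraicIndependent k0 fun p : Rt (g1 n) (dg1 d) I0 =>
      (F p.1).coeff p.2.1 / (F p.1).coeff (I0 p.1))
    (hw : 0 < w) (hdim : n + m + 2 ≤ ∑ a, (d a + r + 1).choose (r + 1) + w)
    (htr : Algebra.trdeg K L = w) (p : Matrix (Fin (r + 1)) (Fin (n + 1)) L)
    {e0 : Fin (r + 1) → Fin (n + 1)} (hp : p.submatrix id e0 = 1)
    (hgen : Algebra.IsAlgebraic (coordsG K p) L)
    (hpV : InV ((algebraMap K L).comp (algebraMap k0 K)) V p)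
    (hpF : ∀ a, sub p (map (algebraMap K L) (F a)) = 0) : GeneralType K L w := by
  classical
  let _ : Algebra k0 L := ((algebraMap K L).comp (algebraMap k0 K)).toAlgebra
  have hst : IsScalarTower k0 K L := IsScalarTower.of_algebraMap_eq fun _ => rfl
  have hL : CharZero L := charZero_of_injective_algebraMap (algebraMap K L).injective
  obtain ⟨l, hl⟩ := exists_entry_basis htr 0 hp hgen
  obtain ⟨s, hs⟩ : ∃ s : Fin w → L, ∀ i, s i = p (l i).1 (l i).2 := ⟨_, fun _ => rfl⟩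
  have hsb : IsTranscendenceBasis K s := by
    have : s = fun i => p (l i).1 (l i).2 := funext hs
    rw [this]
    exact hl
  -- the forms
  have hI0 : ∀ a, mdeg (g1 n) (I0 a) = dg1 d a := fun a => hF a _ (mem_support_iff.2 (h0 a))
  have hfin : ∀ a, Finite {I : Fin (n + 1) →₀ ℕ // mdeg (g1 n) I = dg1 d a} := fun a =>
    (finite_mdeg (g1 n) (dg1 d a)).to_subtype
  let _ : ∀ a, Fintype {I : Fin (n + 1) →₀ ℕ // mdeg (g1 n) I = dg1 d a} := fun a =>
    Fintype.ofFinite _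
  obtain ⟨cg, hcg⟩ : ∃ cg : ∀ a, {I : Fin (n + 1) →₀ ℕ // mdeg (g1 n) I = dg1 d a} → K, ∀ a j,
    cg a j = (F a).coeff j.1 / (F a).coeff (I0 a) := ⟨fun a j => _, fun _ _ => rfl⟩
  obtain ⟨G, hG⟩ : ∃ G : A → MvPolynomial (Fin (n + 1)) K, ∀ a, G a =
    ∑ j, C (cg a j) * map (algebraMap k0 K) (monomial j.1 1) := ⟨_, fun _ => rfl⟩
  have hGF : ∀ a, G a = C ((F a).coeff (I0 a))⁻¹ * F a := fun a => by
    obtain ⟨c, hc⟩ : ∃ c, c = (F a).coeff (I0 a) := ⟨_, rfl⟩
    have h1 : ∀ j, cg a j = c⁻¹ * (F a).coeff j.1 := fun j => by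
      rw [hcg, ← hc, div_eq_mul_inv, mul_comm]
    rw [← hc]
    conv_rhs => rw [(hF a).expand]
    rw [hG, Finset.mul_sum]
    refine Finset.sum_congr rfl fun j _ => ?_
    rw [← mul_assoc, ← C_mul, h1, MvPolynomial.map_monomial, RingHom.map_one]
  obtain ⟨D, ε, hD, hDS, hDk⟩ := exists_dualM (g := g1 n) hsb (dg := dg1 d)
    (J := fun a => {I : Fin (n + 1) →₀ ℕ // mdeg (g1 n) I = dg1 d a})
    (fun a j => monomial j.1 1) cg (fun a => ⟨I0 a, hI0 a⟩)
    (fun a => by rw [hcg, div_self (h0 a)]) (by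
      obtain ⟨f, hf⟩ : ∃ f : (Σ a, {j : {I : Fin (n + 1) →₀ ℕ // mdeg (g1 n) I = dg1 d a} //
          j ≠ ⟨I0 a, hI0 a⟩}) → Rt (g1 n) (dg1 d) I0, ∀ p, f p = ⟨p.1, ⟨p.2.1.1, p.2.1.2,
            fun h => p.2.2 (Subtype.ext h)⟩⟩ := ⟨_, fun _ => rfl⟩
      have hfi : Function.Injective f := by
        rintro ⟨a, ⟨⟨I, hI⟩, hI'⟩⟩ ⟨b, ⟨⟨J, hJ⟩, hJ'⟩⟩ h
        rw [hf, hf] at h
        have h4 : a = b := congrArg Sigma.fst h
        subst h4
        have h5 := congrArg Subtype.val (eq_of_heq (Sigma.mk.inj_iff.1 h).2)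
        have h6 : I = J := h5
        subst h6
        rfl
      have h1 := hind.comp f hfi
      have h2 : (fun p : (Σ a, {j : {I : Fin (n + 1) →₀ ℕ // mdeg (g1 n) I = dg1 d a} //
          j ≠ ⟨I0 a, hI0 a⟩}) => cg p.1 p.2.1) = (fun p : Rt (g1 n) (dg1 d) I0 =>
          (F p.1).coeff p.2.1 / (F p.1).coeff (I0 p.1)) ∘ f := by
        funext p
        rw [Function.comp_apply, hf, hcg]
      rw [h2]
      exact h1)
    (fun a I hI => ⟨⟨I, hI⟩, rfl⟩) hG
  obtain ⟨H, hH⟩ : ∃ H : A → MvPolynomial (Fin (n + 1)) L, H = fun a =>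
    map (algebraMap K L) (G a) := ⟨_, rfl⟩
  rw [← hH] at hD
  have hFK : ∀ (δ : Derivation K L L) a u, δ ((H a).coeff u) = 0 := fun δ a u => by
    rw [hH, coeff_map]
    exact δ.map_algebraMap _
  have hpC : ∀ a, sub p (H a) = 0 := by
    intro a
    rw [hH]
    dsimp only
    rw [hGF, map_mul, map_mul, hpF a, mul_zero]
  have htr' := hV L p (li_of_norm hp) hpV
  -- the vertical derivations
  obtain ⟨E, hE⟩ : ∃ E : Fin w → Derivation K L L, ∀ i j, E i (s j) = if i = j then 1 else 0 := by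
    obtain ⟨E, hE⟩ := exists_dual hsb
    refine ⟨E, fun i j => ?_⟩
    have := congrFun (congrFun hE i) j
    rw [Matrix.of_apply, Matrix.one_apply] at this
    rw [this]
  have hindep : LinearIndependent L (vt (vE E) p) := vt_ind hp l (fun i => by
      have h1 := hE i i
      rw [hs, if_pos rfl] at h1
      exact h1) (fun i j hij => by
      have h1 := hE i j
      rw [hs, if_neg hij] at h1
      exact h1)
  obtain ⟨τ, U, _, _, t, κ, hli, hcard, hspan⟩ := exists_rows (E := vE E) hD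
    (fun i a u => hFK (E i) a u) hp hpC hindep
  obtain ⟨σ⟩ := exists_sigma hcard
  have hdet := rmx_ne (Y := Fin w) σ hli
  have hT := count_le (k0 := k0) hli hDk (fun i c => by
    change E i (algebraMap k0 L c) = 0
    rw [IsScalarTower.algebraMap_apply k0 K L]
    exact (E i).map_algebraMap _) (tan_rank 0 hp htr')
  rw [Fintype.card_fin] at hT
  have hc : n + 2 + Fintype.card τ ≤ ∑ a, nn (r + 1) (d a) 0 := exponent hT hdim
  -- the forms
  obtain ⟨lj, hlj⟩ : ∃ lj : Fin (w + 1) → Fin (r + 1) × Fin (n + 1),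
    lj = Fin.cons (0, e0 0) l := ⟨_, rfl⟩
  obtain ⟨ω, hω⟩ : ∃ ω : Fin (w + 1) → (Fin w → Derivation K L L) → L, ∀ j Dd, ω j Dd =
    (rmx d D (vE Dd) t (fun u => Pi.single (κ u) 1) p e0 σ).det * p (lj j).1 (lj j).2 :=
    ⟨_, fun _ _ => rfl⟩
  have hlin : ∀ (M : Matrix (Fin w) (Fin w) L) (D1 D2 : Fin w → Derivation K L L),
      (∀ i f, D1 i f = ∑ j, M i j * D2 j f) → ∀ j, ω j D1 = M.det * ω j D2 := by
    intro M D1 D2 h j
    have h1 := det_lin (d := d) (t := t) (D := D) (E := vE D2) (E' := vE D1) (M := M)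
      h (fun u => Pi.single (κ u) 1) p e0 σ
    rw [hω, hω, h1]
    ring
  have hp1 : p (lj 0).1 (lj 0).2 = 1 := by
    rw [hlj, Fin.cons_zero]
    have h1 := entry_one hp 0 0
    rwa [if_pos rfl] at h1
  have hωE : ω 0 E ≠ 0 := by
    rw [hω, hp1, mul_one]
    exact hdet
  -- the regularity
  have hreg : ∀ (Q : Place K L), Divisorial w Q → ∀ (Dd : Fin w → Derivation K L L),
      (∀ i, DerReg Q (Dd i)) → ∀ j, Q.Reg (ω j Dd) := by
    intro Q hQ Dd hDd j
    obtain ⟨M, hM⟩ : ∃ M : Matrix (Fin w) (Fin w) L, M = Matrix.of fun i j => Dd i (s j) :=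
      ⟨_, rfl⟩
    have hωM := hlin M Dd E (fun i f => by
      rw [der_comb hsb hE (Dd i) f, hM]
      rfl) j
    by_cases hM0 : M.det = 0
    · rw [hωM, hM0, zero_mul]
      exact Q.reg_zero
    by_cases hxj : p (lj j).1 (lj j).2 = 0
    · rw [hω, hxj, mul_zero]
      exact Q.reg_zero
    have hMd : (Matrix.of fun i j => Dd i (s j)).det = M.det := by
      rw [hM]
    have h1 := ord_theta (E := vE E) Q 0 (fun u => Pi.single (κ u) 1) hp hspan σ hdet
      (B := -Q.ord M.det) (fun p' h' e1 hp' hh' hdet' => by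
        have h2 := ord_det_local hw htr hQ hDS hsb hE (Dd := Dd) hDd (by
          rw [Ne, hMd]
          exact hM0) κ hp' hh' e1 σ hdet'
        rwa [hMd] at h2)
    right
    rw [hωM, hω, Q.ord_mul hM0 (mul_ne_zero hdet hxj), Q.ord_mul hdet hxj]
    have h3 : pord Q (pl p) ≤ Q.ord (p (lj j).1 (lj j).2) := by
      have h4 := pord_le Q (f := pl p) (j := en n (r + 1) (Function.update e0 (lj j).1 (lj j).2))
        (by rw [pl_en, ← entry_eq hp]; exact hxj)
      rwa [pl_en, ← entry_eq hp] at h4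
    have h4 : pord Q (pl p) ≤ 0 := by
      have h5 := pord_le Q (f := pl p) (j := en n (r + 1) e0)
        (by rw [pl_en, mi_one hp]; exact one_ne_zero)
      rwa [pl_en, mi_one hp, Q.ord_one] at h5
    have h5 : ((n + 2 + Fintype.card τ : ℕ) : ℤ) ≤ (∑ a, nn (r + 1) (d a) 0 : ℕ) := by
      exact_mod_cast hc
    have h6 : 0 ≤ ((n : ℤ) + 2 + Fintype.card τ - (∑ a, nn (r + 1) (d a) 0 : ℕ)) *
        pord Q (pl p) := by
      refine mul_nonneg_of_nonpos_of_nonpos ?_ h4
      push_cast at h5 ⊢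
      linarith
    have h7 : ((n : ℤ) + 2 + Fintype.card τ - (∑ a, nn (r + 1) (d a) 0 : ℕ)) *
        pord Q (pl p) = ((n : ℤ) + 1 + Fintype.card τ - (∑ a, nn (r + 1) (d a) 0 : ℕ)) *
        pord Q (pl p) + pord Q (pl p) := by ring
    linarith
  refine ⟨htr, 1, one_pos, ω, fun j M Dd => ?_, fun Q hQ j Dd hDd => hreg Q hQ Dd hDd j, E, hωE,
    ?_⟩
  · rw [pow_one]
    refine hlin M _ Dd (fun i f => ?_) j
    rw [← Derivation.coeFnAddMonoidHom_apply, map_sum, Finset.sum_apply]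
    rfl
  · have h1 : (fun i : Fin w => ω i.succ E / ω 0 E) = s := by
      funext i
      rw [hω, hω, hp1, mul_one, mul_div_cancel_left₀ _ hdet, hs, hlj, Fin.cons_succ]
    rw [h1]
    exact hsb.1

end Pool.Agent.V7H50.FS
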