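import Pool.Agent.V7H50.FS.Univ
import Pool.Agent.N111.GI.Gt

/-!
Images of small degree of the subvarieties of the varieties of linear spaces.
-/

set_option autoImplicit false

open MvPolynomial FF Pool.Agent.W603.LV Pool.Agent.W603.PV Pool.Agent.TH145.GH
open Pool.Agent.W602.GT
open Pool.Agent.TH145.GF (vE der_comb)
open Pool.Agent.V7H76.MP (MH mdeg Rt DualE exists_dualM finite_mdeg)
open Pool.Agent.N111.GI (SecAt gt_of)

namespace Pool.Agent.V7H50.FS

theorem exponentC {r m w T c : ℕ} {A : Type} [Fintype A] {d : A → ℕ} {n : ℕ}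
    (h1 : ∑ a, Fintype.card (Ex (r + 1) (d a)) + w + T ≤ m)
    (h2 : n + m + c ≤ ∑ a, (d a + r + 1).choose (r + 1) + w) :
    n + c + T ≤ ∑ a, nn (r + 1) (d a) 0 := by
  have h3 : ∑ a, (d a + r + 1).choose (r + 1) =
      ∑ a, nn (r + 1) (d a) 0 + ∑ a, Fintype.card (Ex (r + 1) (d a)) := by
    rw [← Finset.sum_add_distrib]
    exact Finset.sum_congr rfl fun a _ => (nn_add r (d a) 0).symm
  omega

/-- Twisted canonical forms. -/
theorem twistedG {k0 K L : Type} [Field k0] [Field K] [Field L] [Algebra k0 K] [Algebra K L]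
    [IsAlgClosed K] [CharZero K] {n r m w c : ℕ} {A : Type} [Fintype A] {d : A → ℕ}
    {V : Set (MvPolynomial (Fin (r + 1) × Fin (n + 1)) k0)} (hV : DimV k0 V m)
    (F : A → MvPolynomial (Fin (n + 1)) K) (hF : ∀ a, MH (g1 n) (F a) (dg1 d a))
    (I0 : A → Fin (n + 1) →₀ ℕ) (h0 : ∀ a, (F a).coeff (I0 a) ≠ 0)
    (hind : AlgebraicIndependent k0 fun p : Rt (g1 n) (dg1 d) I0 =>
      (F p.1).coeff p.2.1 / (F p.1).coeff (I0 p.1))
    (hw : 0 < w) (hdim : n + m + (c + 1) ≤ ∑ a, (d a + r + 1).choose (r + 1) + w)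
    (htr : Algebra.trdeg K L = w) (p : Matrix (Fin (r + 1)) (Fin (n + 1)) L)
    {e0 : Fin (r + 1) → Fin (n + 1)} (hp : p.submatrix id e0 = 1)
    (hgen : Algebra.IsAlgebraic (coordsG K p) L)
    (hpV : InV ((algebraMap K L).comp (algebraMap k0 K)) V p)
    (hpF : ∀ a, sub p (map (algebraMap K L) (F a)) = 0) :
    ∃ ω : (Fin w → Derivation K L L) → L, IsPluri 1 ω ∧ (∃ E, ω E ≠ 0) ∧
      ∀ (f : Fin c → Fin (nM n (r + 1) + 1)) (Q : Place K L), Divisorial w Q →
        RegAt Q (fun Dd => (∏ j, pl p (f j)) * ω Dd) := by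
  classical
  let _ : Algebra k0 L := ((algebraMap K L).comp (algebraMap k0 K)).toAlgebra
  have hst : IsScalarTower k0 K L := IsScalarTower.of_algebraMap_eq fun _ => rfl
  have hL : CharZero L := charZero_of_injective_algebraMap (algebraMap K L).injective
  obtain ⟨l, hl⟩ := exists_entry_basis htr 0 hp hgen
  obtain ⟨s, hs⟩ : ∃ s : Fin w → L, ∀ i, s i = p (l i).1 (l i).2 := ⟨_, fun _ => rfl⟩
  have hsb : IsTranscendenceBasis K s := by
    have : s = fun i => p (l i).1 (l i).2 := funext hs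
    rw [this]
    exact hl
  -- the forms
  have hI0 : ∀ a, mdeg (g1 n) (I0 a) = dg1 d a := fun a => hF a _ (mem_support_iff.2 (h0 a))
  have hfin : ∀ a, Finite {I : Fin (n + 1) →₀ ℕ // mdeg (g1 n) I = dg1 d a} := fun a =>
    (finite_mdeg (g1 n) (dg1 d a)).to_subtype
  let _ : ∀ a, Fintype {I : Fin (n + 1) →₀ ℕ // mdeg (g1 n) I = dg1 d a} := fun a =>
    Fintype.ofFinite _
  obtain ⟨cg, hcg⟩ : ∃ cg : ∀ a, {I : Fin (n + 1) →₀ ℕ // mdeg (g1 n) I = dg1 d a} → K, ∀ a j,
    cg a j = (F a).coeff j.1 / (F a).coeff (I0 a) := ⟨fun a j => _, fun _ _ => rfl⟩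
  obtain ⟨G, hG⟩ : ∃ G : A → MvPolynomial (Fin (n + 1)) K, ∀ a, G a =
    ∑ j, C (cg a j) * map (algebraMap k0 K) (monomial j.1 1) := ⟨_, fun _ => rfl⟩
  have hGF : ∀ a, G a = C ((F a).coeff (I0 a))⁻¹ * F a := fun a => by
    obtain ⟨c, hc⟩ : ∃ c, c = (F a).coeff (I0 a) := ⟨_, rfl⟩
    have h1 : ∀ j, cg a j = c⁻¹ * (F a).coeff j.1 := fun j => by
      rw [hcg, ← hc, div_eq_mul_inv, mul_comm]
    rw [← hc]
    conv_rhs => rw [(hF a).expand]
    rw [hG, Finset.mul_sum]
    refine Finset.sum_congr rfl fun j _ => ?_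
    rw [← mul_assoc, ← C_mul, h1, MvPolynomial.map_monomial, RingHom.map_one]
  obtain ⟨D, ε, hD, hDS, hDk⟩ := exists_dualM (g := g1 n) hsb (dg := dg1 d)
    (J := fun a => {I : Fin (n + 1) →₀ ℕ // mdeg (g1 n) I = dg1 d a})
    (fun a j => monomial j.1 1) cg (fun a => ⟨I0 a, hI0 a⟩)
    (fun a => by rw [hcg, div_self (h0 a)]) (by
      obtain ⟨f, hf⟩ : ∃ f : (Σ a, {j : {I : Fin (n + 1) →₀ ℕ // mdeg (g1 n) I = dg1 d a} //
          j ≠ ⟨I0 a, hI0 a⟩}) → Rt (g1 n) (dg1 d) I0, ∀ p, f p = ⟨p.1, ⟨p.2.1.1, p.2.1.2,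
            fun h => p.2.2 (Subtype.ext h)⟩⟩ := ⟨_, fun _ => rfl⟩
      have hfi : Function.Injective f := by
        rintro ⟨a, ⟨⟨I, hI⟩, hI'⟩⟩ ⟨b, ⟨⟨J, hJ⟩, hJ'⟩⟩ h
        rw [hf, hf] at h
        have h4 : a = b := congrArg Sigma.fst h
        subst h4
        have h5 := congrArg Subtype.val (eq_of_heq (Sigma.mk.inj_iff.1 h).2)
        have h6 : I = J := h5
        subst h6
        rfl
      have h1 := hind.comp f hfi
      have h2 : (fun p : (Σ a, {j : {I : Fin (n + 1) →₀ ℕ // mdeg (g1 n) I = dg1 d a} //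
          j ≠ ⟨I0 a, hI0 a⟩}) => cg p.1 p.2.1) = (fun p : Rt (g1 n) (dg1 d) I0 =>
          (F p.1).coeff p.2.1 / (F p.1).coeff (I0 p.1)) ∘ f := by
        funext p
        rw [Function.comp_apply, hf, hcg]
      rw [h2]
      exact h1)
    (fun a I hI => ⟨⟨I, hI⟩, rfl⟩) hG
  obtain ⟨H, hH⟩ : ∃ H : A → MvPolynomial (Fin (n + 1)) L, H = fun a =>
    map (algebraMap K L) (G a) := ⟨_, rfl⟩
  rw [← hH] at hD
  have hFK : ∀ (δ : Derivation K L L) a u, δ ((H a).coeff u) = 0 := fun δ a u => by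
    rw [hH, coeff_map]
    exact δ.map_algebraMap _
  have hpC : ∀ a, sub p (H a) = 0 := by
    intro a
    rw [hH]
    dsimp only
    rw [hGF, map_mul, map_mul, hpF a, mul_zero]
  have htr' := hV L p (li_of_norm hp) hpV
  -- the vertical derivations
  obtain ⟨E, hE⟩ : ∃ E : Fin w → Derivation K L L, ∀ i j, E i (s j) = if i = j then 1 else 0 := by
    obtain ⟨E, hE⟩ := exists_dual hsb
    refine ⟨E, fun i j => ?_⟩
    have := congrFun (congrFun hE i) j
    rw [Matrix.of_apply, Matrix.one_apply] at this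
    rw [this]
  have hindep : LinearIndependent L (vt (vE E) p) := vt_ind hp l (fun i => by
      have h1 := hE i i
      rw [hs, if_pos rfl] at h1
      exact h1) (fun i j hij => by
      have h1 := hE i j
      rw [hs, if_neg hij] at h1
      exact h1)
  obtain ⟨τ, U, _, _, t, κ, hli, hcard, hspan⟩ := exists_rows (E := vE E) hD
    (fun i a u => hFK (E i) a u) hp hpC hindep
  obtain ⟨σ⟩ := exists_sigma hcard
  have hdet := rmx_ne (Y := Fin w) σ hli
  have hT := count_le (k0 := k0) hli hDk (fun i c => by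
    change E i (algebraMap k0 L c) = 0
    rw [IsScalarTower.algebraMap_apply k0 K L]
    exact (E i).map_algebraMap _) (tan_rank 0 hp htr')
  rw [Fintype.card_fin] at hT
  have hc : n + (c + 1) + Fintype.card τ ≤ ∑ a, nn (r + 1) (d a) 0 := exponentC hT hdim
  -- the form
  obtain ⟨ω, hω⟩ : ∃ ω : (Fin w → Derivation K L L) → L, ∀ Dd, ω Dd =
    (rmx d D (vE Dd) t (fun u => Pi.single (κ u) 1) p e0 σ).det := ⟨_, fun _ => rfl⟩
  have hlin : ∀ (M : Matrix (Fin w) (Fin w) L) (D1 D2 : Fin w → Derivation K L L),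
      (∀ i f, D1 i f = ∑ j, M i j * D2 j f) → ω D1 = M.det * ω D2 := by
    intro M D1 D2 h
    have h1 := det_lin (d := d) (t := t) (D := D) (E := vE D2) (E' := vE D1) (M := M)
      h (fun u => Pi.single (κ u) 1) p e0 σ
    rw [hω, hω, h1]
  refine ⟨ω, fun M Dd => ?_, ⟨E, by rw [hω]; exact hdet⟩, ?_⟩
  · rw [pow_one]
    refine hlin M _ Dd (fun i f => ?_)
    rw [← Derivation.coeFnAddMonoidHom_apply, map_sum, Finset.sum_apply]
    rfl
  -- the regularity
  intro f Q hQ Dd hDd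
  obtain ⟨M, hM⟩ : ∃ M : Matrix (Fin w) (Fin w) L, M = Matrix.of fun i j => Dd i (s j) :=
    ⟨_, rfl⟩
  have hωM := hlin M Dd E (fun i f => by
    rw [der_comb hsb hE (Dd i) f, hM]
    rfl)
  dsimp only
  by_cases hM0 : M.det = 0
  · rw [hωM, hM0, zero_mul, mul_zero]
    exact Q.reg_zero
  by_cases hxj : ∏ j, pl p (f j) = 0
  · rw [hxj, zero_mul]
    exact Q.reg_zero
  have hxj' : ∀ j, pl p (f j) ≠ 0 := fun j =>
    Finset.prod_ne_zero_iff.1 hxj j (Finset.mem_univ _)
  have hMd : (Matrix.of fun i j => Dd i (s j)).det = M.det := by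
    rw [hM]
  have h1 := ord_theta (E := vE E) Q 0 (fun u => Pi.single (κ u) 1) hp hspan σ hdet
    (B := -Q.ord M.det) (fun p' h' e1 hp' hh' hdet' => by
      have h2 := ord_det_local hw htr hQ hDS hsb hE (Dd := Dd) hDd (by
        rw [Ne, hMd]
        exact hM0) κ hp' hh' e1 σ hdet'
      rwa [hMd] at h2)
  right
  rw [hωM, hω, Q.ord_mul hxj (mul_ne_zero hM0 hdet), Q.ord_mul hM0 hdet]
  have h3 : (c : ℤ) * pord Q (pl p) ≤ Q.ord (∏ j, pl p (f j)) := by
    rw [Pool.Agent.TH145.GC.ord_prod Q _ _ fun j _ => hxj' j]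
    calc (c : ℤ) * pord Q (pl p) = ∑ _j : Fin c, pord Q (pl p) := by
          rw [Finset.sum_const, Finset.card_univ, Fintype.card_fin, nsmul_eq_mul]
      _ ≤ _ := Finset.sum_le_sum fun j _ => pord_le Q (f := pl p) (j := f j) (hxj' j)
  have h4 : pord Q (pl p) ≤ 0 := by
    have h5 := pord_le Q (f := pl p) (j := en n (r + 1) e0)
      (by rw [pl_en, mi_one hp]; exact one_ne_zero)
    rwa [pl_en, mi_one hp, Q.ord_one] at h5
  have h5 : ((n + (c + 1) + Fintype.card τ : ℕ) : ℤ) ≤ (∑ a, nn (r + 1) (d a) 0 : ℕ) := by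
    exact_mod_cast hc
  have h6 : 0 ≤ ((n : ℤ) + 1 + c + Fintype.card τ - (∑ a, nn (r + 1) (d a) 0 : ℕ)) *
      pord Q (pl p) := by
    refine mul_nonneg_of_nonpos_of_nonpos ?_ h4
    push_cast at h5 ⊢
    linarith
  have h7 : ((n : ℤ) + 1 + c + Fintype.card τ - (∑ a, nn (r + 1) (d a) 0 : ℕ)) *
      pord Q (pl p) = ((n : ℤ) + 1 + Fintype.card τ - (∑ a, nn (r + 1) (d a) 0 : ℕ)) *
      pord Q (pl p) + c * pord Q (pl p) := by ring
  linarith

/-- The ratios of the minors are in the fields which contain the minors. -/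
theorem coordsG_le {K L : Type} [Field K] [Field L] [Algebra K L] {n R : ℕ}
    {p : Matrix (Fin R) (Fin (n + 1)) L} {S : IntermediateField K L}
    (h : ∀ j, pl p j ∈ S) : coordsG K p ≤ S := by
  unfold coordsG
  rw [IntermediateField.adjoin_le_iff]
  rintro z ⟨T, T', -, rfl⟩
  have h1 := h (en n R T)
  have h2 := h (en n R T')
  rw [pl_en] at h1 h2
  exact div_mem h1 h2

theorem logAt_of_regAt {K L : Type} [Field K] [Field L] [Algebra K L] {w : ℕ} {P : Place K L}
    {ω : (Fin w → Derivation K L L) → L} (h : RegAt P ω) : LogAt P ω := by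
  intro D hD
  refine h D fun i f hf => ?_
  by_cases hf0 : f = 0
  · rw [hf0, map_zero]
    exact P.reg_zero
  · have h1 := P.reg_mul hf (hD i f)
    rwa [mul_div_cancel₀ _ hf0] at h1

/-- Images of small degree are of general type. -/
theorem img_norm {k0 K M L : Type} [Field k0] [Field K] [Field M] [Field L] [Algebra k0 K]
    [Algebra K M] [Algebra K L] [Algebra M L] [IsScalarTower K M L] [FiniteDimensional M L]
    [Algebra.EssFiniteType K M] [IsAlgClosed K] [CharZero K] {n r m w ρ : ℕ} {A : Type}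
    [Fintype A] {d : A → ℕ}
    {V : Set (MvPolynomial (Fin (r + 1) × Fin (n + 1)) k0)} (hV : DimV k0 V m)
    (F : A → MvPolynomial (Fin (n + 1)) K) (hF : ∀ a, MH (g1 n) (F a) (dg1 d a))
    (I0 : A → Fin (n + 1) →₀ ℕ) (h0 : ∀ a, (F a).coeff (I0 a) ≠ 0)
    (hind : AlgebraicIndependent k0 fun p : Rt (g1 n) (dg1 d) I0 =>
      (F p.1).coeff p.2.1 / (F p.1).coeff (I0 p.1))
    (hw : 0 < w) (hdim : n + m + 2 * ρ ≤ ∑ a, (d a + r + 1).choose (r + 1) + w)
    (htr : Algebra.trdeg K M = w) (hρ : Module.finrank M L ≤ ρ)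
    (p : Matrix (Fin (r + 1)) (Fin (n + 1)) L)
    {e0 : Fin (r + 1) → Fin (n + 1)} (hp : p.submatrix id e0 = 1)
    (hgen : Algebra.IsAlgebraic (coordsG K p) L)
    (hgenM : IntermediateField.adjoin M (coordsG K p : Set L) = ⊤)
    (hpV : InV ((algebraMap K L).comp (algebraMap k0 K)) V p)
    (hpF : ∀ a, sub p (map (algebraMap K L) (F a)) = 0) : GeneralType K M w := by
  have hess : Algebra.EssFiniteType K L := Algebra.EssFiniteType.comp K M L
  have hpos : 0 < Module.finrank M L := Module.finrank_pos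
  have htr' : Algebra.trdeg K L = w := Pool.Agent.Y172.trdeg_up (K := M) htr
  obtain ⟨ω, hω, hE, hreg⟩ := twistedG (c := 2 * ρ - 1) hV F hF I0 h0 hind hw (by omega) htr' p
    hp hgen hpV hpF
  have hy0 : pl p (en n (r + 1) e0) = 1 := by rw [pl_en, mi_one hp]
  have hyS : ∀ S : IntermediateField K L, (∀ j, pl p j ∈ S) → coordsG K p ≤ S := fun S h =>
    coordsG_le h
  generalize pl p = y at hreg hy0 hyS
  generalize en n (r + 1) e0 = j0 at hy0
  generalize coordsG K p = R at hyS hgen hgenM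
  refine Pool.Agent.W602.GT.general_of_log ?_
  refine gt_of (x := y) (j0 := j0) (BL := fun _ => False) (m := 2 * ρ - 1) htr
    (fun _ _ _ _ h => h) hy0 ?_ hω (fun f P hP => ?_) (fun τ => ?_) hE (by omega)
  · rw [eq_top_iff, ← hgenM, IntermediateField.adjoin_le_iff]
    intro z hz
    have h1 : R ≤ (IntermediateField.adjoin M (Set.range y)).restrictScalars K :=
      hyS _ fun j => IntermediateField.subset_adjoin M (Set.range y) ⟨j, rfl⟩
    exact h1 hz
  · have h3 := hreg f P hP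
    exact ⟨logAt_of_regAt h3, fun _ => h3⟩
  · have h1 : R ≤ IntermediateField.adjoin K (Set.range y) :=
      hyS _ fun j => IntermediateField.subset_adjoin _ _ ⟨j, rfl⟩
    have h2 := Pool.Agent.W602.GT.alg_mono h1 hgen
    exact h2.isAlgebraic τ

/-- Images of small degree are of general type. -/
theorem img_spaces {k0 K M L : Type} [Field k0] [Field K] [Field M] [Field L] [Algebra k0 K]
    [Algebra K M] [Algebra K L] [Algebra M L] [IsScalarTower K M L] [FiniteDimensional M L]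
    [Algebra.EssFiniteType K M] [IsAlgClosed K] [CharZero K] {n r m w ρ : ℕ} {A : Type}
    [Fintype A] {d : A → ℕ}
    {V : Set (MvPolynomial (Fin (r + 1) × Fin (n + 1)) k0)}
    (hV : DimV k0 V m)
    (F : A → MvPolynomial (Fin (n + 1)) K) (hF : ∀ a, MH (g1 n) (F a) (dg1 d a))
    (I0 : A → Fin (n + 1) →₀ ℕ) (h0 : ∀ a, (F a).coeff (I0 a) ≠ 0)
    (hind : AlgebraicIndependent k0 fun p : Rt (g1 n) (dg1 d) I0 =>
      (F p.1).coeff p.2.1 / (F p.1).coeff (I0 p.1))
    (hw : 0 < w) (hdim : n + m + 2 * ρ ≤ ∑ a, (d a + r + 1).choose (r + 1) + w)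
    (htr : Algebra.trdeg K M = w) (hρ : Module.finrank M L ≤ ρ)
    (p : Matrix (Fin (r + 1)) (Fin (n + 1)) L)
    (hp : LinearIndependent L p) (hgen : Algebra.IsAlgebraic (coordsG K p) L)
    (hgenM : IntermediateField.adjoin M (coordsG K p : Set L) = ⊤)
    (hpV : ∀ q : Matrix (Fin (r + 1)) (Fin (n + 1)) L,
      (∀ i, q i ∈ Submodule.span L (Set.range p)) → ∀ f ∈ V,
      aeval (fun s : Fin (r + 1) × Fin (n + 1) => q s.1 s.2) (map (algebraMap k0 K) f) = 0)
    (hpF : ∀ v ∈ Submodule.span L (Set.range p), ∀ a, aeval v (F a) = 0) :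
    GeneralType K M w := by
  obtain ⟨e0, he0⟩ := exists_chart hp
  obtain ⟨h, hh⟩ : ∃ h, h = (p.submatrix id e0)⁻¹ := ⟨_, rfl⟩
  have hhd : h.det ≠ 0 := by
    rw [hh]
    intro h2
    have h3 := Matrix.nonsing_inv_mul _ (isUnit_iff_ne_zero.2 he0)
    have h4 := congrArg Matrix.det h3
    rw [Matrix.det_mul, h2, zero_mul, Matrix.det_one] at h4
    exact zero_ne_one h4
  obtain ⟨x, hx⟩ : ∃ x, x = h * p := ⟨_, rfl⟩
  have hx1 : x.submatrix id e0 = 1 := by
    rw [hx, hh]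
    exact norm_mul he0
  have hspan : Submodule.span L (Set.range x) = Submodule.span L (Set.range p) := by
    rw [hx]
    exact span_mul h hhd p
  have hL : CharZero L := charZero_of_injective_algebraMap (algebraMap K L).injective
  refine img_norm hV F hF I0 h0 hind hw hdim htr hρ x hx1 ?_ ?_ ?_ ?_
  · rw [hx, coordsG_mul h hhd]
    exact hgen
  · rw [hx, coordsG_mul h hhd]
    exact hgenM
  · intro f hf g
    have h1 := hpV (g * x) (fun i => by
      rw [← hspan]
      exact mul_row_mem g x i) f hf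
    rw [aeval_def, eval₂_map] at h1
    exact h1
  · intro a
    refine ext_nat fun u => ?_
    rw [map_zero, eval_sub, eval_map]
    refine hpF _ ?_ a
    rw [← hspan]
    exact pt_mem _ _

end Pool.Agent.V7H50.FS
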