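import Pool.Agent.V7H50.FS.Est

/-!
The height inequality.
-/

set_option autoImplicit false

open MvPolynomial FF Pool.Agent.W603.LV Pool.Agent.W603.PV Pool.Agent.TH145.GH
open Pool.Agent.TH145.GC (ge_det)
open Pool.Agent.V7H76.MP (MH mdeg DualE Data noE bl)

namespace Pool.Agent.V7H50.FS

variable {K : Type} [Field K] {n R : ℕ}

theorem entry_one {p : Matrix (Fin R) (Fin (n + 1)) K} {e : Fin R → Fin (n + 1)}
    (hp : p.submatrix id e = 1) (i j : Fin R) : p i (e j) = if i = j then 1 else 0 := by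
  have h1 := congrFun (congrFun hp i) j
  rw [Matrix.submatrix_apply, Matrix.one_apply] at h1
  exact h1

theorem der_entry (δ : Derivation ℤ K K) {p : Matrix (Fin R) (Fin (n + 1)) K}
    {e : Fin R → Fin (n + 1)} (hp : p.submatrix id e = 1) (i j : Fin R) : δ (p i (e j)) = 0 := by
  rw [entry_one hp]
  split_ifs
  · exact δ.map_one_eq_zero
  · exact map_zero _

/-- Independence of the position vectors and the vertical vector fields. -/
theorem vt_ind {Y : Type} [Fintype Y] {E : Y → Derivation ℤ K K}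
    {p : Matrix (Fin R) (Fin (n + 1)) K} {e : Fin R → Fin (n + 1)} (hp : p.submatrix id e = 1)
    (l : Y → Fin R × Fin (n + 1)) (h1 : ∀ ξ, E ξ (p (l ξ).1 (l ξ).2) = 1)
    (h0 : ∀ ξ η, ξ ≠ η → E ξ (p (l η).1 (l η).2) = 0) : LinearIndependent K (vt E p) := by
  classical
  rw [Fintype.linearIndependent_iff]
  intro c hc
  rw [Fintype.sum_sum_type] at hc
  obtain ⟨G, hG⟩ : ∃ G : Matrix (Fin R) (Fin R) K, ∀ i j, G i j = c (Sum.inl (i, j)) :=
    ⟨Matrix.of fun i j => c (Sum.inl (i, j)), fun _ _ => rfl⟩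
  have h2 : ∑ s : Fin R × Fin R, c (Sum.inl s) • vt E p (Sum.inl s) = vG G p := by
    rw [vG_sum]
    refine Finset.sum_congr rfl fun s _ => ?_
    rw [hG]
    rfl
  rw [h2] at hc
  have h3 : ∀ s, vG G p s + ∑ ξ, c (Sum.inr ξ) * E ξ (p s.1 s.2) = 0 := by
    intro s
    have h4 := congrFun hc s
    rw [Pi.add_apply, Finset.sum_apply] at h4
    exact h4
  have h4 : G = 0 := by
    ext i j
    have h5 := h3 (i, e j)
    dsimp only at h5
    rw [Finset.sum_eq_zero fun ξ _ => by rw [der_entry _ hp, mul_zero], add_zero] at h5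
    unfold vG at h5
    rw [Matrix.mul_apply, Finset.sum_eq_single j] at h5
    · rwa [entry_one hp, if_pos rfl, mul_one] at h5
    · intro k _ hk
      rw [entry_one hp, if_neg hk, mul_zero]
    · intro h; exact absurd (Finset.mem_univ _) h
  rintro (⟨i, j⟩ | ξ)
  · rw [← hG, h4]
    rfl
  · have h5 := h3 (l ξ)
    rw [h4, vG_zero, Pi.zero_apply, zero_add, Finset.sum_eq_single ξ] at h5
    · rwa [h1, mul_one] at h5
    · intro η _ hη
      rw [h0 η ξ hη, mul_zero]
    · intro h; exact absurd (Finset.mem_univ _) h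

variable {A Y τ U : Type} {d : A → ℕ}
  {D : A → (Fin (n + 1) →₀ ℕ) → Derivation ℤ K K} {E : Y → Derivation ℤ K K} {t : τ → Ti n R A}
  [Fintype A] [DecidableEq A] [Fintype Y] [DecidableEq Y] [Fintype τ] [DecidableEq τ]
  [Fintype U] [DecidableEq U]

theorem rmx_ne {κ : U → Fin R × Fin (n + 1) → K} {p : Matrix (Fin R) (Fin (n + 1)) K}
    {e : Fin R → Fin (n + 1)} (σ : Ri R d Y τ U ≃ Fin R × Fin (n + 1))
    (h : LinearIndependent K (row d D E t κ p e)) : (rmx d D E t κ p e σ).det ≠ 0 := by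
  have h1 := h.map' (LinearEquiv.funCongrLeft K K σ).toLinearMap (LinearEquiv.ker _)
  have h2 : LinearIndependent K (rmx d D E t κ p e σ).row := h1
  rw [Matrix.linearIndependent_rows_iff_isUnit, Matrix.isUnit_iff_isUnit_det] at h2
  exact h2.ne_zero

omit [DecidableEq A] [DecidableEq Y] [DecidableEq τ] [DecidableEq U] in
theorem exists_sigma (h : Fintype.card (Ri R d Y τ U) = R * (n + 1)) :
    Nonempty (Ri R d Y τ U ≃ Fin R × Fin (n + 1)) := by
  refine ⟨Fintype.equivOfCardEq ?_⟩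
  rw [h, Fintype.card_prod, Fintype.card_fin, Fintype.card_fin]

omit [DecidableEq A] [Fintype Y] [DecidableEq Y] [Fintype τ] [DecidableEq τ] [Fintype U]
  [DecidableEq U] in
/-- The exponent of the determinant of the scaling. -/
theorem exponent {r m w T : ℕ} {A : Type} [Fintype A] {d : A → ℕ} {n : ℕ}
    (h1 : ∑ a, Fintype.card (Ex (r + 1) (d a)) + w + T ≤ m)
    (h2 : n + m + 2 ≤ ∑ a, (d a + r + 1).choose (r + 1) + w) :
    n + 2 + T ≤ ∑ a, nn (r + 1) (d a) 0 := by
  have h3 : ∑ a, (d a + r + 1).choose (r + 1) =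
      ∑ a, nn (r + 1) (d a) 0 + ∑ a, Fintype.card (Ex (r + 1) (d a)) := by
    rw [← Finset.sum_add_distrib]
    exact Finset.sum_congr rfl fun a _ => (nn_add r (d a) 0).symm
  omega

section ineq

variable {k : Type} [Field k] [IsAlgClosed k] [CharZero k] {K : Type} [Field K] [Algebra k K]
  [IsFF k K] [CharZero K] {n : ℕ}

omit [CharZero K] in
/-- Summation of the local inequalities. -/
theorem sum_local {x : Fin (n + 1) → K} (hx : x ≠ 0) {Θ : K}
    {a : ℤ} (ha : 1 ≤ a) {C : Place k K → ℤ} (hC : {P | C P ≠ 0}.Finite)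
    (h : ∀ P : Place k K, (-a) * pord P x - C P ≤ P.ord Θ) :
    pht k x ≤ ∑ᶠ P, C P := by
  have hb : ∀ i : Unit, bl (fun _ => ()) i x = x := by
    intro i
    funext s
    unfold bl
    rw [if_pos rfl]
  have h1 := Pool.Agent.V7H76.MP.sum_localM (k := k) (g := fun _ : Fin (n + 1) => ()) (x := x)
    (Θ := Θ) (a := fun _ => a) (C := C) (fun i => by rw [hb]; exact hx) (fun _ => ha) hC
    (fun P => by
      simp only [hb, Finset.univ_unique, Finset.sum_singleton]
      exact h P) ()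
  rwa [hb] at h1

theorem pl_ne {R : ℕ} {p : Matrix (Fin R) (Fin (n + 1)) K} {e0 : Fin R → Fin (n + 1)}
    (hp : p.submatrix id e0 = 1) : pl p ≠ 0 := by
  intro h
  have h1 := congrFun h (en n R e0)
  rw [pl_en, mi_one hp] at h1
  exact one_ne_zero h1

/-- The height inequality. -/
theorem ineq {r m : ℕ} {A : Type} [Fintype A] {F : A → MvPolynomial (Fin (n + 1)) K} {d : A → ℕ}
    {D : A → (Fin (n + 1) →₀ ℕ) → Derivation ℤ K K} {e : Place k K → ℤ}
    (hdat : Data k (g1 n) F (dg1 d) D e)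
    (hdim : n + m + 2 ≤ ∑ a, (d a + r + 1).choose (r + 1))
    {p : Matrix (Fin (r + 1)) (Fin (n + 1)) K} {e0 : Fin (r + 1) → Fin (n + 1)}
    (hp : p.submatrix id e0 = 1) {k0 : Type} [Field k0] [Algebra k0 K]
    (hDk : ∀ a I (c : k0), D a I (algebraMap k0 K c) = 0)
    (htr : Algebra.trdeg k0 (coordsG k0 p) ≤ m) (hC : ∀ a, sub p (F a) = 0) :
    pht k (pl p) ≤ ∑ᶠ P, (((r + 1) * (n + 1) : ℕ) : ℤ) * e P := by
  classical
  obtain ⟨τ, U, _, _, t, κ, hind, hcard, hspan⟩ := exists_rows (E := noE K)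
    (hdat.dual.dualE hdat.hom) (fun z => z.elim) hp hC (vt_ind hp (fun z => z.elim)
      (fun z => z.elim) (fun z => z.elim))
  obtain ⟨σ⟩ := exists_sigma hcard
  have hdet := rmx_ne (Y := Empty) σ hind
  have hT := count_le (k0 := k0) hind hDk (fun z => z.elim) (tan_rank 0 hp htr)
  rw [Fintype.card_eq_zero (α := Empty)] at hT
  have hc : n + 2 + Fintype.card τ ≤ ∑ a, nn (r + 1) (d a) 0 := exponent hT hdim
  refine sum_local (k := k) (pl_ne hp) (Θ := (rmx d D (noE K) t (fun u => Pi.single (κ u) 1) p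
    e0 σ).det) (a := (∑ a, nn (r + 1) (d a) 0 : ℕ) - ((n : ℤ) + 1 + Fintype.card τ)) ?_ ?_
    fun P => ?_
  · have : ((n + 2 + Fintype.card τ : ℕ) : ℤ) ≤ (∑ a, nn (r + 1) (d a) 0 : ℕ) := by
      exact_mod_cast hc
    push_cast at this ⊢
    linarith
  · refine hdat.fin.subset fun P hP => ?_
    intro h0
    apply hP
    rw [h0, mul_zero]
  · have h1 := ord_theta (E := noE K) P 0 (fun u => Pi.single (κ u) 1) hp hspan σ hdet
      (B := -((((r + 1) * (n + 1) : ℕ) : ℤ) * e P)) (fun p' h' e1 hp' hh' hdet' => by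
        have h1 := (ge_det P (rmx d D (noE K) t (fun u => act h' (Pi.single (κ u) 1)) p' e1 σ)
          (c := e P) fun r j => ge_row P (hdat.e_nonneg P) (fun a I hI f hf =>
            hdat.loss P f hf a I (mdeg_iff.2 hI)) (fun z => z.elim) κ hp' hh' e1 r
              (σ j)).resolve_left hdet'
        rwa [hcard] at h1)
    rw [neg_sub, sub_eq_add_neg]
    exact h1

end ineq

end Pool.Agent.V7H50.FS
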