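import Pool.Agent.V7H50.FS.Ineq
import Pool.Agent.V7H76.MP.Limit

/-!
Closed subsets of the Grassmannian; limit points are constant.
-/

set_option autoImplicit false

open MvPolynomial FF Pool.Agent.W603.LV Pool.Agent.W603.PV Pool.Agent.W602.RG
open Pool.Agent.TH145.GH
open Pool.Agent.V7H76.MP (MH mdeg DualE Data noE Gen exists_rig_data)

namespace Pool.Agent.V7H50.FS

section trans

variable {k0 Ω Ω' : Type} [Field k0] [Field Ω] [Field Ω'] {n R : ℕ}

/-- The span of the rows of `p` belongs to the closed subset `V` of the Grassmannian. -/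
def InV (ψ : k0 →+* Ω) (V : Set (MvPolynomial (Fin R × Fin (n + 1)) k0))
    (p : Matrix (Fin R) (Fin (n + 1)) Ω) : Prop :=
  ∀ f ∈ V, ∀ h : Matrix (Fin R) (Fin R) Ω,
    eval₂ ψ (fun s : Fin R × Fin (n + 1) => (h * p) s.1 s.2) f = 0

/-- The closed subset `V` of the Grassmannian has dimension at most `m`. -/
def DimV (k0 : Type) [Field k0] {n R : ℕ} (V : Set (MvPolynomial (Fin R × Fin (n + 1)) k0))
    (m : ℕ) : Prop :=
  ∀ (Ω : Type) [Field Ω] [Algebra k0 Ω] (p : Matrix (Fin R) (Fin (n + 1)) Ω),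
    LinearIndependent Ω p.row → InV (algebraMap k0 Ω) V p →
    Algebra.trdeg k0 (coordsG k0 p) ≤ m

theorem InV.of_map {ψ : k0 →+* Ω} {V : Set (MvPolynomial (Fin R × Fin (n + 1)) k0)}
    {p : Matrix (Fin R) (Fin (n + 1)) Ω} (ι : Ω →+* Ω') {χ : k0 →+* Ω'} (hχ : ι.comp ψ = χ)
    (h : InV χ V (p.map ι)) : InV ψ V p := by
  intro f hf g
  apply ι.injective
  have h1 := h f hf (g.map ι)
  rw [map_zero, hom_eval₂, hχ]
  convert h1 using 2
  rw [← Matrix.map_mul]
  rfl

theorem sub_map (p : Matrix (Fin R) (Fin (n + 1)) Ω) (ι : Ω →+* Ω')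
    (f : MvPolynomial (Fin (n + 1)) Ω) : map ι (sub p f) = sub (p.map ι) (map ι f) := by
  have h : (map ι).comp (sub p).toRingHom = (sub (p.map ι)).toRingHom.comp (map ι) := by
    refine MvPolynomial.ringHom_ext (fun r => ?_) fun l => ?_
    · change map ι (sub p (C r)) = sub (p.map ι) (map ι (C r))
      have h1 : sub p (C r) = C r := AlgHom.commutes (sub p) r
      have h2 : sub (p.map ι) (C (ι r)) = C (ι r) := AlgHom.commutes (sub (p.map ι)) (ι r)
      rw [h1, map_C, map_C, h2]
    · change map ι (sub p (X l)) = sub (p.map ι) (map ι (X l))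
      rw [sub_X, map_X, sub_X, map_sum]
      refine Finset.sum_congr rfl fun i _ => ?_
      rw [map_mul, map_C, map_X, Matrix.map_apply]
  exact congrArg (fun g : MvPolynomial (Fin (n + 1)) Ω →+* MvPolynomial (Fin R) Ω' => g f) h

theorem sub_zero_of_map {p : Matrix (Fin R) (Fin (n + 1)) Ω} (ι : Ω →+* Ω')
    {f : MvPolynomial (Fin (n + 1)) Ω} (h : sub (p.map ι) (map ι f) = 0) : sub p f = 0 := by
  apply MvPolynomial.map_injective ι ι.injective
  rw [sub_map, h, map_zero]

theorem li_of_norm {p : Matrix (Fin R) (Fin (n + 1)) Ω} {e : Fin R → Fin (n + 1)}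
    (hp : p.submatrix id e = 1) : LinearIndependent Ω p.row := by
  rw [Fintype.linearIndependent_iff]
  intro c hc i
  have h1 := congrFun hc (e i)
  rw [Finset.sum_apply, Pi.zero_apply, Finset.sum_eq_single i] at h1
  · rw [Pi.smul_apply, smul_eq_mul] at h1
    have h2 : p.row i (e i) = 1 := by
      have := entry_one hp i i
      rwa [if_pos rfl] at this
    rwa [h2, mul_one] at h1
  · intro j _ hj
    rw [Pi.smul_apply, smul_eq_mul]
    have h2 : p.row j (e i) = 0 := by
      have := entry_one hp j i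
      rwa [if_neg hj] at this
    rw [h2, mul_zero]
  · intro h; exact absurd (Finset.mem_univ _) h

end trans

section om

variable {k0 K : Type} [Field k0] [Field K] [Algebra k0 K] {n R : ℕ}

omit [Algebra k0 K] in
theorem eval₂_mk {σ : Type} (ψ : k0 →+* K) (g : ℕ → σ → K) (f : MvPolynomial σ k0) :
    eval₂ ((cst K).comp ψ) (fun i => Om.mk fun m => g m i) f = Om.mk fun m => eval₂ ψ (g m) f := by
  have h1 : eval₂Hom ((cst K).comp ψ) (fun i => Om.mk fun m => g m i) =
      (Pool.Agent.TH145.MF.mkHom K).comp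
        (RingHom.pi fun m => (eval₂Hom ψ (g m) : MvPolynomial σ k0 →+* K)) := by
    apply MvPolynomial.ringHom_ext
    · intro r
      rw [eval₂Hom_C, RingHom.comp_apply, RingHom.comp_apply,
        Pool.Agent.TH145.MF.mkHom_apply, cst_apply]
      congr 1
      funext m
      exact (eval₂Hom_C ψ (g m) r).symm
    · intro i
      rw [eval₂Hom_X', RingHom.comp_apply, Pool.Agent.TH145.MF.mkHom_apply]
      congr 1
      funext m
      exact (eval₂Hom_X' ψ (g m) i).symm
  exact congrArg (fun φ : MvPolynomial σ k0 →+* Om K => φ f) h1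

theorem mk_sum {σ : Type} [Fintype σ] (g : σ → ℕ → K) :
    (∑ i, Om.mk (g i)) = Om.mk fun m => ∑ i, g i m := by
  have h1 := map_sum (Pool.Agent.TH145.MF.mkHom K) g Finset.univ
  simp only [Pool.Agent.TH145.MF.mkHom_apply] at h1
  rw [← h1]
  congr 1
  funext m
  rw [Finset.sum_apply]

theorem inV_mk {V : Set (MvPolynomial (Fin R × Fin (n + 1)) k0)}
    {x : ℕ → Matrix (Fin R) (Fin (n + 1)) K} (h : ∀ m, InV (algebraMap k0 K) V (x m)) :
    InV ((cst K).comp (algebraMap k0 K)) V (Matrix.of fun i j => Om.mk fun m => x m i j) := by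
  intro f hf g
  choose u hu using fun s : Fin R × Fin R => Om.mk_surj (g s.1 s.2)
  have h1 : (fun s : Fin R × Fin (n + 1) =>
      (g * Matrix.of fun i j => Om.mk fun m => x m i j) s.1 s.2) = fun s =>
      Om.mk fun m => ((Matrix.of fun i j => u (i, j) m) * x m) s.1 s.2 := by
    funext s
    rw [Matrix.mul_apply]
    simp only [Matrix.mul_apply, Matrix.of_apply]
    rw [← mk_sum]
    refine Finset.sum_congr rfl fun i _ => ?_
    rw [← Om.mk_mul, hu (s.1, i)]
  rw [h1]
  have h2 := eval₂_mk (algebraMap k0 K) (fun m (s : Fin R × Fin (n + 1)) =>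
    ((Matrix.of fun i j => u (i, j) m) * x m) s.1 s.2) f
  rw [h2]
  have h3 : (fun m => eval₂ (algebraMap k0 K) (fun s : Fin R × Fin (n + 1) =>
    ((Matrix.of fun i j => u (i, j) m) * x m) s.1 s.2) f) = fun _ => 0 :=
    funext fun m => h m f hf _
  rw [h3]
  rfl

theorem sub_mk [CharZero K] [CharZero (Om K)] {E : Subfield K}
    {F : MvPolynomial (Fin (n + 1)) E} {x : ℕ → Matrix (Fin R) (Fin (n + 1)) K}
    (h : ∀ m, sub (x m) (map E.subtype F) = 0) :
    sub (Matrix.of fun i j => Om.mk fun m => x m i j) (map ((cst K).comp E.subtype) F) = 0 := by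
  refine ext_nat fun u => ?_
  rw [map_zero, eval_sub, eval_map]
  have h1 : pt (fun i => (u i : Om K)) (Matrix.of fun i j => Om.mk fun m => x m i j) =
      fun l => Om.mk fun m => pt (fun i => (u i : K)) (x m) l := by
    funext l
    unfold pt
    rw [← mk_sum]
    refine Finset.sum_congr rfl fun i _ => ?_
    rw [Matrix.of_apply, ← Om.mk_mul]
    congr 1
  rw [h1]
  have h2 := eval₂_mk E.subtype (fun m l => pt (fun i => (u i : K)) (x m) l) F
  rw [h2]
  have h3 : (fun m => eval₂ E.subtype (fun l => pt (fun i => (u i : K)) (x m) l) F) =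
      fun _ => 0 := by
    funext m
    have h4 : eval₂ E.subtype (fun l => pt (fun i => (u i : K)) (x m) l) F =
        eval (pt (fun i => (u i : K)) (x m)) (map E.subtype F) := (eval_map _ _ _).symm
    rw [h4, ← eval_sub, h m, map_zero]
  rw [h3]
  rfl

end om

variable {k0 K : Type} [Field k0] [Field K] [Algebra k0 K] [IsAlgClosed k0] [IsAlgClosed K]
  [CharZero K]

/-- Limit points are constant. -/
theorem limit {n r m : ℕ} {A : Type} [Fintype A] {d : A → ℕ} (E : Subfield K)
    (hE : ∀ c : k0, algebraMap k0 K c ∈ E)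
    {F : A → MvPolynomial (Fin (n + 1)) E} {DE : A → (Fin (n + 1) →₀ ℕ) → E → E}
    (hG : Gen (g1 n) F (dg1 d) DE)
    (D : A → (Fin (n + 1) →₀ ℕ) → Derivation ℤ K K)
    (hDE : ∀ a I (x : E), D a I x = (DE a I x : K))
    (hDk : ∀ a I (c : k0), D a I (algebraMap k0 K c) = 0)
    (hdim : n + m + 2 ≤ ∑ a, (d a + r + 1).choose (r + 1))
    {V : Set (MvPolynomial (Fin (r + 1) × Fin (n + 1)) k0)} (hV : DimV k0 V m)
    (z : Matrix (Fin (r + 1)) (Fin (n + 1)) (Om K)) (hz : ∀ i j, z i j ∈ OE k0 (E : Set K))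
    {e0 : Fin (r + 1) → Fin (n + 1)} (hz0 : z.submatrix id e0 = 1)
    (hzV : InV ((cst K).comp (algebraMap k0 K)) V z)
    (hzC : ∀ a, sub z (map ((cst K).comp E.subtype) (F a)) = 0) (i : Fin (r + 1))
    (j : Fin (n + 1)) : z i j ∈ acl (cst K '' (E : Set K)) := by
  classical
  by_contra hj1
  obtain ⟨κ, Λ, φ, D', hac, hFF, hzΛ, hzκ, hφ, hdat, hDk'⟩ :=
    exists_rig_data E hE hG D hDE hDk (fun s : Fin (r + 1) × Fin (n + 1) => z s.1 s.2)
      (fun s => hz s.1 s.2) (i, j) hj1
  have hczOm : CharZero (Om K) :=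
    charZero_of_injective_algebraMap (algebraMap K (Om K)).injective
  have hcz : CharZero κ := charZero_of_injective_algebraMap (algebraMap ℚ κ).injective
  have hczΛ : CharZero Λ := charZero_of_injective_algebraMap (algebraMap κ Λ).injective
  obtain ⟨x, hx⟩ : ∃ x : Matrix (Fin (r + 1)) (Fin (n + 1)) Λ, ∀ i j, x i j =
    ⟨z i j, hzΛ (i, j)⟩ := ⟨Matrix.of fun i j => ⟨z i j, hzΛ (i, j)⟩, fun _ _ => rfl⟩
  have hxz : x.map (algebraMap Λ (Om K)) = z := by
    ext i j
    rw [Matrix.map_apply, hx]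
    rfl
  have hx0 : x.submatrix id e0 = 1 := by
    ext i j
    have h1 := entry_one hz0 i j
    rw [Matrix.submatrix_apply, hx, Matrix.one_apply]
    change z i (e0 j) = _
    rw [h1]
    split_ifs <;> rfl
  have hφ' : (algebraMap Λ (Om K)).comp φ = (cst K).comp E.subtype := by
    ext c
    exact hφ c
  have hxC : ∀ a, sub x (map φ (F a)) = 0 := fun a => by
    apply sub_zero_of_map (algebraMap Λ (Om K))
    rw [hxz, map_map, hφ']
    exact hzC a
  let ψ : k0 →+* E := (algebraMap k0 K).codRestrict E hE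
  let _ : Algebra k0 Λ := (φ.comp ψ).toAlgebra
  have htr := hV Λ x (li_of_norm hx0) (by
    refine InV.of_map (algebraMap Λ (Om K)) (χ := (cst K).comp (algebraMap k0 K)) ?_ (by
      rw [hxz]
      exact hzV)
    ext c
    exact hφ (ψ c))
  have h1 := ineq hdat hdim hx0 (k0 := k0) (fun a I c => hDk' a I c) htr hxC
  simp only [mul_zero, finsum_zero] at h1
  obtain ⟨c, hc⟩ := const_of_pht h1 (l0 := en n (r + 1) e0) (by rw [pl_en, mi_one hx0])
    (en n (r + 1) (Function.update e0 i j))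
  apply hzκ
  rw [pl_en, ← entry_eq hx0, hx] at hc
  have h2 := congrArg (fun w : Λ => (w : Om K)) hc
  change z i j = (c : Om K) at h2
  change z i j ∈ κ
  rw [h2]
  exact c.2

end Pool.Agent.V7H50.FS
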