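import Pool.Agent.V7H50.FS.Fin
import Pool.Agent.V7H76.MP.Scale

/-!
Finiteness of the linear spaces over finitely generated fields.
-/

set_option autoImplicit false

open MvPolynomial FF Pool.Agent.W602.GT Pool.Agent.TH145.GH
open Pool.Agent.TH145.GC (exists_big)
open Pool.Agent.V7H76.MP (MH mdeg Cf Rt indep_scale)

namespace Pool.Agent.V7H50.FS

section trans

variable {k0 Ω Ω' : Type} [Field k0] [Field Ω] [Field Ω'] {n R : ℕ}

theorem InV.map [Infinite Ω] {ψ : k0 →+* Ω} {V : Set (MvPolynomial (Fin R × Fin (n + 1)) k0)}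
    {p : Matrix (Fin R) (Fin (n + 1)) Ω} (ι : Ω →+* Ω') (h : InV ψ V p) :
    InV (ι.comp ψ) V (p.map ι) := by
  intro f hf g
  obtain ⟨q, hq⟩ : ∃ q : Fin R × Fin (n + 1) → MvPolynomial (Fin R × Fin R) Ω,
    ∀ s, q s = ∑ j, X (s.1, j) * C (p j s.2) := ⟨_, fun _ => rfl⟩
  obtain ⟨P, hP⟩ : ∃ P : MvPolynomial (Fin R × Fin R) Ω, P = eval₂ (C.comp ψ) q f := ⟨_, rfl⟩
  have h1 : P = 0 := by
    refine MvPolynomial.funext fun u => ?_
    rw [map_zero, hP, hom_eval₂]
    have h2 := h f hf (Matrix.of fun i j => u (i, j))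
    have h3 : (eval u).comp (C.comp ψ) = ψ := by
      ext c
      simp
    have h4 : (fun s => eval u (q s)) = fun s : Fin R × Fin (n + 1) =>
        ((Matrix.of fun i j => u (i, j)) * p) s.1 s.2 := by
      funext s
      rw [hq, map_sum, Matrix.mul_apply]
      refine Finset.sum_congr rfl fun j _ => ?_
      rw [map_mul, eval_X, eval_C, Matrix.of_apply]
    rw [h3, h4]
    exact h2
  have h2 : eval₂Hom ι (fun s : Fin R × Fin R => g s.1 s.2) P = 0 := by
    rw [h1, map_zero]
  rw [hP, hom_eval₂] at h2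
  have h3 : (eval₂Hom ι (fun s : Fin R × Fin R => g s.1 s.2)).comp (C.comp ψ) = ι.comp ψ := by
    ext c
    simp
  have h4 : (fun s => eval₂Hom ι (fun s : Fin R × Fin R => g s.1 s.2) (q s)) =
      fun s : Fin R × Fin (n + 1) => (g * p.map ι) s.1 s.2 := by
    funext s
    rw [hq, map_sum, Matrix.mul_apply]
    refine Finset.sum_congr rfl fun j _ => ?_
    rw [map_mul, eval₂Hom_X', eval₂Hom_C, Matrix.map_apply]
  rw [h3, h4] at h2
  exact h2

end trans

/-- Finiteness of the points, if the ratios of the coefficients are independent. -/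
theorem fin_points' {k0 K : Type} [Field k0] [Field K] [Algebra k0 K] [IsAlgClosed K]
    [CharZero K] [IsAlgClosed k0] {n r m : ℕ} {A : Type} [Fintype A] {d : A → ℕ}
    (hdim : n + m + 2 ≤ ∑ a, (d a + r + 1).choose (r + 1))
    {V : Set (MvPolynomial (Fin (r + 1) × Fin (n + 1)) k0)} (hV : DimV k0 V m)
    (F : A → MvPolynomial (Fin (n + 1)) K) (hF : ∀ a, MH (g1 n) (F a) (dg1 d a))
    (I0 : A → Fin (n + 1) →₀ ℕ) (h0 : ∀ a, (F a).coeff (I0 a) ≠ 0)
    (hind : AlgebraicIndependent k0 fun p : Rt (g1 n) (dg1 d) I0 =>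
      (F p.1).coeff p.2.1 / (F p.1).coeff (I0 p.1))
    (T : Finset K) (e0 : Fin (r + 1) → Fin (n + 1)) :
    {x : Matrix (Fin (r + 1)) (Fin (n + 1)) K |
      (∀ i j, x i j ∈ IntermediateField.adjoin k0 (T : Set K)) ∧ x.submatrix id e0 = 1 ∧
      InV (algebraMap k0 K) V x ∧ (∀ a, sub x (F a) = 0)}.Finite := by
  classical
  obtain ⟨K', _, _, hK', hc, t, ht⟩ := exists_big K A
  let _ : Algebra k0 K' := ((algebraMap K K').comp (algebraMap k0 K)).toAlgebra
  have hst : IsScalarTower k0 K K' := IsScalarTower.of_algebraMap_eq fun _ => rfl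
  have hI0 : ∀ a, mdeg (g1 n) (I0 a) = dg1 d a := fun a => hF a _ (mem_support_iff.2 (h0 a))
  have h1 := indep_scale (k0 := k0) (K' := K') F I0 hI0 h0 hind ht
  obtain ⟨G, hG⟩ : ∃ G : A → MvPolynomial (Fin (n + 1)) K', ∀ a, G a =
    C (t a / algebraMap K K' ((F a).coeff (I0 a))) * map (algebraMap K K') (F a) :=
    ⟨_, fun _ => rfl⟩
  have h2 : ∀ a, MH (g1 n) (G a) (dg1 d a) := fun a u hu => by
    apply hF a u
    rw [mem_support_iff] at hu ⊢
    intro h0
    apply hu
    rw [hG, coeff_C_mul, coeff_map, h0, map_zero, mul_zero]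
  have h4 : (fun p : Cf (g1 n) (dg1 d) => (G p.1).coeff p.2.1) =
      fun p => t p.1 / algebraMap K K' ((F p.1).coeff (I0 p.1)) *
        algebraMap K K' ((F p.1).coeff p.2.1) := by
    funext p
    rw [hG, coeff_C_mul, coeff_map]
  have h5 : AlgebraicIndependent k0 (fun p : Cf (g1 n) (dg1 d) => (G p.1).coeff p.2.1) := by
    rw [h4]
    exact h1
  obtain ⟨T', hT'⟩ : ∃ T' : Finset K', T' = T.image (algebraMap K K') := ⟨_, rfl⟩
  have h3 := fin_points (k0 := k0) hdim hV h2 h5 T' e0
  refine Set.Finite.of_finite_image (f := fun x => x.map (algebraMap K K')) (h3.subset ?_) ?_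
  · rintro _ ⟨x, ⟨hx, hxl, hxV, hxC⟩, rfl⟩
    refine ⟨fun i j => ?_, ?_, hxV.map (algebraMap K K'), fun a => ?_⟩
    · have h4 : (IntermediateField.adjoin k0 (T : Set K)).map (IsScalarTower.toAlgHom k0 K K') =
          IntermediateField.adjoin k0 ((T.image (algebraMap K K') : Finset K') : Set K') := by
        rw [IntermediateField.adjoin_map, Finset.coe_image]
        rfl
      rw [hT', ← h4]
      exact ⟨x i j, hx i j, rfl⟩
    · ext i j
      have h10 := entry_one hxl i j
      rw [Matrix.one_apply]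
      change algebraMap K K' (x i (e0 j)) = _
      rw [h10]
      split_ifs
      · rw [map_one]
      · rw [map_zero]
    · have h6 : sub (x.map (algebraMap K K'))
          (C (t a / algebraMap K K' ((F a).coeff (I0 a)))) =
          C (t a / algebraMap K K' ((F a).coeff (I0 a))) :=
        AlgHom.commutes (sub (x.map (algebraMap K K'))) _
      rw [hG, map_mul, h6, ← sub_map, hxC a, map_zero, mul_zero]
  · intro x _ x' _ hxx
    ext i j
    exact (algebraMap K K').injective (congrFun (congrFun hxx i) j)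

section span

variable {K : Type} [Field K] {n R : ℕ}

/-- The rows of a product are in the span of the rows. -/
theorem mul_row_mem (h : Matrix (Fin R) (Fin R) K) (q : Matrix (Fin R) (Fin (n + 1)) K)
    (i : Fin R) : (h * q) i ∈ Submodule.span K (Set.range q) := by
  have h1 : (h * q) i = ∑ j, h i j • q j := by
    funext l
    rw [Matrix.mul_apply, Finset.sum_apply]
    exact Finset.sum_congr rfl fun j _ => by rw [Pi.smul_apply, smul_eq_mul]
  rw [h1]
  exact sum_mem fun j _ => Submodule.smul_mem _ _ (Submodule.subset_span ⟨j, rfl⟩)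

theorem span_mul (h : Matrix (Fin R) (Fin R) K) (hh : h.det ≠ 0)
    (q : Matrix (Fin R) (Fin (n + 1)) K) :
    Submodule.span K (Set.range (h * q)) = Submodule.span K (Set.range q) := by
  apply le_antisymm
  · rw [Submodule.span_le]
    rintro _ ⟨i, rfl⟩
    exact mul_row_mem h q i
  · rw [Submodule.span_le]
    rintro _ ⟨i, rfl⟩
    have h1 := mul_row_mem h⁻¹ (h * q) i
    rwa [← Matrix.mul_assoc, Matrix.nonsing_inv_mul _ (isUnit_iff_ne_zero.2 hh),
      Matrix.one_mul] at h1

/-- A chart with a nonzero minor. -/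
theorem exists_chart {q : Matrix (Fin R) (Fin (n + 1)) K} (hq : LinearIndependent K q) :
    ∃ e0 : Fin R → Fin (n + 1), (q.submatrix id e0).det ≠ 0 :=
  Pool.Agent.TH145.GC.exists_minor q hq

theorem norm_mul {q : Matrix (Fin R) (Fin (n + 1)) K} {e0 : Fin R → Fin (n + 1)}
    (h : (q.submatrix id e0).det ≠ 0) :
    ((q.submatrix id e0)⁻¹ * q).submatrix id e0 = 1 := by
  have h1 : ((q.submatrix id e0)⁻¹ * q).submatrix id e0 =
    (q.submatrix id e0)⁻¹ * q.submatrix id e0 := rfl
  rw [h1, Matrix.nonsing_inv_mul _ (isUnit_iff_ne_zero.2 h)]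

/-- The entries of the normalised matrix. -/
theorem norm_mem {S : Subfield K} {q : Matrix (Fin R) (Fin (n + 1)) K}
    (hq : ∀ i j, q i j ∈ S) (e0 : Fin R → Fin (n + 1)) (i : Fin R) (j : Fin (n + 1)) :
    ((q.submatrix id e0)⁻¹ * q) i j ∈ S := by
  by_cases h : (q.submatrix id e0).det = 0
  · rw [Matrix.nonsing_inv_apply_not_isUnit _ (by rw [h]; exact not_isUnit_zero),
      Matrix.zero_mul]
    exact zero_mem _
  · have h1 := inv_mul_apply (q.submatrix id e0) h rfl i j
    have h2 : ∀ T : Fin R → Fin (n + 1), mi q T ∈ S := by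
      intro T
      unfold mi
      rw [Matrix.det_apply]
      refine sum_mem fun σ _ => ?_
      have h2 : ∏ i, q.submatrix id T (σ i) i ∈ S := prod_mem fun i _ => hq _ _
      rcases Int.units_eq_one_or (Equiv.Perm.sign σ) with h | h
      · rw [h, one_smul]; exact h2
      · rw [h, Units.neg_smul, one_smul]; exact neg_mem h2
    have h3 : ((q.submatrix id e0)⁻¹ * q) i j =
        (mi q e0)⁻¹ * mi q (Function.update e0 i j) := by
      rw [← h1]
      exact (inv_mul_cancel_left₀ h _).symm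
    rw [h3]
    exact mul_mem (inv_mem (h2 _)) (h2 _)

theorem pt_mem (u : Fin R → K) (q : Matrix (Fin R) (Fin (n + 1)) K) :
    pt u q ∈ Submodule.span K (Set.range q) := by
  have h1 : pt u q = ∑ j, u j • q j := by
    funext l
    unfold pt
    rw [Finset.sum_apply]
    exact Finset.sum_congr rfl fun j _ => by rw [Pi.smul_apply, smul_eq_mul]
  rw [h1]
  exact sum_mem fun j _ => Submodule.smul_mem _ _ (Submodule.subset_span ⟨j, rfl⟩)

end span

variable {k K : Type} [Field k] [Field K] [IsAlgClosed K] [CharZero K] [Algebra k K] {n r m : ℕ}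
  {A : Type} [Fintype A] {d : A → ℕ}

/-- Finiteness of the linear spaces over a field generated by a finite set. -/
theorem fin_spaces
    (hdim : n + m + 2 ≤ ∑ a, (d a + r + 1).choose (r + 1))
    {V : Set (MvPolynomial (Fin (r + 1) × Fin (n + 1)) (algebraicClosure k K))}
    (hV : DimV (algebraicClosure k K) V m)
    (F : A → MvPolynomial (Fin (n + 1)) K) (hF : ∀ a, MH (g1 n) (F a) (dg1 d a))
    (I0 : A → Fin (n + 1) →₀ ℕ) (h0 : ∀ a, (F a).coeff (I0 a) ≠ 0)
    (hind : AlgebraicIndependent k fun p : Rt (g1 n) (dg1 d) I0 =>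
      (F p.1).coeff p.2.1 / (F p.1).coeff (I0 p.1)) (T : Finset K) :
    {P : Submodule K (Fin (n + 1) → K) | ∃ q : Matrix (Fin (r + 1)) (Fin (n + 1)) K,
      (∀ i j, q i j ∈ IntermediateField.adjoin (algebraicClosure k K) (T : Set K)) ∧
      LinearIndependent K q ∧ Submodule.span K (Set.range q) = P ∧
      (∀ x : Matrix (Fin (r + 1)) (Fin (n + 1)) K, (∀ i, x i ∈ P) →
        ∀ f ∈ V, aeval (fun s : Fin (r + 1) × Fin (n + 1) => x s.1 s.2) f = 0) ∧
      ∀ v ∈ P, ∀ a, eval v (F a) = 0}.Finite := by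
  have hac : IsAlgClosed (algebraicClosure k K) := (algebraicClosure.isAlgClosure k K).isAlgClosed
  have h1 := fun e0 : Fin (r + 1) → Fin (n + 1) =>
    fin_points' hdim hV F hF I0 h0 hind.algebraicClosure T e0
  refine (Set.finite_iUnion fun e0 => (h1 e0).image
    fun x => Submodule.span K (Set.range x)).subset ?_
  rintro P ⟨q, hq, hqi, rfl, hqV, hqF⟩
  obtain ⟨e0, he0⟩ := exists_chart hqi
  obtain ⟨h, hh⟩ : ∃ h, h = (q.submatrix id e0)⁻¹ := ⟨_, rfl⟩
  have hhd : h.det ≠ 0 := by
    rw [hh]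
    intro h2
    have h3 := Matrix.nonsing_inv_mul _ (isUnit_iff_ne_zero.2 he0)
    have h4 := congrArg Matrix.det h3
    rw [Matrix.det_mul, h2, zero_mul, Matrix.det_one] at h4
    exact zero_ne_one h4
  have hspan := span_mul h hhd q
  refine Set.mem_iUnion.2 ⟨e0, h * q, ⟨fun i j => ?_, ?_, fun f hf g => ?_, fun a => ?_⟩, hspan⟩
  · rw [hh]
    exact norm_mem (S := (IntermediateField.adjoin (algebraicClosure k K)
      (T : Set K)).toSubfield) hq e0 i j
  · rw [hh]
    exact norm_mul he0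
  · refine hqV (g * (h * q)) (fun i => ?_) f hf
    rw [← hspan]
    exact mul_row_mem g (h * q) i
  · refine ext_nat fun u => ?_
    rw [map_zero, eval_sub]
    refine hqF _ ?_ a
    rw [← hspan]
    exact pt_mem _ _

end Pool.Agent.V7H50.FS
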