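import Pool.Agent.V7H50.FS.Vec

/-!
The choice of the rows.
-/

set_option autoImplicit false

open MvPolynomial Pool.Agent.TH145.GH
open Pool.Agent.V7H76.MP (MH mdeg DualE dF_Ev)

namespace Pool.Agent.V7H50.FS

variable {K : Type} [Field K] {n R : ℕ} {A Y τ U : Type}

/-- The vector fields. -/
noncomputable def wv (d : A → ℕ) (D : A → (Fin (n + 1) →₀ ℕ) → Derivation ℤ K K)
    (E : Y → Derivation ℤ K K) (t : τ → Ti n R A) (p : Matrix (Fin R) (Fin (n + 1)) K) :
    (Fin R × Fin R) ⊕ (Y ⊕ τ) → Fin R × Fin (n + 1) → K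
  | Sum.inl s => vG (Matrix.single s.1 s.2 1) p
  | Sum.inr (Sum.inl ξ) => dv (E ξ) p
  | Sum.inr (Sum.inr i) => tv d D p (t i)

/-- The indices of the rows. -/
abbrev Ri (R : ℕ) (d : A → ℕ) (Y τ U : Type) :=
  (Fin R × Fin R) ⊕ (Bi R d ⊕ (Y ⊕ (τ ⊕ U)))

/-- The rows. -/
noncomputable def row (d : A → ℕ) (D : A → (Fin (n + 1) →₀ ℕ) → Derivation ℤ K K)
    (E : Y → Derivation ℤ K K) (t : τ → Ti n R A) (κ : U → Fin R × Fin (n + 1) → K)
    (p : Matrix (Fin R) (Fin (n + 1)) K) (e : Fin R → Fin (n + 1)) :
    Ri R d Y τ U → Fin R × Fin (n + 1) → K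
  | Sum.inl s => vG (Matrix.single s.1 s.2 1) p
  | Sum.inr (Sum.inl x) => dv (D x.1 (x.2.1.mapDomain e)) p
  | Sum.inr (Sum.inr (Sum.inl ξ)) => dv (E ξ) p
  | Sum.inr (Sum.inr (Sum.inr (Sum.inl i))) => tv d D p (t i)
  | Sum.inr (Sum.inr (Sum.inr (Sum.inr u))) => κ u

theorem sub_mapDomain (p : Matrix (Fin R) (Fin (n + 1)) K) (e : Fin R → Fin (n + 1))
    (J : Fin R →₀ ℕ) :
    sub p (monomial (J.mapDomain e) 1) = sub (p.submatrix id e) (monomial J 1) := by
  rw [← rename_monomial]
  unfold sub
  rw [aeval_rename]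
  rfl

theorem sub_base {p : Matrix (Fin R) (Fin (n + 1)) K} {e : Fin R → Fin (n + 1)}
    (hp : p.submatrix id e = 1) (J : Fin R →₀ ℕ) :
    sub p (monomial (J.mapDomain e) 1) = monomial J 1 := by
  rw [sub_mapDomain, hp, sub_one]

theorem degree_mapDomain (e : Fin R → Fin (n + 1)) (J : Fin R →₀ ℕ) :
    (J.mapDomain e).degree = J.degree := by
  have h1 := (homog_monomial (K := ℚ) J).rename_isHomogeneous (f := e)
  rw [rename_monomial] at h1
  have h2 := h1 (d := J.mapDomain e) (by rw [coeff_monomial, if_pos rfl]; exact one_ne_zero)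
  rw [Finsupp.degree_eq_weight_one]
  exact h2

/-- The relations between the derivatives. -/
theorem dv_mod (d : A → ℕ) (D : A → (Fin (n + 1) →₀ ℕ) → Derivation ℤ K K)
    {p : Matrix (Fin R) (Fin (n + 1)) K} {e : Fin R → Fin (n + 1)}
    (hp : p.submatrix id e = 1) (a : A) {I : Fin (n + 1) →₀ ℕ} (hI : I.degree = d a) :
    dv (D a I) p - ∑ J : Ex R (d a), coeff J.1 (sub p (monomial I 1)) •
      dv (D a (J.1.mapDomain e)) p ∈ Submodule.span K (Set.range (tv d D p)) := by
  classical
  obtain ⟨S, hS⟩ : ∃ S, S = Submodule.span K (Set.range (tv d D p)) := ⟨_, rfl⟩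
  obtain ⟨L, hL⟩ : ∃ L : MvPolynomial (Fin (n + 1)) K →ₗ[K] (Fin R × Fin (n + 1) → K),
      ∀ I, L (monomial I 1) = dv (D a I) p := by
    refine ⟨(basisMonomials (Fin (n + 1)) K).constr K fun I => dv (D a I) p, fun I => ?_⟩
    have h1 := (basisMonomials (Fin (n + 1)) K).constr_basis K (fun I => dv (D a I) p) I
    rwa [coe_basisMonomials] at h1
  have hpe : ∀ i j, p i (e j) = if i = j then 1 else 0 := by
    intro i j
    have h1 := congrFun (congrFun hp i) j
    rw [Matrix.submatrix_apply, Matrix.one_apply] at h1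
    exact h1
  -- the relations
  have hrel : ∀ (M : Fin (n + 1) →₀ ℕ) (l : Fin (n + 1)), M.degree + 1 = d a →
      L (monomial (M + Finsupp.single l 1) 1) -
        ∑ i, p i l • L (monomial (M + Finsupp.single (e i) 1) 1) ∈ S := by
    intro M l hM
    have h1 : tv d D p (a, M, Fin.cons l e) ∈ S := by
      rw [hS]
      exact Submodule.subset_span ⟨_, rfl⟩
    rw [tv, if_pos hM, Fin.sum_univ_succ] at h1
    have h2 : ct p (Fin.cons l e) 0 = 1 := by
      unfold ct mi
      have h3 : ((Fin.cons l e : Fin (R + 1) → Fin (n + 1)) ∘ Fin.succAbove 0) = e := by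
        funext i
        rw [Function.comp_apply, Fin.succAbove_zero, Fin.cons_succ]
      rw [h3, hp, Matrix.det_one]
      simp
    have h3 : ∀ i, ct p (Fin.cons l e) (Fin.succ i) = - p i l := by
      intro i
      have h4 := ct_rel p (Fin.cons l e) i
      rw [Fin.sum_univ_succ, h2, Fin.cons_zero, one_mul, Finset.sum_eq_single i] at h4
      · rw [Fin.cons_succ, hpe, if_pos rfl, mul_one] at h4
        linear_combination h4
      · intro j _ hj
        rw [Fin.cons_succ, hpe, if_neg (Ne.symm hj), mul_zero]
      · intro h; exact absurd (Finset.mem_univ _) h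
    simp only [h2, h3, Fin.cons_zero, Fin.cons_succ, one_smul, neg_smul,
      Finset.sum_neg_distrib] at h1
    rw [hL]
    simp only [hL]
    rw [sub_eq_add_neg]
    exact h1
  have hsubX : ∀ l, rename e (sub p (X l)) = ∑ i, C (p i l) * X (e i) := by
    intro l
    rw [sub_X, map_sum]
    refine Finset.sum_congr rfl fun i _ => ?_
    rw [map_mul, rename_C, rename_X]
  have key : ∀ (m : ℕ) (N M : Fin (n + 1) →₀ ℕ), N.degree = m → M.degree + N.degree = d a →
      L (monomial M 1 * monomial N 1) -
        L (monomial M 1 * rename e (sub p (monomial N 1))) ∈ S := by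
    intro m
    induction m with
    | zero =>
      intro N M hN _
      have hN0 : N = 0 := by
        rwa [Finsupp.degree_eq_zero_iff] at hN
      rw [hN0]
      have h1 : (monomial (0 : Fin (n + 1) →₀ ℕ) (1 : K)) = 1 := rfl
      have h2 : rename e (sub p (1 : MvPolynomial (Fin (n + 1)) K)) = 1 := by
        rw [map_one, map_one]
      rw [h1, h2, sub_self]
      exact zero_mem _
    | succ m ih =>
      intro N M hN hMN
      obtain ⟨l, hl⟩ : ∃ l, N l ≠ 0 := by
        by_contra hcon
        push Not at hcon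
        have h1 : N = 0 := Finsupp.ext hcon
        rw [h1, map_zero] at hN
        omega
      obtain ⟨N', hN'⟩ : ∃ N' : Fin (n + 1) →₀ ℕ, N = N' + Finsupp.single l 1 :=
        ⟨N - Finsupp.single l 1, by
          rw [tsub_add_cancel_of_le]
          rw [Finsupp.single_le_iff]
          omega⟩
      have hd1 : N'.degree = m := by
        rw [hN', map_add, Finsupp.degree_single] at hN
        omega
      have hd2 : (M + N').degree + 1 = d a := by
        rw [map_add, hd1]
        omega
      have h1 := hrel (M + N') l hd2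
      have h2 : ∀ i, p i l • (L (monomial (M + Finsupp.single (e i) 1) 1 * monomial N' 1) -
          L (monomial (M + Finsupp.single (e i) 1) 1 * rename e (sub p (monomial N' 1)))) ∈ S := by
        intro i
        refine Submodule.smul_mem _ _ (ih N' (M + Finsupp.single (e i) 1) hd1 ?_)
        rw [map_add, Finsupp.degree_single, hd1]
        omega
      have h3 := add_mem h1 (sum_mem fun i (_ : i ∈ Finset.univ) => h2 i)
      have h4 : L (monomial M 1 * monomial N 1) = L (monomial (M + N' + Finsupp.single l 1) 1) := by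
        rw [monomial_mul, one_mul, hN', add_assoc]
      have h5 : L (monomial M 1 * rename e (sub p (monomial N 1))) =
          ∑ i, p i l • L (monomial (M + Finsupp.single (e i) 1) 1 *
            rename e (sub p (monomial N' 1))) := by
        have h6 : (monomial N (1 : K)) = monomial N' 1 * X l := by
          rw [X, monomial_mul, one_mul, hN']
        rw [h6, map_mul (sub p), map_mul (rename e), hsubX, Finset.mul_sum, Finset.mul_sum,
          map_sum]
        refine Finset.sum_congr rfl fun i _ => ?_
        rw [← map_smul]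
        congr 1
        have h7 : (monomial (M + Finsupp.single (e i) 1) (1 : K)) = monomial M 1 * X (e i) := by
          rw [X, monomial_mul, one_mul]
        rw [h7, smul_eq_C_mul]
        ring
      have h6 : ∀ i, L (monomial (M + Finsupp.single (e i) 1) 1 * monomial N' 1) =
          L (monomial (M + N' + Finsupp.single (e i) 1) 1) := by
        intro i
        rw [monomial_mul, one_mul, add_right_comm]
      simp only [smul_sub, Finset.sum_sub_distrib, h6] at h3
      rw [h4, h5]
      rw [← sub_add_sub_cancel (L (monomial (M + N' + Finsupp.single l 1) 1))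
        (∑ i, p i l • L (monomial (M + N' + Finsupp.single (e i) 1) 1))]
      exact h3
  have h1 := key I.degree I 0 rfl (by rw [map_zero, zero_add, hI])
  have h2 : (monomial (0 : Fin (n + 1) →₀ ℕ) (1 : K)) = 1 := rfl
  have h3 := sub_homog p (homog_monomial (K := K) I)
  rw [hI] at h3
  rw [h2, one_mul, one_mul, hL] at h1
  rw [← hS]
  convert h1 using 2
  conv_rhs => rw [homog_expand h3]
  rw [map_sum, map_sum]
  refine Finset.sum_congr rfl fun J _ => ?_
  rw [map_mul, rename_C, rename_monomial, ← smul_eq_C_mul, map_smul, hL]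

end Pool.Agent.V7H50.FS
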