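import Mathlib

/-!
Symmetric powers of matrices, and the substitution of linear forms.
-/

set_option autoImplicit false

open MvPolynomial

namespace Pool.Agent.V7H50.FS

variable {K : Type} [Field K] {R : ℕ}

/-- The exponents of the monomials of degree `d` in `R` variables. -/
abbrev Ex (R d : ℕ) := {J : Fin R →₀ ℕ // J.degree = d}

theorem finite_ex (R d : ℕ) : Finite (Ex R d) :=
  ((Finsupp.finite_of_degree_le (σ := Fin R) d).subset fun _ h => le_of_eq h).to_subtype

noncomputable instance fintypeEx (R d : ℕ) : Fintype (Ex R d) :=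
  @Fintype.ofFinite _ (finite_ex R d)

/-- The restriction of a form to the span of the rows of `p`. -/
noncomputable def sub {m : ℕ} (p : Matrix (Fin R) (Fin m) K) :
    MvPolynomial (Fin m) K →ₐ[K] MvPolynomial (Fin R) K :=
  aeval fun l => ∑ i, C (p i l) * X i

theorem sub_X {m : ℕ} (p : Matrix (Fin R) (Fin m) K) (l : Fin m) :
    sub p (X l) = ∑ i, C (p i l) * X i := aeval_X _ _

theorem sub_mul {m : ℕ} (A : Matrix (Fin R) (Fin R) K) (p : Matrix (Fin R) (Fin m) K)
    (f : MvPolynomial (Fin m) K) : sub (A * p) f = sub A (sub p f) := by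
  have h : sub (A * p) = (sub A).comp (sub p) := by
    refine MvPolynomial.algHom_ext fun l => ?_
    rw [AlgHom.comp_apply, sub_X, sub_X, map_sum]
    have h1 : ∀ i, sub A (C (p i l) * X i) = ∑ j, C (p i l) * (C (A j i) * X j) := by
      intro i
      rw [map_mul, sub_X, ← Finset.mul_sum]
      congr 1
      exact AlgHom.commutes (sub A) (p i l)
    simp only [h1]
    rw [Finset.sum_comm]
    refine Finset.sum_congr rfl fun j _ => ?_
    rw [Matrix.mul_apply, map_sum, Finset.sum_mul]
    refine Finset.sum_congr rfl fun i _ => ?_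
    rw [map_mul]
    ring
  rw [h]
  rfl

theorem sub_one (f : MvPolynomial (Fin R) K) : sub (1 : Matrix (Fin R) (Fin R) K) f = f := by
  have h : sub (1 : Matrix (Fin R) (Fin R) K) = AlgHom.id K _ := by
    refine MvPolynomial.algHom_ext fun l => ?_
    rw [sub_X, AlgHom.id_apply, Finset.sum_eq_single l]
    · rw [Matrix.one_apply_eq, C_1, one_mul]
    · intro i _ hi
      rw [Matrix.one_apply_ne hi, C_0, zero_mul]
    · intro h; exact absurd (Finset.mem_univ _) h
  rw [h]
  rfl

theorem sub_homog {m : ℕ} (p : Matrix (Fin R) (Fin m) K) {f : MvPolynomial (Fin m) K} {d : ℕ}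
    (hf : f.IsHomogeneous d) : (sub p f).IsHomogeneous d := by
  have h := hf.aeval (fun l => ∑ i, C (p i l) * X i) (n := 1) (fun l => by
    refine IsHomogeneous.sum _ _ _ fun i _ => ?_
    have h1 := (isHomogeneous_C (Fin R) (p i l)).mul (isHomogeneous_X K i)
    rwa [zero_add] at h1)
  rw [one_mul] at h
  exact h

theorem homog_monomial {m : ℕ} (I : Fin m →₀ ℕ) :
    (monomial I (1 : K)).IsHomogeneous I.degree := isHomogeneous_monomial _ rfl

theorem coeff_zero_of_degree {m : ℕ} {f : MvPolynomial (Fin m) K} {d : ℕ}
    (hf : f.IsHomogeneous d) {J : Fin m →₀ ℕ} (hJ : J.degree ≠ d) : coeff J f = 0 := by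
  by_contra h
  apply hJ
  have := hf h
  rw [Finsupp.degree_eq_weight_one]
  exact this

/-- A form as the sum of its monomials. -/
theorem homog_expand {f : MvPolynomial (Fin R) K} {d : ℕ} (hf : f.IsHomogeneous d) :
    f = ∑ J : Ex R d, C (coeff J.1 f) * monomial J.1 1 := by
  classical
  ext I
  rw [coeff_sum]
  simp only [coeff_C_mul, coeff_monomial]
  by_cases hI : I.degree = d
  · rw [Finset.sum_eq_single ⟨I, hI⟩]
    · rw [if_pos rfl, mul_one]
    · intro J _ hJ
      rw [if_neg, mul_zero]
      intro h
      exact hJ (Subtype.ext h)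
    · intro h; exact absurd (Finset.mem_univ _) h
  · rw [coeff_zero_of_degree hf hI, Finset.sum_eq_zero]
    intro J _
    rw [if_neg, mul_zero]
    intro h
    exact hI (h ▸ J.2)

section block

variable {A : Type} [Fintype A] [DecidableEq A] (d : A → ℕ)

/-- The indices of the monomials. -/
abbrev Bi (R : ℕ) {A : Type} (d : A → ℕ) := Σ a : A, Ex R (d a)

/-- The sum of the symmetric powers of a matrix. -/
noncomputable def symB (g : Matrix (Fin R) (Fin R) K) : Matrix (Bi R d) (Bi R d) K :=
  Matrix.of fun x y => if x.1 = y.1 then coeff y.2.1 (sub g (monomial x.2.1 1)) else 0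

theorem symB_mul (g h : Matrix (Fin R) (Fin R) K) : symB d (g * h) = symB d h * symB d g := by
  ext x y
  rw [Matrix.mul_apply, Fintype.sum_sigma, Finset.sum_eq_single x.1]
  · simp only [symB, Matrix.of_apply]
    by_cases hxy : x.1 = y.1
    · have h2 := sub_homog h (homog_monomial x.2.1)
      rw [x.2.2] at h2
      rw [if_pos hxy, sub_mul]
      conv_lhs => rw [homog_expand h2]
      rw [map_sum, coeff_sum]
      refine Finset.sum_congr rfl fun J _ => ?_
      rw [if_pos trivial, if_pos hxy, map_mul]
      have h1 : sub g (C (coeff J.1 (sub h (monomial x.2.1 1)))) =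
          C (coeff J.1 (sub h (monomial x.2.1 1))) := AlgHom.commutes (sub g) _
      rw [h1, coeff_C_mul]
    · rw [if_neg hxy, Finset.sum_eq_zero]
      intro J _
      rw [if_neg hxy, mul_zero]
  · intro b _ hb
    refine Finset.sum_eq_zero fun J _ => ?_
    simp only [symB, Matrix.of_apply]
    rw [if_neg (Ne.symm hb), zero_mul]
  · intro h; exact absurd (Finset.mem_univ _) h

omit [Fintype A] in
theorem symB_one : symB d (1 : Matrix (Fin R) (Fin R) K) = 1 := by
  ext x y
  simp only [symB, Matrix.of_apply]
  rw [sub_one, coeff_monomial, Matrix.one_apply]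
  obtain ⟨a, J⟩ := x
  obtain ⟨b, J'⟩ := y
  by_cases hab : a = b
  · subst hab
    rw [if_pos rfl]
    by_cases hJ : J = J'
    · subst hJ
      rw [if_pos rfl, if_pos rfl]
    · rw [if_neg, if_neg]
      · intro h
        exact hJ (eq_of_heq (Sigma.mk.inj_iff.1 h).2)
      · intro h
        exact hJ (Subtype.ext h)
  · rw [if_neg hab, if_neg]
    intro h
    exact hab (congrArg Sigma.fst h)

omit [Fintype A] in
theorem symB_diag (D : Fin R → K) :
    symB d (Matrix.diagonal D) = Matrix.diagonal fun x => ∏ i, D i ^ x.2.1 i := by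
  have h0 : ∀ l, sub (Matrix.diagonal D) (X l) = C (D l) * X l := by
    intro l
    rw [sub_X, Finset.sum_eq_single l]
    · rw [Matrix.diagonal_apply_eq]
    · intro i _ hi
      rw [Matrix.diagonal_apply_ne _ hi, C_0, zero_mul]
    · intro h; exact absurd (Finset.mem_univ _) h
  have h1 : ∀ J : Fin R →₀ ℕ, sub (Matrix.diagonal D) (monomial J 1) =
      C (∏ i, D i ^ J i) * monomial J 1 := by
    intro J
    rw [monomial_eq, C_1, one_mul, Finsupp.prod_fintype _ _ (fun i => pow_zero _), map_prod,
      map_prod, ← Finset.prod_mul_distrib]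
    refine Finset.prod_congr rfl fun i _ => ?_
    rw [map_pow, h0, mul_pow, map_pow]
  ext x y
  simp only [symB, Matrix.of_apply]
  rw [h1, coeff_C_mul, coeff_monomial, Matrix.diagonal_apply]
  obtain ⟨a, J⟩ := x
  obtain ⟨b, J'⟩ := y
  by_cases hab : a = b
  · subst hab
    rw [if_pos rfl]
    by_cases hJ : J = J'
    · subst hJ
      rw [if_pos rfl, if_pos rfl, mul_one]
    · rw [if_neg, if_neg, mul_zero]
      · intro h
        exact hJ (eq_of_heq (Sigma.mk.inj_iff.1 h).2)
      · intro h
        exact hJ (Subtype.ext h)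
  · rw [if_neg hab, if_neg]
    intro h
    exact hab (congrArg Sigma.fst h)

/-- The exponent of the determinant of the symmetric power. -/
noncomputable def nn (R d : ℕ) (i : Fin R) : ℕ := ∑ J : Ex R d, J.1 i

theorem nn_eq (e : ℕ) (i j : Fin R) : nn R e i = nn R e j := by
  unfold nn
  have hd : ∀ J : Fin R →₀ ℕ, (J.equivMapDomain (Equiv.swap i j)).degree = J.degree := by
    intro J
    rw [Finsupp.degree_eq_sum, Finsupp.degree_eq_sum]
    simp only [Finsupp.equivMapDomain_apply, Equiv.symm_swap]
    exact Equiv.sum_comp (Equiv.swap i j) (fun l => J l)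
  obtain ⟨f, hf⟩ : ∃ f : Ex R e → Ex R e, ∀ J, (f J).1 = J.1.equivMapDomain (Equiv.swap i j) :=
    ⟨fun J => ⟨J.1.equivMapDomain (Equiv.swap i j), by rw [hd, J.2]⟩, fun _ => rfl⟩
  have hff : Function.Involutive f := by
    intro J
    apply Subtype.ext
    rw [hf, hf]
    ext l
    rw [Finsupp.equivMapDomain_apply, Finsupp.equivMapDomain_apply, Equiv.symm_swap,
      Equiv.swap_apply_self]
  rw [← Equiv.sum_comp hff.toPerm]
  refine Finset.sum_congr rfl fun J _ => ?_
  change (f J).1 i = J.1 j
  rw [hf, Finsupp.equivMapDomain_apply, Equiv.symm_swap, Equiv.swap_apply_left]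

theorem sum_nn (e : ℕ) (i : Fin R) : R * nn R e i = e * Fintype.card (Ex R e) := by
  have h1 : ∑ j : Fin R, nn R e j = ∑ J : Ex R e, e := by
    unfold nn
    rw [Finset.sum_comm]
    refine Finset.sum_congr rfl fun J _ => ?_
    rw [← Finsupp.degree_eq_sum, J.2]
  rw [Finset.sum_congr rfl fun j _ => nn_eq e j i, Finset.sum_const, Finset.sum_const,
    Finset.card_univ, Finset.card_univ, Fintype.card_fin, smul_eq_mul, smul_eq_mul] at h1
  rw [h1, mul_comm]

theorem card_ex (R e : ℕ) : Fintype.card (Ex R e) = (R + e - 1).choose e := by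
  have h1 := Finset.card_finsuppAntidiag_nat_eq_choose (s := (Finset.univ : Finset (Fin R))) e
  rw [Finset.card_univ, Fintype.card_fin] at h1
  rw [← h1]
  rw [← Fintype.card_coe]
  refine Fintype.card_congr (Equiv.subtypeEquivRight fun J => ?_)
  rw [Finset.mem_finsuppAntidiag]
  constructor
  · intro h
    refine ⟨?_, Finset.subset_univ _⟩
    rw [← h, Finsupp.degree_eq_sum]
  · rintro ⟨h, -⟩
    rw [← h, Finsupp.degree_eq_sum]

theorem nn_add (r e : ℕ) (i : Fin (r + 1)) :
    nn (r + 1) e i + Fintype.card (Ex (r + 1) e) = (e + r + 1).choose (r + 1) := by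
  have h1 := sum_nn e i
  have h2 := card_ex (r + 1) e
  have h3 : r + 1 + e - 1 = e + r := by omega
  rw [h3] at h2
  have h4 : (e + r).choose e = (e + r).choose r := by
    have := Nat.choose_symm_add (a := e) (b := r)
    exact this
  have h5 := Nat.add_one_mul_choose_eq (e + r) r
  rw [h2, h4] at h1 ⊢
  have h6 : (r + 1) * (nn (r + 1) e i + (e + r).choose r) =
      (r + 1) * (e + r + 1).choose (r + 1) := by
    rw [mul_add, h1, mul_comm (r + 1) ((e + r + 1).choose (r + 1)), ← h5]
    ring
  exact Nat.eq_of_mul_eq_mul_left (Nat.succ_pos r) h6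

/-- The determinant of the symmetric power. -/
theorem det_symB [CharZero K] (g : Matrix (Fin R) (Fin R) K) (hg : g.det ≠ 0) (i0 : Fin R) :
    (symB d g).det = g.det ^ (∑ a, nn R (d a) i0) := by
  have hone : ∀ g h : Matrix (Fin R) (Fin R) K, g * h = 1 → (symB d g).det ≠ 0 := by
    intro g h hgh h0
    have h1 := congrArg Matrix.det (symB_mul d g h)
    rw [hgh, symB_one, Matrix.det_one, Matrix.det_mul, h0, mul_zero] at h1
    exact one_ne_zero h1
  refine Matrix.diagonal_transvection_induction_of_det_ne_zero
    (fun g => (symB d g).det = g.det ^ (∑ a, nn R (d a) i0)) g hg ?_ ?_ ?_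
  · intro D _
    rw [symB_diag, Matrix.det_diagonal, Matrix.det_diagonal, Finset.prod_comm,
      ← Finset.prod_pow]
    refine Finset.prod_congr rfl fun i _ => ?_
    rw [Finset.prod_pow_eq_pow_sum, Fintype.sum_sigma]
    congr 1
    refine Finset.sum_congr rfl fun a _ => ?_
    exact nn_eq (d a) i i0
  · rintro ⟨i, j, hij, c⟩
    rw [Matrix.TransvectionStruct.toMatrix, Matrix.det_transvection_of_ne i j hij, one_pow]
    dsimp only
    obtain ⟨D, hD⟩ : ∃ D : Fin R → K, D = Function.update (fun _ => 1) i 2 := ⟨_, rfl⟩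
    have hDi : D i = 2 := by rw [hD, Function.update_self]
    have hDj : ∀ l, l ≠ i → D l = 1 := fun l hl => by rw [hD, Function.update_of_ne hl]
    have h1 : Matrix.diagonal D * Matrix.transvection i j c =
        Matrix.transvection i j c * Matrix.transvection i j c * Matrix.diagonal D := by
      rw [Matrix.transvection_mul_transvection_same i j hij]
      ext a b
      rw [Matrix.diagonal_mul, Matrix.mul_diagonal, Matrix.transvection, Matrix.transvection,
        Matrix.add_apply, Matrix.add_apply, Matrix.one_apply, Matrix.single_apply,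
        Matrix.single_apply]
      by_cases ha : a = i
      · subst ha
        by_cases hb : b = j
        · subst hb
          rw [if_neg hij, hDi, hDj _ (Ne.symm hij)]
          simp only [and_self, if_true]
          ring
        · by_cases hab : a = b
          · subst hab
            simp [Ne.symm hb]
          · simp [hab, Ne.symm hb]
      · by_cases hab : a = b
        · subst hab
          simp [hDj a ha, Ne.symm ha]
        · simp [hab, Ne.symm ha]
    have h2 := congrArg (fun M => (symB d M).det) h1
    simp only [symB_mul, Matrix.det_mul] at h2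
    have hD0 : (symB d (Matrix.diagonal D)).det ≠ 0 := by
      refine hone _ (Matrix.diagonal fun l => (D l)⁻¹) ?_
      rw [Matrix.diagonal_mul_diagonal, ← Matrix.diagonal_one]
      congr 1
      funext l
      by_cases hl : l = i
      · rw [hl, hDi]
        exact mul_inv_cancel₀ two_ne_zero
      · rw [hDj l hl, inv_one, mul_one]
    have hT0 : (symB d (Matrix.transvection i j c)).det ≠ 0 := by
      refine hone _ (Matrix.transvection i j (-c)) ?_
      rw [Matrix.transvection_mul_transvection_same i j hij, add_neg_cancel,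
        Matrix.transvection_zero]
    have h3 : (symB d (Matrix.transvection i j c)).det * (symB d (Matrix.diagonal D)).det * 1 =
        (symB d (Matrix.transvection i j c)).det * (symB d (Matrix.diagonal D)).det *
          (symB d (Matrix.transvection i j c)).det := by
      linear_combination h2
    exact (mul_left_cancel₀ (mul_ne_zero hT0 hD0) h3).symm
  · intro g h _ _ hg hh
    rw [symB_mul, Matrix.det_mul, hg, hh, Matrix.det_mul, mul_pow, mul_comm]

end block

end Pool.Agent.V7H50.FS
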