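import Pool.Agent.V7H50.FS.GT
import Pool.Agent.V7H76.MP.Det

/-!
The dimension of the Grassmannian; varieties of linear spaces.
-/

set_option autoImplicit false

open MvPolynomial FF Pool.Agent.W602.GT Pool.Agent.TH145.GH
open Pool.Agent.V7H76.MP (MH mdeg Rt trdeg_adjoin_le)

namespace Pool.Agent.V7H50.FS

theorem coordsG_mul {k K : Type} [Field k] [Field K] [Algebra k K] {n R : ℕ}
    (h : Matrix (Fin R) (Fin R) K) (hh : h.det ≠ 0) (p : Matrix (Fin R) (Fin (n + 1)) K) :
    coordsG k (h * p) = coordsG k p := by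
  unfold coordsG
  congr 1
  have h1 : ∀ T : Fin R → Fin (n + 1), ((h * p).submatrix id T).det =
      h.det * (p.submatrix id T).det := fun T => mi_mul h p T
  ext z
  constructor
  · rintro ⟨T, T', hT, rfl⟩
    rw [h1] at hT
    refine ⟨T, T', right_ne_zero_of_mul hT, ?_⟩
    rw [h1, h1, mul_div_mul_left _ _ hh]
  · rintro ⟨T, T', hT, rfl⟩
    refine ⟨T, T', ?_, ?_⟩
    · rw [h1]
      exact mul_ne_zero hh hT
    · rw [h1, h1, mul_div_mul_left _ _ hh]

/-- The dimension of the Grassmannian. -/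
theorem trdeg_gr {k K : Type} [Field k] [Field K] [Algebra k K] {n R : ℕ}
    {p : Matrix (Fin R) (Fin (n + 1)) K} (hp : LinearIndependent K p) :
    Algebra.trdeg k (coordsG k p) ≤ ((R * (n + 1 - R) : ℕ) : Cardinal) := by
  classical
  obtain ⟨e0, he0⟩ := exists_chart hp
  obtain ⟨h, hh⟩ : ∃ h, h = (p.submatrix id e0)⁻¹ := ⟨_, rfl⟩
  have hhd : h.det ≠ 0 := by
    rw [hh]
    intro h2
    have h3 := Matrix.nonsing_inv_mul _ (isUnit_iff_ne_zero.2 he0)
    have h4 := congrArg Matrix.det h3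
    rw [Matrix.det_mul, h2, zero_mul, Matrix.det_one] at h4
    exact zero_ne_one h4
  obtain ⟨x, hx⟩ : ∃ x, x = h * p := ⟨_, rfl⟩
  have hx1 : x.submatrix id e0 = 1 := by
    rw [hx, hh]
    exact norm_mul he0
  rw [← coordsG_mul h hhd p, ← hx, coordsG_eq hx1]
  have hinj : Function.Injective e0 := by
    intro i j hij
    by_contra hne
    have h1 := entry_one hx1 i i
    have h2 := entry_one hx1 i j
    rw [if_pos rfl] at h1
    rw [if_neg hne, ← hij, h1] at h2
    exact one_ne_zero h2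
  obtain ⟨S, hS⟩ : ∃ S : Finset (Fin R × Fin (n + 1)),
    S = Finset.univ ×ˢ (Finset.univ.image e0)ᶜ := ⟨_, rfl⟩
  obtain ⟨Y, hY⟩ : ∃ Y : Set K, Y = (fun s : Fin R × Fin (n + 1) => x s.1 s.2) '' (S : Set _) :=
    ⟨_, rfl⟩
  have h1 : IntermediateField.adjoin k (Set.range fun s : Fin R × Fin (n + 1) => x s.1 s.2) =
      IntermediateField.adjoin k Y := by
    apply le_antisymm
    · rw [IntermediateField.adjoin_le_iff]
      rintro _ ⟨⟨i, l⟩, rfl⟩
      by_cases hl : ∃ j, e0 j = l
      · obtain ⟨j, rfl⟩ := hl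
        dsimp only
        rw [entry_one hx1]
        split_ifs
        · exact one_mem _
        · exact zero_mem _
      · refine IntermediateField.subset_adjoin _ _ ?_
        rw [hY]
        refine ⟨(i, l), ?_, rfl⟩
        rw [hS, Finset.mem_coe, Finset.mem_product, Finset.mem_compl, Finset.mem_image]
        exact ⟨Finset.mem_univ _, fun ⟨j, _, hj⟩ => hl ⟨j, hj⟩⟩
    · refine IntermediateField.adjoin.mono _ _ _ ?_
      rw [hY]
      rintro _ ⟨s, -, rfl⟩
      exact ⟨s, rfl⟩
  rw [h1]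
  refine (trdeg_adjoin_le Y).trans ?_
  have h2 : Cardinal.mk Y ≤ Cardinal.mk (S : Set (Fin R × Fin (n + 1))) := by
    rw [hY]
    exact Cardinal.mk_image_le
  refine h2.trans ?_
  have h3 : S.card = R * (n + 1 - R) := by
    rw [hS, Finset.card_product, Finset.card_compl, Finset.card_image_of_injective _ hinj,
      Finset.card_univ, Fintype.card_fin, Fintype.card_fin]
  rw [← h3]
  simp

section spaces

variable {k0 K L : Type} [Field k0] [Field K] [Field L] [Algebra k0 K] [Algebra K L]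
  [IsAlgClosed K] [CharZero K] {n r m w : ℕ} {A : Type} [Fintype A] {d : A → ℕ}

/-- Subvarieties of the varieties of linear spaces are of general type. -/
theorem general_spaces {V : Set (MvPolynomial (Fin (r + 1) × Fin (n + 1)) k0)}
    (hV : DimV k0 V m)
    (F : A → MvPolynomial (Fin (n + 1)) K) (hF : ∀ a, MH (g1 n) (F a) (dg1 d a))
    (I0 : A → Fin (n + 1) →₀ ℕ) (h0 : ∀ a, (F a).coeff (I0 a) ≠ 0)
    (hind : AlgebraicIndependent k0 fun p : Rt (g1 n) (dg1 d) I0 =>
      (F p.1).coeff p.2.1 / (F p.1).coeff (I0 p.1))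
    (hw : 0 < w) (hdim : n + m + 2 ≤ ∑ a, (d a + r + 1).choose (r + 1) + w)
    (htr : Algebra.trdeg K L = w) (p : Matrix (Fin (r + 1)) (Fin (n + 1)) L)
    (hp : LinearIndependent L p) (hgen : Algebra.IsAlgebraic (coordsG K p) L)
    (hpV : ∀ q : Matrix (Fin (r + 1)) (Fin (n + 1)) L,
      (∀ i, q i ∈ Submodule.span L (Set.range p)) → ∀ f ∈ V,
      aeval (fun s : Fin (r + 1) × Fin (n + 1) => q s.1 s.2) (map (algebraMap k0 K) f) = 0)
    (hpF : ∀ v ∈ Submodule.span L (Set.range p), ∀ a, aeval v (F a) = 0) :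
    GeneralType K L w := by
  obtain ⟨e0, he0⟩ := exists_chart hp
  obtain ⟨h, hh⟩ : ∃ h, h = (p.submatrix id e0)⁻¹ := ⟨_, rfl⟩
  have hhd : h.det ≠ 0 := by
    rw [hh]
    intro h2
    have h3 := Matrix.nonsing_inv_mul _ (isUnit_iff_ne_zero.2 he0)
    have h4 := congrArg Matrix.det h3
    rw [Matrix.det_mul, h2, zero_mul, Matrix.det_one] at h4
    exact zero_ne_one h4
  obtain ⟨x, hx⟩ : ∃ x, x = h * p := ⟨_, rfl⟩
  have hx1 : x.submatrix id e0 = 1 := by
    rw [hx, hh]
    exact norm_mul he0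
  have hspan : Submodule.span L (Set.range x) = Submodule.span L (Set.range p) := by
    rw [hx]
    exact span_mul h hhd p
  have hL : CharZero L := charZero_of_injective_algebraMap (algebraMap K L).injective
  refine general_norm hV F hF I0 h0 hind hw hdim htr x hx1 ?_ ?_ ?_
  · rw [hx, coordsG_mul h hhd]
    exact hgen
  · intro f hf g
    have h1 := hpV (g * x) (fun i => by
      rw [← hspan]
      exact mul_row_mem g x i) f hf
    rw [aeval_def, eval₂_map] at h1
    exact h1
  · intro a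
    refine ext_nat fun u => ?_
    rw [map_zero, eval_sub, eval_map]
    refine hpF _ ?_ a
    rw [← hspan]
    exact pt_mem _ _

end spaces

/-- The condition on the dimension, for spans. -/
theorem dimV_of {k0 : Type} [Field k0] {n r m : ℕ}
    {V : Set (MvPolynomial (Fin (r + 1) × Fin (n + 1)) k0)}
    (h : ∀ (Ω : Type) [Field Ω] [Algebra k0 Ω] (p : Matrix (Fin (r + 1)) (Fin (n + 1)) Ω),
      LinearIndependent Ω p → (∀ q : Matrix (Fin (r + 1)) (Fin (n + 1)) Ω,
        (∀ i, q i ∈ Submodule.span Ω (Set.range p)) → ∀ f ∈ V,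
        aeval (fun s : Fin (r + 1) × Fin (n + 1) => q s.1 s.2) f = 0) →
      Algebra.trdeg k0 (coordsG k0 p) ≤ m) : DimV k0 V m := by
  intro Ω _ _ p hp hpV
  refine h Ω p hp fun q hq f hf => ?_
  have h1 : ∀ i, ∃ c : Fin (r + 1) → Ω, ∑ j, c j • p j = q i := fun i =>
    (Submodule.mem_span_range_iff_exists_fun Ω).1 (hq i)
  choose c hc using h1
  have h2 : q = Matrix.of c * p := by
    ext i l
    rw [← hc, Matrix.mul_apply, Finset.sum_apply]
    rfl
  have h3 := hpV f hf (Matrix.of c)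
  rw [← h2] at h3
  exact h3

end Pool.Agent.V7H50.FS
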