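import Pool.Agent.V7H76.MP.Ineq
import Pool.Agent.V7H50.FS.Sym

/-!
Vector fields on the space of the matrices whose rows span a linear space on which forms with
generic coefficients vanish.
-/

set_option autoImplicit false

open MvPolynomial Pool.Agent.TH145.GH
open Pool.Agent.TH145.GC (Ev)
open Pool.Agent.TH145.GE (ev dF_ev)
open Pool.Agent.V7H76.MP (MH mdeg DualE dF_Ev)

namespace Pool.Agent.V7H50.FS

/-- One block of variables. -/
def g1 (n : ℕ) : Fin (n + 1) → Unit := fun _ => ()

/-- The degrees. -/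
def dg1 {A : Type} (d : A → ℕ) : A → Unit → ℕ := fun a _ => d a

theorem mdeg_g1 {n : ℕ} (I : Fin (n + 1) →₀ ℕ) : mdeg (g1 n) I = fun _ => I.degree := by
  funext i
  unfold mdeg g1
  rw [Finsupp.degree_eq_sum]
  simp

theorem mdeg_iff {n : ℕ} {A : Type} {d : A → ℕ} {I : Fin (n + 1) →₀ ℕ} {a : A} :
    mdeg (g1 n) I = dg1 d a ↔ I.degree = d a := by
  rw [mdeg_g1]
  constructor
  · intro h
    exact congrFun h ()
  · intro h
    funext i
    exact h

variable {K : Type} [Field K] {n R : ℕ} {A : Type}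

/-- A maximal minor. -/
noncomputable def mi (p : Matrix (Fin R) (Fin (n + 1)) K) (T : Fin R → Fin (n + 1)) : K :=
  (p.submatrix id T).det

/-- The derivative of a matrix. -/
def dv (δ : Derivation ℤ K K) (p : Matrix (Fin R) (Fin (n + 1)) K) : Fin R × Fin (n + 1) → K :=
  fun s => δ (p s.1 s.2)

/-- The action of the square matrices on vectors. -/
def act (h : Matrix (Fin R) (Fin R) K) (z : Fin R × Fin (n + 1) → K) :
    Fin R × Fin (n + 1) → K := fun s => ∑ i, h s.1 i * z (i, s.2)

/-- The vectors tangent to the orbit. -/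
def vG (G : Matrix (Fin R) (Fin R) K) (p : Matrix (Fin R) (Fin (n + 1)) K) :
    Fin R × Fin (n + 1) → K := fun s => (G * p) s.1 s.2

/-- The indices of the tangent vector fields. -/
abbrev Ti (n R : ℕ) (A : Type) := A × (Fin (n + 1) →₀ ℕ) × (Fin (R + 1) → Fin (n + 1))

/-- The coefficients of the tangent vector fields. -/
noncomputable def ct (p : Matrix (Fin R) (Fin (n + 1)) K) (T : Fin (R + 1) → Fin (n + 1))
    (k : Fin (R + 1)) : K := (-1) ^ (k : ℕ) * mi p (T ∘ k.succAbove)

/-- The tangent vector fields. -/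
noncomputable def tv (d : A → ℕ) (D : A → (Fin (n + 1) →₀ ℕ) → Derivation ℤ K K)
    (p : Matrix (Fin R) (Fin (n + 1)) K) (t : Ti n R A) : Fin R × Fin (n + 1) → K :=
  if t.2.1.degree + 1 = d t.1 then
    ∑ k, ct p t.2.2 k • dv (D t.1 (t.2.1 + Finsupp.single (t.2.2 k) 1)) p else 0

/-- The linear relations between the columns. -/
theorem ct_rel (p : Matrix (Fin R) (Fin (n + 1)) K) (T : Fin (R + 1) → Fin (n + 1)) (i : Fin R) :
    ∑ k, ct p T k * p i (T k) = 0 := by
  obtain ⟨B, hB0, hBs⟩ : ∃ B : Matrix (Fin (R + 1)) (Fin (R + 1)) K,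
      (∀ k, B 0 k = p i (T k)) ∧ ∀ j k, B (Fin.succ j) k = p j (T k) :=
    ⟨Matrix.of fun a k => Fin.cases (p i (T k)) (fun j => p j (T k)) a, fun _ => rfl,
      fun _ _ => rfl⟩
  have h1 := Matrix.det_succ_row_zero B
  have h2 : B.det = 0 := by
    refine Matrix.det_zero_of_row_eq (i := 0) (j := Fin.succ i) (Fin.succ_ne_zero i).symm ?_
    funext k
    rw [hB0, hBs]
  rw [h2] at h1
  rw [h1]
  refine Finset.sum_congr rfl fun k _ => ?_
  have h3 : B.submatrix Fin.succ k.succAbove = p.submatrix id (T ∘ k.succAbove) := by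
    ext a b
    rw [Matrix.submatrix_apply, hBs]
    rfl
  rw [h3, hB0]
  unfold ct mi
  ring

theorem mi_mul (h : Matrix (Fin R) (Fin R) K) (p : Matrix (Fin R) (Fin (n + 1)) K)
    (T : Fin R → Fin (n + 1)) : mi (h * p) T = h.det * mi p T := by
  unfold mi
  rw [← Matrix.det_mul]
  rfl

theorem ct_mul (h : Matrix (Fin R) (Fin R) K) (p : Matrix (Fin R) (Fin (n + 1)) K)
    (T : Fin (R + 1) → Fin (n + 1)) (k : Fin (R + 1)) : ct (h * p) T k = h.det * ct p T k := by
  unfold ct
  rw [mi_mul]
  ring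

/-- The point of the linear space. -/
def pt (u : Fin R → K) (p : Matrix (Fin R) (Fin (n + 1)) K) : Fin (n + 1) → K :=
  fun l => ∑ i, u i * p i l

theorem eval_sub (u : Fin R → K) (p : Matrix (Fin R) (Fin (n + 1)) K)
    (f : MvPolynomial (Fin (n + 1)) K) : eval u (sub p f) = eval (pt u p) f := by
  have h : (eval u).comp (sub p).toRingHom = eval (pt u p) := by
    refine MvPolynomial.ringHom_ext (fun r => ?_) fun l => ?_
    · change eval u (sub p (C r)) = _
      have h1 : sub p (C r) = C r := AlgHom.commutes (sub p) r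
      rw [h1, eval_C, eval_C]
    · change eval u (sub p (X l)) = _
      rw [sub_X, map_sum, eval_X]
      unfold pt
      refine Finset.sum_congr rfl fun i _ => ?_
      rw [map_mul, eval_C, eval_X, mul_comm]
  rw [← h]
  rfl

theorem ext_nat [CharZero K] {f g : MvPolynomial (Fin R) K}
    (h : ∀ u : Fin R → ℕ, eval (fun i => (u i : K)) f = eval (fun i => (u i : K)) g) : f = g := by
  refine MvPolynomial.funext_set (fun _ => Set.range (Nat.cast : ℕ → K)) (fun _ =>
    Set.infinite_range_of_injective Nat.cast_injective) fun x hx => ?_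
  have h1 : ∀ i, ∃ m : ℕ, (m : K) = x i := fun i => hx i (Set.mem_univ _)
  choose u hu using h1
  have h2 := h u
  have h3 : (fun i => (u i : K)) = x := funext hu
  rwa [h3] at h2

/-- The derivative of the restriction of a form in the direction of a vector. -/
noncomputable def Ph (F : MvPolynomial (Fin (n + 1)) K) (p : Matrix (Fin R) (Fin (n + 1)) K) :
    (Fin R × Fin (n + 1) → K) →ₗ[K] MvPolynomial (Fin R) K where
  toFun z := ∑ l, sub p (pderiv l F) * ∑ i, C (z (i, l)) * X i
  map_add' := fun y z => by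
    rw [← Finset.sum_add_distrib]
    refine Finset.sum_congr rfl fun l _ => ?_
    rw [← mul_add, ← Finset.sum_add_distrib]
    congr 1
    refine Finset.sum_congr rfl fun i _ => ?_
    rw [Pi.add_apply, map_add]
    ring
  map_smul' := fun r z => by
    rw [RingHom.id_apply, Finset.smul_sum]
    refine Finset.sum_congr rfl fun l _ => ?_
    rw [smul_eq_C_mul, Finset.mul_sum, Finset.mul_sum, Finset.mul_sum]
    refine Finset.sum_congr rfl fun i _ => ?_
    rw [Pi.smul_apply, smul_eq_mul, map_mul]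
    ring

theorem Ph_apply (F : MvPolynomial (Fin (n + 1)) K) (p : Matrix (Fin R) (Fin (n + 1)) K)
    (z : Fin R × Fin (n + 1) → K) :
    Ph F p z = ∑ l, sub p (pderiv l F) * ∑ i, C (z (i, l)) * X i := rfl

theorem eval_Ph (F : MvPolynomial (Fin (n + 1)) K) (p : Matrix (Fin R) (Fin (n + 1)) K)
    (z : Fin R × Fin (n + 1) → K) (u : Fin R → K) :
    eval u (Ph F p z) = dF F (pt u p) fun l => ∑ i, u i * z (i, l) := by
  rw [Ph_apply, map_sum]
  unfold dF
  refine Finset.sum_congr rfl fun l _ => ?_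
  rw [map_mul, eval_sub, map_sum]
  congr 1
  refine Finset.sum_congr rfl fun i _ => ?_
  rw [map_mul, eval_C, eval_X, mul_comm]

theorem der_pt (δ : Derivation ℤ K K) (p : Matrix (Fin R) (Fin (n + 1)) K) (u : Fin R → ℕ)
    (l : Fin (n + 1)) :
    δ (pt (fun i => (u i : K)) p l) = ∑ i, (u i : K) * dv δ p (i, l) := by
  unfold pt dv
  rw [map_sum]
  refine Finset.sum_congr rfl fun i _ => ?_
  rw [δ.leibniz, δ.map_natCast, smul_zero, add_zero, smul_eq_mul]

theorem eval_Ph_dv (F : MvPolynomial (Fin (n + 1)) K) (p : Matrix (Fin R) (Fin (n + 1)) K)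
    (δ : Derivation ℤ K K) (u : Fin R → ℕ) :
    eval (fun i => (u i : K)) (Ph F p (dv δ p)) =
      dF F (pt (fun i => (u i : K)) p) fun l => δ (pt (fun i => (u i : K)) p l) := by
  rw [eval_Ph]
  congr 1
  funext l
  exact (der_pt δ p u l).symm

theorem mon_pt (p : Matrix (Fin R) (Fin (n + 1)) K) (u : Fin R → K) (I : Fin (n + 1) →₀ ℕ) :
    eval u (sub p (monomial I 1)) = mon (pt u p) I := by
  rw [eval_sub, eval_monomial', one_mul]

section

variable [CharZero K] {F : A → MvPolynomial (Fin (n + 1)) K} {d : A → ℕ}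
  {D : A → (Fin (n + 1) →₀ ℕ) → Derivation ℤ K K} {ε : A → (Fin (n + 1) →₀ ℕ) → ℕ}

open scoped Classical in
theorem Ph_dv (hD : DualE (g1 n) F (dg1 d) D ε) (p : Matrix (Fin R) (Fin (n + 1)) K) {a b : A}
    {I : Fin (n + 1) →₀ ℕ} (hI : I.degree = d a) (hp : sub p (F b) = 0) :
    Ph (F b) p (dv (D a I) p) = - if a = b then sub p (monomial I 1) else 0 := by
  refine ext_nat fun u => ?_
  have h1 : eval (pt (fun i => (u i : K)) p) (F b) = 0 := by
    rw [← eval_sub, hp, map_zero]
  have h2 := dF_Ev hD (pt (fun i => (u i : K)) p) (mdeg_iff.2 hI) h1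
  rw [eval_Ph_dv, map_neg]
  unfold Ev at h2
  rw [h2]
  congr 1
  split_ifs
  · rw [mon_pt]
  · rw [map_zero]

theorem Ph_vert {G : MvPolynomial (Fin (n + 1)) K} {δ : Derivation ℤ K K}
    (hδ : ∀ u, δ (G.coeff u) = 0) {p : Matrix (Fin R) (Fin (n + 1)) K} (hp : sub p G = 0) :
    Ph G p (dv δ p) = 0 := by
  refine ext_nat fun u => ?_
  have h1 : eval (pt (fun i => (u i : K)) p) G = 0 := by
    rw [← eval_sub, hp, map_zero]
  have h2 := dF_ev hδ (pt (fun i => (u i : K)) p)
  rw [h1, map_zero] at h2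
  rw [eval_Ph_dv, map_zero]
  exact h2

omit [CharZero K] in
theorem pderiv_sub (G : MvPolynomial (Fin (n + 1)) K) (p : Matrix (Fin R) (Fin (n + 1)) K)
    (j : Fin R) : pderiv j (sub p G) = ∑ l, sub p (pderiv l G) * C (p j l) := by
  induction G using MvPolynomial.induction_on with
  | C r =>
    have h1 : sub p (C r) = C r := AlgHom.commutes (sub p) r
    rw [h1, pderiv_C]
    simp
  | add f g hf hg =>
    rw [map_add, map_add, hf, hg, ← Finset.sum_add_distrib]
    refine Finset.sum_congr rfl fun l _ => ?_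
    rw [map_add, map_add]
    ring
  | mul_X f s hf =>
    rw [map_mul, pderiv_mul, hf, sub_X, map_sum]
    have h1 : ∑ i, pderiv j (C (p i s) * X i) = C (p j s) := by
      rw [Finset.sum_eq_single j]
      · rw [pderiv_C_mul, pderiv_X_self, mul_one]
      · intro i _ hi
        rw [pderiv_C_mul, pderiv_X_of_ne hi, mul_zero]
      · intro h; exact absurd (Finset.mem_univ _) h
    rw [h1]
    have h2 : ∀ l, sub p (pderiv l (f * X s)) * C (p j l) =
        sub p (pderiv l f) * C (p j l) * (∑ i, C (p i s) * X i) +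
          if l = s then sub p f * C (p j s) else 0 := by
      intro l
      rw [pderiv_mul, map_add, map_mul, map_mul, sub_X]
      by_cases hl : l = s
      · subst hl
        rw [pderiv_X_self, map_one, if_pos rfl]
        ring
      · rw [pderiv_X_of_ne (Ne.symm hl), map_zero, if_neg hl]
        ring
    simp only [h2]
    rw [Finset.sum_add_distrib, Finset.sum_ite_eq' Finset.univ s, if_pos (Finset.mem_univ _),
      ← Finset.sum_mul]

omit [CharZero K] in
theorem Ph_vG {G : MvPolynomial (Fin (n + 1)) K} (M : Matrix (Fin R) (Fin R) K)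
    {p : Matrix (Fin R) (Fin (n + 1)) K} (hp : sub p G = 0) : Ph G p (vG M p) = 0 := by
  have h1 : ∀ j, ∑ l, sub p (pderiv l G) * C (p j l) = 0 := fun j => by
    rw [← pderiv_sub, hp, map_zero]
  rw [Ph_apply]
  have h2 : ∀ l, sub p (pderiv l G) * ∑ i, C (vG M p (i, l)) * X i =
      ∑ i, ∑ j, (C (M i j) * X i) * (sub p (pderiv l G) * C (p j l)) := by
    intro l
    rw [Finset.mul_sum]
    refine Finset.sum_congr rfl fun i _ => ?_
    unfold vG
    rw [Matrix.mul_apply, map_sum, Finset.sum_mul, Finset.mul_sum]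
    refine Finset.sum_congr rfl fun j _ => ?_
    rw [map_mul]
    ring
  simp only [h2]
  rw [Finset.sum_comm]
  refine Finset.sum_eq_zero fun i _ => ?_
  rw [Finset.sum_comm]
  refine Finset.sum_eq_zero fun j _ => ?_
  rw [← Finset.mul_sum, h1, mul_zero]

theorem Ph_tv (hD : DualE (g1 n) F (dg1 d) D ε) {p : Matrix (Fin R) (Fin (n + 1)) K} (b : A)
    (hp : sub p (F b) = 0) (t : Ti n R A) : Ph (F b) p (tv d D p t) = 0 := by
  classical
  unfold tv
  split_ifs with ht
  · rw [map_sum]
    have h1 : ∀ k, Ph (F b) p (ct p t.2.2 k •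
        dv (D t.1 (t.2.1 + Finsupp.single (t.2.2 k) 1)) p) =
        (if t.1 = b then - sub p (monomial t.2.1 1) else 0) *
          ∑ i, C (ct p t.2.2 k * p i (t.2.2 k)) * X i := by
      intro k
      rw [map_smul, Ph_dv hD p (by rw [map_add, Finsupp.degree_single, ht]) hp]
      have h2 : sub p (monomial (t.2.1 + Finsupp.single (t.2.2 k) 1) 1) =
          sub p (monomial t.2.1 1) * ∑ i, C (p i (t.2.2 k)) * X i := by
        rw [← sub_X, ← map_mul, X, monomial_mul, one_mul]
      rw [h2, smul_eq_C_mul]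
      have h4 : ∑ i, C (ct p t.2.2 k * p i (t.2.2 k)) * (X i : MvPolynomial (Fin R) K) =
          C (ct p t.2.2 k) * ∑ i, C (p i (t.2.2 k)) * X i := by
        rw [Finset.mul_sum]
        refine Finset.sum_congr rfl fun i _ => ?_
        rw [map_mul]
        ring
      rw [h4]
      split_ifs
      · ring
      · ring
    simp only [h1]
    rw [← Finset.mul_sum, Finset.sum_comm]
    have h3 : ∀ i, ∑ k, C (ct p t.2.2 k * p i (t.2.2 k)) * (X i : MvPolynomial (Fin R) K) = 0 := by
      intro i
      rw [← Finset.sum_mul, ← map_sum, ct_rel, C_0, zero_mul]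
    rw [Finset.sum_congr rfl fun i _ => h3 i, Finset.sum_const_zero, mul_zero]
  · rw [map_zero]

end

end Pool.Agent.V7H50.FS
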